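import Pool.Agent.Lib.MP_ca0971_gt.OT.Tri.S5D

/-!
# Project OT, Tri: crossings of the fixed edges of w4
-/

set_option autoImplicit false

namespace Pool.Agent.Lib.MP_ca0971_gt.OT

open Finset Filter Topology

theorem s5_mp_mem {J : Type} {τ : Equiv.Perm J} {w : J → E} {i j : J} (h : Crs τ w i j) :
    mp τ w i j ∈ sg τ w i ∧ mp τ w i j ∈ sg τ w j := by
  have h1 : ∀ {a b : J}, Crs τ w a b → mp τ w a b ∈ sg τ w a := by
    intro a b hab
    rw [sg, segment_eq_image_lineMap]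
    refine ⟨par τ w a b, ⟨hab.2.2.1.le, hab.2.2.2.1.le⟩, ?_⟩
    rw [AffineMap.lineMap_apply_module, mp, dd]
    simp only [Complex.real_smul, Complex.ofReal_sub, Complex.ofReal_one]
    ring
  refine ⟨h1 h, ?_⟩
  rw [mp_symm _ h.2.1]
  exact h1 h.symm'

variable {I : Type} [Fintype I] [DecidableEq I] {σ : Equiv.Perm I}

/-- The projected fixed edges: base edges, A B1 in the hull near A, C2 B2 and B2 C in the hull near C. -/
theorem s5_sg {v : I → E} {i0 : I} {C2 B2 B1 C1 D : E} :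
    sg (sA4 σ i0) (s5U v C2 B2 C1 B1) (some (some (some (some i0)))) ⊆
        convexHull ℝ {(v i0).1, B1.1, C1.1, D.1} ∧
      sg (sA4 σ i0) (s5U v C2 B2 C1 B1) (some (some none)) ⊆
        convexHull ℝ {C2.1, B2.1, (v (σ i0)).1} ∧
      sg (sA4 σ i0) (s5U v C2 B2 C1 B1) (some (some (some none))) ⊆
        convexHull ℝ {C2.1, B2.1, (v (σ i0)).1} ∧
      ∀ a, a ≠ i0 → sg (sA4 σ i0) (s5U v C2 B2 C1 B1) (some (some (some (some a)))) =
        sg σ v a := by
  refine ⟨?_, ?_, ?_, fun a ha => ?_⟩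
  · rw [sg, s5_p5]
    exact segment_subset_convexHull (by simp [insV]) (by simp [insV])
  · rw [sg, s5_p4]
    exact segment_subset_convexHull (by simp [insV]) (by simp [insV])
  · rw [sg, s5_p3]
    exact segment_subset_convexHull (by simp [insV]) (by simp [insV])
  · rw [sg, s5_p6 ha]
    rfl

/-- Crossings of the fixed edges. -/
theorem s5_cls {v : I → E} {i0 : I} {B C2 B2 B1 C1 D : E}
    (h : TriC σ v i0 B C2 B2 B1 C1 D) (i j : Option (Option (Option (Option I))))
    (hi : i ≠ some none) (hi' : sA4 σ i0 i ≠ some none) (hj : j ≠ some none)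
    (hj' : sA4 σ i0 j ≠ some none) (hc : Crs (sA4 σ i0) (s5U v C2 B2 C1 B1) i j) :
    (∃ a b, a ≠ i0 ∧ b ≠ i0 ∧ i = some (some (some (some a))) ∧
      j = some (some (some (some b)))) ∨
    (i = some (some (some none)) ∧ j = some (some (some (some (σ i0))))) ∨
    (i = some (some (some (some (σ i0)))) ∧ j = some (some (some none))) := by
  obtain ⟨sA, sC, sC', sB⟩ := s5_sg (σ := σ) (v := v) (i0 := i0) (C2 := C2) (B2 := B2)
    (B1 := B1) (C1 := C1) (D := D)
  -- a base edge and an edge near C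
  have key1 : ∀ (a : I) (q : Option (Option (Option (Option I)))) (z : ℂ), a ≠ i0 → a ≠ σ i0 →
      z ∈ sg σ v a → z ∈ convexHull ℝ {C2.1, B2.1, (v (σ i0)).1} → False := fun a q z h1 h2 h3 h4 =>
    Set.disjoint_left.1 (h.fC a h1 h2) h3 h4
  have key2 : ∀ (a : I) (z : ℂ), a ≠ i0 → σ a ≠ i0 →
      z ∈ sg σ v a → z ∈ convexHull ℝ {(v i0).1, B1.1, C1.1, D.1} → False :=
    fun a z h1 h2 h3 h4 => Set.disjoint_left.1 (h.fA a h1 h2) h3 h4
  have key3 : ∀ z : ℂ, z ∈ convexHull ℝ {(v i0).1, B1.1, C1.1, D.1} →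
      z ∈ convexHull ℝ {C2.1, B2.1, (v (σ i0)).1} → False :=
    fun z h1 h2 => Set.disjoint_left.1 h.fAC h1 h2
  have main : ∀ (i j : Option (Option (Option (Option I)))),
      Crs (sA4 σ i0) (s5U v C2 B2 C1 B1) i j → i = some (some (some (some i0))) →
      j ≠ none → j ≠ some none → False := by
    intro i j hc hi hj0 hj1
    subst hi
    obtain ⟨m1, m2⟩ := s5_mp_mem hc
    rcases j with _ | _ | _ | _ | b
    · exact hj0 rfl
    · exact hj1 rfl
    · exact key3 _ (sA m1) (sC m2)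
    · exact key3 _ (sA m1) (sC' m2)
    · by_cases hb : b = i0
      · subst hb
        exact hc.1 (Or.inl rfl)
      · rw [sB b hb] at m2
        refine key2 b _ hb (fun e => ?_) m2 (sA m1)
        exact hc.1 (Or.inr (Or.inr (by rw [s5_p6 hb, e])))
  have main2 : ∀ (i j : Option (Option (Option (Option I)))),
      Crs (sA4 σ i0) (s5U v C2 B2 C1 B1) i j → i = some (some none) →
      j ≠ none → j ≠ some none → False := by
    intro i j hc hi hj0 hj1
    subst hi
    obtain ⟨m1, m2⟩ := s5_mp_mem hc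
    rcases j with _ | _ | _ | _ | b
    · exact hj0 rfl
    · exact hj1 rfl
    · exact hc.1 (Or.inl rfl)
    · exact hc.1 (Or.inr (Or.inr (s5_p3 i0).symm))
    · by_cases hb : b = i0
      · subst hb
        exact key3 _ (sA m2) (sC m1)
      · rw [sB b hb] at m2
        refine key1 b none _ hb (fun e => ?_) m2 (sC m1)
        exact hc.1 (Or.inr (Or.inl (by rw [s5_p4, e])))
  have main3 : ∀ (i j : Option (Option (Option (Option I)))),
      Crs (sA4 σ i0) (s5U v C2 B2 C1 B1) i j → i = some (some (some none)) →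
      j ≠ none → j ≠ some none → j = some (some (some (some (σ i0)))) := by
    intro i j hc hi hj0 hj1
    subst hi
    obtain ⟨m1, m2⟩ := s5_mp_mem hc
    rcases j with _ | _ | _ | _ | b
    · exact absurd rfl hj0
    · exact absurd rfl hj1
    · exact absurd (Or.inr (Or.inl (s5_p3 i0).symm)) hc.1
    · exact absurd (Or.inl rfl) hc.1
    · by_cases hb : b = i0
      · subst hb
        exact (key3 _ (sA m2) (sC' m1)).elim
      · rw [sB b hb] at m2
        by_contra hne
        exact key1 b none _ hb (fun e => hne (by rw [e])) m2 (sC' m1)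
  have ni : i ≠ none := fun e => hi' (by rw [e, s5_p1])
  have nj : j ≠ none := fun e => hj' (by rw [e, s5_p1])
  rcases i with _ | _ | _ | _ | a
  · exact absurd rfl ni
  · exact absurd rfl hi
  · exact (main2 _ _ hc rfl nj hj).elim
  · exact Or.inr (Or.inl ⟨rfl, main3 _ _ hc rfl nj hj⟩)
  · by_cases ha : a = i0
    · subst ha
      exact (main _ _ hc rfl nj hj).elim
    · rcases j with _ | _ | _ | _ | b
      · exact absurd rfl nj
      · exact absurd rfl hj
      · exact (main2 _ _ hc.symm' rfl ni hi).elim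
      · exact Or.inr (Or.inr ⟨main3 _ _ hc.symm' rfl ni hi, rfl⟩)
      · by_cases hb : b = i0
        · subst hb
          exact (main _ _ hc.symm' rfl ni hi).elim
        · exact Or.inl ⟨a, b, ha, hb, rfl, rfl⟩

/-- Crossings of base edges. -/
theorem s5_crs {v : I → E} {i0 : I} {C2 B2 B1 C1 : E} {a b : I} (ha : a ≠ i0) (hb : b ≠ i0)
    (hc : Crs (sA4 σ i0) (s5U v C2 B2 C1 B1) (some (some (some (some a))))
      (some (some (some (some b))))) : Crs σ v a b := by
  have e1 : ∀ c, c ≠ i0 → dd (sA4 σ i0) (s5U v C2 B2 C1 B1) (some (some (some (some c)))) =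
      dd σ v c := fun c hc => by
    rw [dd, s5_p6 hc]
    rfl
  have e2 : ∀ c d, c ≠ i0 → d ≠ i0 → par (sA4 σ i0) (s5U v C2 B2 C1 B1)
      (some (some (some (some c)))) (some (some (some (some d)))) = par σ v c d :=
    fun c d hc hd => by
      rw [par, e1 c hc, e1 d hd]
      rfl
  obtain ⟨h1, h2, h3⟩ := hc
  rw [e1 a ha, e1 b hb] at h2
  rw [e2 a b ha hb, e2 b a hb ha] at h3
  refine ⟨fun hA => h1 ?_, h2, h3⟩
  rcases hA with h4 | h4 | h4
  · exact Or.inl (by rw [h4])
  · exact Or.inr (Or.inl (by rw [s5_p6 ha, h4]))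
  · exact Or.inr (Or.inr (by rw [s5_p6 hb, h4]))

theorem s5_par {v : I → E} {i0 : I} {C2 B2 B1 C1 : E} {a b : I} (ha : a ≠ i0) (hb : b ≠ i0) :
    par (sA4 σ i0) (s5U v C2 B2 C1 B1) (some (some (some (some a))))
      (some (some (some (some b)))) = par σ v a b := by
  rw [par, dd, dd, s5_p6 ha, s5_p6 hb]
  rfl

theorem s5_fix2 {v : I → E} {i0 : I} {B C2 B2 B1 C1 D : E}
    (h : TriC σ v i0 B C2 B2 B1 C1 D) (i j l : Option (Option (Option (Option I))))
    (hi : i ≠ some none) (hi' : sA4 σ i0 i ≠ some none) (hj : j ≠ some none)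
    (hj' : sA4 σ i0 j ≠ some none) (hl : l ≠ some none) (hl' : sA4 σ i0 l ≠ some none)
    (hc : Crs (sA4 σ i0) (s5U v C2 B2 C1 B1) i j)
    (hc' : Crs (sA4 σ i0) (s5U v C2 B2 C1 B1) i l)
    (hp : par (sA4 σ i0) (s5U v C2 B2 C1 B1) i j = par (sA4 σ i0) (s5U v C2 B2 C1 B1) i l) :
    j = l := by
  obtain ⟨sA, sC, sC', sB⟩ := s5_sg (σ := σ) (v := v) (i0 := i0) (C2 := C2) (B2 := B2)
    (B1 := B1) (C1 := C1) (D := D)
  have hz : mp (sA4 σ i0) (s5U v C2 B2 C1 B1) i j = mp (sA4 σ i0) (s5U v C2 B2 C1 B1) i l := by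
    rw [mp, mp, hp]
  have mj := (s5_mp_mem hc).2
  have ml := (s5_mp_mem hc').2
  have bad : ∀ (b : I) (z : ℂ), b ≠ i0 → b ≠ σ i0 →
      z ∈ sg (sA4 σ i0) (s5U v C2 B2 C1 B1) (some (some (some (some b)))) →
      z ∈ sg (sA4 σ i0) (s5U v C2 B2 C1 B1) (some (some (some none))) → False :=
    fun b z h1 h2 h3 h4 => by
      rw [sB b h1] at h3
      exact Set.disjoint_left.1 (h.fC b h1 h2) h3 (sC' h4)
  rcases s5_cls h i j hi hi' hj hj' hc with ⟨a, b, ha, hb, e1, e2⟩ | ⟨e1, e2⟩ | ⟨e1, e2⟩ <;>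
    rcases s5_cls h i l hi hi' hl hl' hc' with ⟨a', b', ha', hb', e3, e4⟩ | ⟨e3, e4⟩ | ⟨e3, e4⟩
  · subst e1 e2 e4
    have := h.base.gen.trp a b b' (s5_crs ha hb hc) (s5_crs ha hb' hc')
      (by rwa [s5_par ha hb, s5_par ha hb'] at hp)
    rw [this]
  · rw [e1] at e3
    simp at e3
  · exfalso
    subst e1 e2 e4
    have e5 : a = σ i0 := by simpa using e3
    refine bad b _ hb (fun e => ?_) mj (hz ▸ ml)
    exact hc.1 (Or.inl (by rw [e5, e]))
  · rw [e1] at e3
    simp at e3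
  · rw [e2, e4]
  · rw [e1] at e3
    simp at e3
  · exfalso
    subst e1 e2 e4
    have e5 : σ i0 = a' := by simpa using e3
    refine bad b' _ hb' (fun e => ?_) ml (hz ▸ mj)
    exact hc'.1 (Or.inl (by rw [e]))
  · rw [e1] at e3
    simp at e3
  · rw [e2, e4]

end Pool.Agent.Lib.MP_ca0971_gt.OT
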