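import Pool.Agent.Lib.MP_ca0971_gt.OT.Tri.G3

/-!
# Project OT, Tri: insertion of D on the edge none (from B1 to C2) of w3', exchange of B1 and D
-/

set_option autoImplicit false

namespace Pool.Agent.Lib.MP_ca0971_gt.OT

open Finset Filter Topology

variable {I : Type} [Fintype I] [DecidableEq I] {σ : Equiv.Perm I}

section perms

variable (σ : Equiv.Perm I) (i0 : I)

omit [Fintype I]

private theorem s6_none : sA3 σ i0 none = some (some none) := by
  rw [sA3, insS_none, sA2, insS_ne (by simp), sA1, insS_some]

private theorem s6_sn : sA3 σ i0 (some none) = some (some (some (σ i0))) := by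
  rw [sA3, insS_ne (by simp), sA2, insS_none, sA1, insS_none]

private theorem s6_e : sA3 σ i0 (some (some (some i0))) = none := by
  rw [sA3, insS_some]

private theorem s6_ne {k : I} (h : k ≠ i0) :
    sA3 σ i0 (some (some (some k))) = some (some (some (σ k))) := by
  rw [sA3, insS_ne (by simpa using h), sA2, insS_ne (by simp), sA1, insS_ne h]

end perms

/-- gen_ins, Zh_ins (hcut: D is on no base edge by l1, and the edges near C are disjoint from the hull near
A, fAC; the edge A B1 is adjacent) and ins_comm. -/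
theorem TriC.s6 {v : I → E} {i0 : I} {B C2 B2 B1 C1 D : E} (h : TriC σ v i0 B C2 B2 B1 C1 D) (N : ℕ) :
    Gen (sA4 σ i0) (insV (insV (insV (insV v C2) B2) D) B1) ∧
      Zh (sA4 σ i0) (insV (insV (insV (insV v C2) B2) D) B1) N =
        Zh (sA3 σ i0) (insV (insV (insV v C2) B2) B1) N := by
  obtain ⟨t, ht0, ht1, he⟩ := h.e5
  have e1 : (AffineMap.lineMap (insV (insV (insV v C2) B2) B1 none)
      (insV (insV (insV v C2) B2) B1 (sA3 σ i0 none)) t : E) = D := by
    rw [s6_none, he]
    rfl
  have hcut : ∀ j, Crs (sA3 σ i0) (insV (insV (insV v C2) B2) B1) none j →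
      par (sA3 σ i0) (insV (insV (insV v C2) B2) B1) none j ≠ t := by
    intro j hj hp
    have h1 := hj.cr_mem.2
    have h2 : mp (sA3 σ i0) (insV (insV (insV v C2) B2) B1) none j = D.1 := by
      rw [mp, hp, dd, s6_none, he, AffineMap.lineMap_apply]
      change B1.1 + (t : ℂ) * (C2.1 - B1.1) = t • (C2.1 - B1.1) + B1.1
      rw [Complex.real_smul]
      ring
    rw [h2] at h1
    have hA := hj.1
    rcases j with _ | _ | _ | k
    · exact hA (Or.inl rfl)
    · have e : sg (sA3 σ i0) (insV (insV (insV v C2) B2) B1) (some none) =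
          segment ℝ B2.1 (v (σ i0)).1 := by
        rw [sg, s6_sn]
        rfl
      rw [e] at h1
      exact Set.disjoint_left.1 h.fAC (subset_convexHull ℝ _ (by simp))
        (segment_subset_convexHull (by simp) (by simp) h1)
    · exact hA (Or.inr (Or.inl (s6_none σ i0).symm))
    · by_cases hk : k = i0
      · rw [hk] at hA
        exact hA (Or.inr (Or.inr (s6_e σ i0).symm))
      · have e : sg (sA3 σ i0) (insV (insV (insV v C2) B2) B1) (some (some (some k))) =
            sg σ v k := by
          rw [sg, s6_ne σ i0 hk]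
          rfl
        rw [e] at h1
        exact (h.l1 k hk).2.2.2 (mvl_dt_of_mem h1)
  have hG := gen_ins h.gen3 none ht0 ht1 hcut
  have hZ := Zh_ins none ht0 ht1 hG N
  rw [e1] at hG hZ
  have hc := ins_comm (σ := sA2 σ i0) (v := insV (insV v C2) B2) (some (some i0)) B1 D N
  exact ⟨hc.2.2 hG, hc.1.trans hZ⟩

end Pool.Agent.Lib.MP_ca0971_gt.OT
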