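import Pool.Agent.Lib.MP_ca0971_gt.OT.Tri.S34
import Pool.Agent.Lib.MP_ca0971_gt.OT.Tri.S6
import Pool.Agent.Lib.MP_ca0971_gt.OT.Tri.S5E

/-!
# Project OT, Tri: the move of C1 to D

Polygon w4 = A B1 C1 C2 B2 C on Option^4 I: none = B1, some none = C1 (moving), some some none = B2,
some some some none = C2, base vertices some^4 i. Fixed edges: base edges j ≠ i0, A B1 (some^4 i0), C2 B2,
B2 C. X_t = (t b1 (1-κ), (1-t) c1 c2 + t κ c2) has both... m > 0, is in the hull near A and in the triangle.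

* slit: at A: as in w4 (generic). At B1: A B1, B1 X: dt has the sign of m(X) > 0. At X: dt (X - B1)
  (C2 - X) ≠ 0 for t < 1, straight for t = 1. At C2: dt (C2 - X) (B2 - C2) ≠ 0 (X is strictly on the
  side of A of the line C2 B2). At B2, C, Z and the other vertices as in w4.
* dis: [B1, X] and [X, C2] are in the triangle and contain neither A nor C (m > 0 except at B1, m < 1);
  [A, B1] has m = 0; [B1, X] is in the hull near A; on [X, C2]: l + m < 1, on [B2, C]: l + m = 1.
* fix0, fix1: GP of the base with B (lines AB, BC), l1, l2 first part, l4, and coordinates for A and C.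
* fix2: base edges: Gen.trp of v; the edge C2 B2 crosses at most CW (fC), and no base edge crosses CW in
  the hull near C; A B1 and B2 C cross nothing (fA, fC, fAC).
* pth0, pth1: X_t is in the hull near A, which contains no base vertex but A (fA) and no crossing point of
  fixed edges (fA, fAC).
* g0 = s4, g1 = s6.
-/

set_option autoImplicit false

namespace Pool.Agent.Lib.MP_ca0971_gt.OT

open Finset Filter Topology

variable {I : Type} [Fintype I] [DecidableEq I] {σ : Equiv.Perm I}

theorem s5_mv (v : I → E) (C2 B2 B1 C1 x0 x1 : E) (t : ℝ) :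
    mv (insV (insV (insV (insV v C2) B2) C1) B1) (some none) x0 x1 t =
      s5U v C2 B2 (AffineMap.lineMap x0 x1 t) B1 := by
  funext i
  rcases i with _ | _ | _ | _ | i
  · simp [mv, insV]
  · simp [mv, insV]
  · simp [mv, insV]
  · simp [mv, insV]
  · simp [mv, insV]

theorem s5_slit {v : I → E} {i0 : I} {B C2 B2 B1 C1 D : E} {c2 b2 b1 c1 κ : ℝ}
    (h : TriC σ v i0 B C2 B2 B1 C1 D)
    (k : S5K (v i0) B (v (σ i0)) C2 B2 B1 C1 D c2 b2 b1 c1 κ) {t : ℝ}
    (ht : t ∈ Set.Icc (0 : ℝ) 1) (i : Option (Option (Option (Option I)))) :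
    dd (sA4 σ i0) (s5U v C2 B2 (AffineMap.lineMap C1 D t) B1) (sA4 σ i0 i) /
      dd (sA4 σ i0) (s5U v C2 B2 (AffineMap.lineMap C1 D t) B1) i ∈ Complex.slitPlane := by
  have hX := k.X ht
  have eX : (AffineMap.lineMap C1 D t : E) = s5pl (v i0) B (v (σ i0)) (t * (b1 * (1 - κ)))
      ((1 - t) * (c1 * c2) + t * (κ * c2)) := by
    rw [k.eC1, k.eD, s5_line]
    congr 1
    ring
  set X : E := AffineMap.lineMap C1 D t with hXd
  have hG := (h.s4 0).1.slit i
  have hc := k.c2p; have hb := k.b2p; have hb1 := k.b1p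
  have g1 : 0 < 1 - b2 := by linarith [k.b2l]
  have g2 : 0 < 1 - c2 := by linarith [k.c2l]
  have eA := (s5_00 (v i0) B (v (σ i0))).symm
  rcases i with _ | _ | _ | _ | a
  · -- at X
    rw [s5_p1, dd, dd, s5_p1, s5_p2]
    change (C2.1 - X.1) / (X.1 - B1.1) ∈ Complex.slitPlane
    rcases eq_or_lt_of_le ht.2 with h1 | h1
    · -- straight
      obtain ⟨q, q0, q1, eD⟩ := h.e5
      have e1 : X = AffineMap.lineMap B1 C2 q := by rw [hXd, h1, AffineMap.lineMap_apply_one, eD]
      have e2 : X.1 - B1.1 = (q : ℂ) * (C2.1 - B1.1) := by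
        rw [e1, AffineMap.lineMap_apply_module]
        simp only [Prod.fst_add, Prod.smul_fst, Complex.real_smul, Complex.ofReal_sub,
          Complex.ofReal_one]
        ring
      have e3 : C2.1 - X.1 = ((1 - q : ℝ) : ℂ) * (C2.1 - B1.1) := by
        rw [e1, AffineMap.lineMap_apply_module]
        simp only [Prod.fst_add, Prod.smul_fst, Complex.real_smul, Complex.ofReal_sub,
          Complex.ofReal_one]
        ring
      have hne : C2.1 - B1.1 ≠ 0 := fun e => by
        have := (s5_eq k.nd k.eC2 k.eB1 (sub_eq_zero.1 e)).2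
        linarith
      have hq : (q : ℂ) * (C2.1 - B1.1) ≠ 0 := mul_ne_zero (by exact_mod_cast q0.ne') hne
      have e4 : C2.1 - X.1 = (((1 - q) / q : ℝ) : ℂ) * (X.1 - B1.1) := by
        rw [e3, e2]
        have : (q : ℂ) ≠ 0 := by exact_mod_cast q0.ne'
        push_cast
        field_simp
      rw [e4]
      exact s5_slit_pos (by rw [e2]; exact hq) (div_pos (by linarith) q0)
    · refine slit_of_dt (s5_dtne k.nd eX k.eB1 k.eC2 eX ?_)
      have e1 : (t * (b1 * (1 - κ)) - b1) * (c2 - ((1 - t) * (c1 * c2) + t * (κ * c2))) -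
          ((1 - t) * (c1 * c2) + t * (κ * c2) - 0) * (0 - t * (b1 * (1 - κ))) =
          -(b1 * c2 * (1 - t) * (1 - c1)) := by ring
      rw [e1, neg_ne_zero]
      have g4 : 0 < 1 - t := by linarith
      have g5 : 0 < 1 - c1 := by linarith [k.c1l]
      positivity
  · -- at C2
    rw [s5_p2, dd, dd, s5_p2, s5_p3]
    change (B2.1 - C2.1) / (C2.1 - X.1) ∈ Complex.slitPlane
    refine slit_of_dt (s5_dtne k.nd k.eC2 eX k.eB2 k.eC2 ?_)
    have := hX.ph
    intro e
    linarith
  · rw [s5_p4, dd, dd, s5_p4, s5_p6 (h.base.s1 i0)] at hG ⊢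
    exact hG
  · rw [s5_p3, dd, dd, s5_p3, s5_p4] at hG ⊢
    exact hG
  · by_cases ha : a = i0
    · subst ha
      rw [s5_p5, dd, dd, s5_p5, s5_p1]
      change (X.1 - B1.1) / (B1.1 - (v a).1) ∈ Complex.slitPlane
      refine slit_of_dt (s5_dtne k.nd k.eB1 eA eX k.eB1 ?_)
      have h2 := mul_pos hb1 hX.m0
      intro e
      linarith
    · by_cases ha' : σ a = i0
      · rw [s5_p6 ha, dd, dd, s5_p6 ha, ha', s5_p5] at hG ⊢
        exact hG
      · rw [s5_p6 ha, dd, dd, s5_p6 ha, s5_p6 ha'] at hG ⊢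
        exact hG

theorem TriC.move1 {v : I → E} {i0 : I} {B C2 B2 B1 C1 D : E} (h : TriC σ v i0 B C2 B2 B1 C1 D) :
    MoveD (sA4 σ i0) (insV (insV (insV (insV v C2) B2) C1) B1) (some none) C1 D := by
  obtain ⟨c2, b2, b1, c1, κ, k⟩ := s5_coord h
  have eX : ∀ t : ℝ, (AffineMap.lineMap C1 D t : E) = s5pl (v i0) B (v (σ i0))
      (t * (b1 * (1 - κ))) ((1 - t) * (c1 * c2) + t * (κ * c2)) := by
    intro t
    rw [k.eC1, k.eD, s5_line]
    congr 1
    ring
  have hull : ∀ t ∈ Set.Icc (0 : ℝ) 1, (AffineMap.lineMap C1 D t : E).1 ∈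
      convexHull ℝ {(v i0).1, B1.1, C1.1, D.1} := by
    intro t ht
    have h1 : (AffineMap.lineMap C1 D t : E) ∈ segment ℝ C1 D := by
      rw [segment_eq_image_lineMap]
      exact ⟨t, ht, rfl⟩
    exact segment_subset_convexHull (by simp) (by simp) (s5_fst h1)
  refine ⟨?_, ?_, ?_, ?_, ?_, ?_, ?_, ?_, ?_⟩
  · intro t ht i
    rw [s5_mv]
    exact s5_slit h k ht i
  · intro t ht i j hij
    rw [s5_mv]
    exact s5_dis h.base k (k.X ht) (eX t) i j hij
  · exact fun i j hi hj hij => s5_fix0 h k i j hi hj hij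
  · exact fun i j hi hj hj' hij hij' => s5_fix1 h k i j hi hj hj' hij hij'
  · exact fun i j l hi hi' hj hj' hl hl' hc hc' hp =>
      s5_fix2 h i j l hi hi' hj hj' hl hl' hc hc' hp
  · intro t ht i hi e
    have hX := k.X ht
    have g1 : 0 < 1 - b2 := by linarith [k.b2l]
    rcases i with _ | _ | _ | _ | a
    · have := (s5_eq k.nd (eX t) k.eB1 e).2
      linarith [hX.m0]
    · exact hi rfl
    · obtain ⟨e1, e2⟩ := s5_eq k.nd (eX t) k.eB2 e
      linarith [hX.s1]
    · obtain ⟨e1, e2⟩ := s5_eq k.nd (eX t) k.eC2 e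
      have := hX.ph
      rw [e1, e2] at this
      linarith
    · by_cases ha : a = i0
      · subst ha
        have := (s5_eq k.nd (eX t) (s5_00 (v a) B (v (σ a))).symm e).2
        linarith [hX.m0]
      · by_cases ha' : σ a = i0
        · have h1 : σ.symm i0 = a := by rw [← ha', Equiv.symm_apply_apply]
          apply h.fZ
          rw [h1]
          change (AffineMap.lineMap C1 D t : E).1 = (v a).1 at e
          rw [← e]
          exact hull t ht
        · refine Set.disjoint_left.1 (h.fA a ha ha') (left_mem_segment ℝ _ _) ?_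
          change (AffineMap.lineMap C1 D t : E).1 = (v a).1 at e
          rw [← e]
          exact hull t ht
  · intro t ht i j hi hi' hj hj' hc e
    obtain ⟨sA, sC, sC', sB⟩ := s5_sg (σ := σ) (v := v) (i0 := i0) (C2 := C2) (B2 := B2)
      (B1 := B1) (C1 := C1) (D := D)
    obtain ⟨m1, m2⟩ := s5_mp_mem hc
    have hh := hull t ht
    rw [e] at hh
    rcases s5_cls h i j hi hi' hj hj' hc with ⟨a, b, ha, hb, e1, e2⟩ | ⟨e1, e2⟩ | ⟨e1, e2⟩
    · subst e1 e2
      by_cases ha' : σ a = i0
      · have hb' : σ b ≠ i0 := fun e3 => hc.1 (Or.inl (by rw [σ.injective (ha'.trans e3.symm)]))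
        have m2' := m2
        rw [show insV (insV (insV (insV v C2) B2) C1) B1 = s5U v C2 B2 C1 B1 from rfl,
          sB b hb] at m2'
        exact Set.disjoint_left.1 (h.fA b hb hb') m2' hh
      · have m1' := m1
        rw [show insV (insV (insV (insV v C2) B2) C1) B1 = s5U v C2 B2 C1 B1 from rfl,
          sB a ha] at m1'
        exact Set.disjoint_left.1 (h.fA a ha ha') m1' hh
    · subst e1
      exact Set.disjoint_left.1 h.fAC hh (sC' m1)
    · subst e2
      exact Set.disjoint_left.1 h.fAC hh (sC' m2)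
  · rw [s5_mv, AffineMap.lineMap_apply_zero]
    exact (h.s4 0).1
  · rw [s5_mv, AffineMap.lineMap_apply_one]
    exact (h.s6 0).1

theorem TriC.s5 {v : I → E} {i0 : I} {B C2 B2 B1 C1 D : E} (h : TriC σ v i0 B C2 B2 B1 C1 D) (N : ℕ) :
    Zh (sA4 σ i0) (insV (insV (insV (insV v C2) B2) D) B1) N =
      Zh (sA4 σ i0) (insV (insV (insV (insV v C2) B2) C1) B1) N := by
  have h1 := h.move1.Zh_eq N
  have h2 : ∀ X : E, Function.update (insV (insV (insV (insV v C2) B2) C1) B1) (some none) X =
      insV (insV (insV (insV v C2) B2) X) B1 := by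
    intro X
    funext i
    rcases i with _ | _ | _ | _ | i
    · simp [insV]
    · simp [insV]
    · simp [insV]
    · simp [insV]
    · simp [insV]
  rw [h2, h2] at h1
  exact h1.symm

end Pool.Agent.Lib.MP_ca0971_gt.OT
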