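import Pool.Agent.Lib.MP_ca0971_gt.OT.Tri.S12

/-!
# Project OT, Tri: the straight vertices B2 and B1 on the polygon A B C
-/

set_option autoImplicit false

namespace Pool.Agent.Lib.MP_ca0971_gt.OT

open Finset Filter Topology

variable {I : Type} [Fintype I] [DecidableEq I] {σ : Equiv.Perm I}

section perms

variable (σ : Equiv.Perm I) (i0 : I)

omit [Fintype I]

private theorem s8_e : sA2 σ i0 (some (some i0)) = some none := by
  rw [sA2, insS_ne (by simp), sA1, insS_some]

private theorem s8_none : sA2 σ i0 none = some (some (σ i0)) := by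
  rw [sA2, insS_none, sA1, insS_none]

private theorem s8_ne {k : I} (h : k ≠ i0) :
    sA2 σ i0 (some (some k)) = some (some (σ k)) := by
  rw [sA2, insS_ne (by simp), sA1, insS_ne h]

end perms

omit [Fintype I] in
/-- The straight vertex B2 is on no other edge of the polygon A B C. -/
private theorem s8_cut2 {v : I → E} {i0 : I} {B C2 B2 B1 C1 D : E}
    (h : TriC σ v i0 B C2 B2 B1 C1 D) {t : ℝ} (he : B2 = AffineMap.lineMap B (v (σ i0)) t)
    (j : Option I) (hj : Crs (sA1 σ i0) (insV v B) none j) :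
    par (sA1 σ i0) (insV v B) none j ≠ t := by
  intro hp
  have h1 := hj.cr_mem.2
  have h2 : mp (sA1 σ i0) (insV v B) none j = B2.1 := by
    rw [mp, hp, dd, insS_none, he, AffineMap.lineMap_apply]
    change B.1 + (t : ℂ) * ((v (σ i0)).1 - B.1) = t • ((v (σ i0)).1 - B.1) + B.1
    rw [Complex.real_smul]
    ring
  rw [h2] at h1
  have hA := hj.1
  rcases j with _ | k
  · exact hA (Or.inl rfl)
  · by_cases hk : k = i0
    · rw [hk] at hA
      exact hA (Or.inr (Or.inr (insS_some i0).symm))
    · have e : sg (sA1 σ i0) (insV v B) (some k) = sg σ v k := by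
        rw [sg, insS_ne hk]
        rfl
      rw [e] at h1
      exact (h.l1 k hk).2.1 (mvl_dt_of_mem h1)

omit [Fintype I] in
/-- The straight vertex B1 is on no other edge of the polygon A B B2 C. -/
private theorem s8_cut1 {v : I → E} {i0 : I} {B C2 B2 B1 C1 D : E}
    (h : TriC σ v i0 B C2 B2 B1 C1 D) {t : ℝ} (he : B1 = AffineMap.lineMap (v i0) B t)
    (j : Option (Option I)) (hj : Crs (sA2 σ i0) (insV (insV v B) B2) (some (some i0)) j) :
    par (sA2 σ i0) (insV (insV v B) B2) (some (some i0)) j ≠ t := by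
  intro hp
  have h1 := hj.cr_mem.2
  have h2 : mp (sA2 σ i0) (insV (insV v B) B2) (some (some i0)) j = B1.1 := by
    rw [mp, hp, dd, s8_e, he, AffineMap.lineMap_apply]
    change (v i0).1 + (t : ℂ) * (B.1 - (v i0).1) = t • (B.1 - (v i0).1) + (v i0).1
    rw [Complex.real_smul]
    ring
  rw [h2] at h1
  have hA := hj.1
  rcases j with _ | _ | k
  · have e : sg (sA2 σ i0) (insV (insV v B) B2) none = segment ℝ B2.1 (v (σ i0)).1 := by
      rw [sg, s8_none]
      rfl
    rw [e] at h1
    exact Set.disjoint_left.1 h.fAC (subset_convexHull ℝ _ (by simp))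
      (segment_subset_convexHull (by simp) (by simp) h1)
  · exact hA (Or.inr (Or.inl (s8_e σ i0).symm))
  · by_cases hk : k = i0
    · rw [hk] at hA
      exact hA (Or.inl rfl)
    · have e : sg (sA2 σ i0) (insV (insV v B) B2) (some (some k)) = sg σ v k := by
        rw [sg, s8_ne σ i0 hk]
        rfl
      rw [e] at h1
      exact (h.l1 k hk).2.2.1 (mvl_dt_of_mem h1)

/-- gen_ins and Zh_ins twice: B2 on the edge none (from B to C) of wB, B1 on the edge some (some i0) (from
A to B) of the result; hcut from l1, B1 ≠ on the edges at C. -/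
theorem TriC.s8 {v : I → E} {i0 : I} {B C2 B2 B1 C1 D : E} (h : TriC σ v i0 B C2 B2 B1 C1 D) (N : ℕ) :
    Gen (sA3 σ i0) (insV (insV (insV v B) B2) B1) ∧
      Zh (sA3 σ i0) (insV (insV (insV v B) B2) B1) N = Zh (sA1 σ i0) (insV v B) N := by
  obtain ⟨t2, h20, h21, he2⟩ := h.e2
  obtain ⟨t1, h10, h11, he1⟩ := h.e3
  have e2 : (AffineMap.lineMap (insV v B none) (insV v B (sA1 σ i0 none)) t2 : E) = B2 := by
    rw [insS_none, he2]
    rfl
  have e1 : (AffineMap.lineMap (insV (insV v B) B2 (some (some i0)))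
      (insV (insV v B) B2 (sA2 σ i0 (some (some i0)))) t1 : E) = B1 := by
    rw [s8_e, he1]
    rfl
  have hG2 := gen_ins h.base.genB none h20 h21 (s8_cut2 h he2)
  have hZ2 := Zh_ins none h20 h21 hG2 N
  rw [e2] at hG2 hZ2
  have hG1 := gen_ins hG2 (some (some i0)) h10 h11 (s8_cut1 h he1)
  have hZ1 := Zh_ins (some (some i0)) h10 h11 hG1 N
  rw [e1] at hG1 hZ1
  exact ⟨hG1, hZ1.trans hZ2⟩

end Pool.Agent.Lib.MP_ca0971_gt.OT
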