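import Pool.Agent.Lib.MP_ca0971_gt.OT.Tri.G3
import Pool.Agent.Lib.MP_ca0971_gt.OT.Tri.S8

/-!
# Project OT, Tri: the move of C2 to B

Polygon w3' = A B1 C2 B2 C on Option^3 I: none = B1, some none = B2, some some none = C2 (moving). Fixed
edges: base edges j ≠ i0, A B1 (some^3 i0), B2 C (some none). X_t = (t, (1-t) c2).

* slit: at B1: dt (B1 - A) (X - B1) = (1-t) c2 > 0 for t < 1, straight for t = 1. At X: if
  B2 - X = - r (X - B1), r ≥ 0, then the second coordinate gives b2 ≤ (1-t) c2 (1-r), the first one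
  t (1-r) = 1 - b2 - r b1, so b2 ≤ c2 (b2 - r (1 - b1)) < b2, contradiction. At B2: dt (B2 - X) (C - B2)
  has the sign of (1-t)(1-c2) > 0 for t < 1, straight for t = 1.
* dis: [B1, X], [X, B2] are in the triangle and contain neither A nor C; [B1, X] against [B2, C]:
  l + m = t + (1-t) c2 < 1 for t < 1; [X, B2] against [A, B1]: m > 0 for t < 1; t = 1 directly.
* fix0, fix1: GP of the base with B, l1, coordinates. fix2: Gen.trp of v (A B1 and B2 C cross nothing).
* pth0: l2 third part, coordinates. pth1: l3 second part.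
* g0 = gen3, g1 = s8.
-/

set_option autoImplicit false

namespace Pool.Agent.Lib.MP_ca0971_gt.OT

open Finset Filter Topology

variable {I : Type} [Fintype I] [DecidableEq I] {σ : Equiv.Perm I}

/-! ### The permutations -/

omit [Fintype I] in
theorem s7_insS_none (i0 : I) : insS σ i0 none = some (σ i0) := by
  unfold insS
  rw [Equiv.Perm.mul_apply, Equiv.optionCongr_apply, Option.map_none, Equiv.swap_apply_left]

omit [Fintype I] in
theorem s7_insS_self (i0 : I) : insS σ i0 (some i0) = none := by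
  unfold insS
  rw [Equiv.Perm.mul_apply, Equiv.optionCongr_apply, Option.map_some, Equiv.swap_apply_right]

omit [Fintype I] in
theorem s7_insS_ne {i0 i : I} (h : i ≠ i0) : insS σ i0 (some i) = some (σ i) := by
  unfold insS
  rw [Equiv.Perm.mul_apply, Equiv.optionCongr_apply, Option.map_some,
    Equiv.swap_apply_of_ne_of_ne (by simp) (by simpa using h)]

omit [Fintype I] in
theorem s7_A3_none (i0 : I) : sA3 σ i0 none = some (some none) := by
  have h1 : sA2 σ i0 (some (some i0)) = some none := by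
    rw [s7_insS_ne (by simp), s7_insS_self]
  rw [s7_insS_none, h1]

omit [Fintype I] in
theorem s7_A3_B (i0 : I) : sA3 σ i0 (some none) = some (some (some (σ i0))) := by
  rw [s7_insS_ne (by simp), s7_insS_none, s7_insS_none]

omit [Fintype I] in
theorem s7_A3_X (i0 : I) : sA3 σ i0 (some (some none)) = some none := by
  rw [s7_insS_ne (by simp), s7_insS_self]

omit [Fintype I] in
theorem s7_A3_A (i0 : I) : sA3 σ i0 (some (some (some i0))) = none := s7_insS_self _

omit [Fintype I] in
theorem s7_A3_ne {i0 i : I} (h : i ≠ i0) :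
    sA3 σ i0 (some (some (some i))) = some (some (some (σ i))) := by
  rw [s7_insS_ne (by simpa using h), s7_insS_ne (by simp), s7_insS_ne h]

/-! ### Coordinates in the plane of the triangle -/

/-- The point with the coordinates `l`, `m`. -/
noncomputable def s7P (A B C : E) (l m : ℝ) : E := A + l • (B - A) + m • (C - A)

theorem s7P_fst (A B C : E) (l m : ℝ) : (s7P A B C l m).1 =
    A.1 + (l : ℂ) * (B.1 - A.1) + (m : ℂ) * (C.1 - A.1) := by
  unfold s7P
  simp only [Prod.fst_add, Prod.smul_fst, Prod.fst_sub, Complex.real_smul]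

theorem s7_lin {β γ : ℂ} (h : dt β γ ≠ 0) {x y : ℝ} (e : (x : ℂ) * β + (y : ℂ) * γ = 0) :
    x = 0 ∧ y = 0 := by
  have k1 := congrArg Complex.re e
  have k2 := congrArg Complex.im e
  simp only [Complex.add_re, Complex.add_im, Complex.re_ofReal_mul, Complex.im_ofReal_mul,
    Complex.zero_re, Complex.zero_im] at k1 k2
  unfold dt at h
  constructor
  · have : x * (β.re * γ.im - β.im * γ.re) = 0 := by linear_combination γ.im * k1 - γ.re * k2
    exact (mul_eq_zero.1 this).resolve_right h
  · have : y * (β.re * γ.im - β.im * γ.re) = 0 := by linear_combination β.re * k2 - β.im * k1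
    exact (mul_eq_zero.1 this).resolve_right h

theorem s7P_inj {A B C : E} (hnd : dt (B.1 - A.1) (C.1 - A.1) ≠ 0) {l m l' m' : ℝ}
    (h : (s7P A B C l m).1 = (s7P A B C l' m').1) : l = l' ∧ m = m' := by
  rw [s7P_fst, s7P_fst] at h
  have := s7_lin hnd (x := l - l') (y := m - m') (by push_cast; linear_combination h)
  exact ⟨by linarith [this.1], by linarith [this.2]⟩

theorem s7P_dt (A B C : E) (a b c d e f g k : ℝ) :
    dt ((s7P A B C a b).1 - (s7P A B C c d).1) ((s7P A B C e f).1 - (s7P A B C g k).1) =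
      ((a - c) * (f - k) - (b - d) * (e - g)) * dt (B.1 - A.1) (C.1 - A.1) := by
  rw [s7P_fst, s7P_fst, s7P_fst, s7P_fst]
  unfold dt
  simp only [Complex.sub_re, Complex.sub_im, Complex.add_re, Complex.add_im,
    Complex.re_ofReal_mul, Complex.im_ofReal_mul]
  ring

/-- A relation between differences of points of the plane. -/
theorem s7P_rel {A B C : E} (hnd : dt (B.1 - A.1) (C.1 - A.1) ≠ 0) {a b c d e f g k r : ℝ}
    (h : (s7P A B C a b).1 - (s7P A B C c d).1 =
      -(r : ℂ) * ((s7P A B C e f).1 - (s7P A B C g k).1)) :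
    a - c = -r * (e - g) ∧ b - d = -r * (f - k) := by
  rw [s7P_fst, s7P_fst, s7P_fst, s7P_fst] at h
  have := s7_lin hnd (x := a - c + r * (e - g)) (y := b - d + r * (f - k))
    (by push_cast; linear_combination h)
  exact ⟨by linarith [this.1], by linarith [this.2]⟩

theorem s7P_hull {A B C : E} {l m : ℝ} (hl : 0 ≤ l) (hm : 0 ≤ m) (h : l + m ≤ 1) :
    s7P A B C l m ∈ convexHull ℝ {A, B, C} := by
  have hc : Convex ℝ (convexHull ℝ {A, B, C}) := convex_convexHull ℝ _
  have hs : ∀ x ∈ ({A, B, C} : Set E), x ∈ convexHull ℝ {A, B, C} := fun x hx =>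
    subset_convexHull ℝ _ hx
  have h1 := hc.sum_mem (t := Finset.univ) (w := ![1 - l - m, l, m]) (z := ![A, B, C])
    (fun i _ => by fin_cases i <;> simp <;> linarith)
    (by rw [Fin.sum_univ_three]; simp; ring)
    (fun i _ => by fin_cases i <;> exact hs _ (by simp))
  rw [Fin.sum_univ_three] at h1
  have e : s7P A B C l m = (1 - l - m) • A + l • B + m • C := by
    unfold s7P
    module
  rw [e]
  simpa using h1

theorem s7P_seg {A B C : E} {l m l' m' : ℝ} {x : E}
    (h : x ∈ segment ℝ (s7P A B C l m) (s7P A B C l' m')) :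
    ∃ u : ℝ, 0 ≤ u ∧ u ≤ 1 ∧ x = s7P A B C ((1 - u) * l + u * l') ((1 - u) * m + u * m') := by
  rw [segment_eq_image_lineMap] at h
  obtain ⟨u, hu, rfl⟩ := h
  refine ⟨u, hu.1, hu.2, ?_⟩
  rw [AffineMap.lineMap_apply_module]
  unfold s7P
  module

theorem s7_slit {d e : ℂ} (hd : d ≠ 0) (h : ∀ r : ℝ, 0 ≤ r → e ≠ -(r : ℂ) * d) :
    e / d ∈ Complex.slitPlane := by
  by_contra hn
  rw [Complex.mem_slitPlane_iff] at hn
  push Not at hn
  refine h (-(e / d).re) (by linarith [hn.1]) ?_
  have e1 : e / d = ((e / d).re : ℂ) := by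
    apply Complex.ext
    · simp
    · simpa using hn.2
  have e2 : e = (e / d) * d := by
    field_simp
  calc e = (e / d) * d := e2
    _ = ((e / d).re : ℂ) * d := by rw [← e1]
    _ = -((-(e / d).re : ℝ) : ℂ) * d := by push_cast; ring

/-! ### General facts about generic polygons -/

omit [Fintype I] in
theorem s7_ne {v : I → E} (hG : Gen σ v) {i j : I} (h : i ≠ j) : (v i).1 ≠ (v j).1 := by
  intro he
  have h2 := (slit_ne hG.slit).2.2
  by_cases hj : σ j = i
  · have hi : σ i ≠ j := by
      rintro hi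
      exact h2 j (by rw [hj, hi])
    refine hG.ver j i h hi ?_
    rw [← he]
    exact left_mem_segment ℝ _ _
  · refine hG.ver i j h.symm hj ?_
    rw [he]
    exact left_mem_segment ℝ _ _

omit [Fintype I] [DecidableEq I] in
/-- The crossing point is on both edges. -/
theorem s7_crs {v : I → E} {i j : I} (h : Crs σ v i j) :
    mp σ v i j ∈ sg σ v i ∧ mp σ v i j ∈ sg σ v j := by
  have key : ∀ i j, Crs σ v i j → mp σ v i j ∈ sg σ v i := by
    intro i j h
    unfold sg
    rw [segment_eq_image_lineMap]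
    refine ⟨par σ v i j, ⟨h.2.2.1.le, h.2.2.2.1.le⟩, ?_⟩
    rw [AffineMap.lineMap_apply_module']
    unfold mp dd
    rw [Complex.real_smul]
    ring
  refine ⟨key i j h, ?_⟩
  rw [mp_symm v h.2.1]
  exact key j i h.symm'

/-! ### The polygon of the move -/

omit [Fintype I] in
theorem s7_mv (v : I → E) (C2 B2 B1 B : E) (t : ℝ) :
    mv (insV (insV (insV v C2) B2) B1) (some (some none)) C2 B t =
      insV (insV (insV v (AffineMap.lineMap C2 B t)) B2) B1 := by
  funext i
  unfold mv
  rcases i with _ | _ | _ | i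
  · rw [Function.update_of_ne (by simp)]
    rfl
  · rw [Function.update_of_ne (by simp)]
    rfl
  · rw [Function.update_self]
    rfl
  · rw [Function.update_of_ne (by simp)]
    rfl

/-- The data in coordinates. -/
structure S7D (σ : Equiv.Perm I) (v : I → E) (i0 : I) (B C2 B2 B1 : E) (c2 b2 b1 : ℝ) : Prop where
  nd : dt (B.1 - (v i0).1) ((v (σ i0)).1 - (v i0).1) ≠ 0
  c0 : 0 < c2
  c1 : c2 < 1
  b0 : 0 < b2
  b1' : b2 < 1
  a0 : 0 < b1
  a1 : b1 < 1
  eC2 : C2 = s7P (v i0) B (v (σ i0)) 0 c2
  eB2 : B2 = s7P (v i0) B (v (σ i0)) (1 - b2) b2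
  eB1 : B1 = s7P (v i0) B (v (σ i0)) b1 0
  eA : v i0 = s7P (v i0) B (v (σ i0)) 0 0
  eC : v (σ i0) = s7P (v i0) B (v (σ i0)) 0 1
  eX : ∀ t : ℝ, AffineMap.lineMap C2 B t = s7P (v i0) B (v (σ i0)) t ((1 - t) * c2)

omit [Fintype I] in
theorem TriC.s7D {v : I → E} {i0 : I} {B C2 B2 B1 C1 D : E} (h : TriC σ v i0 B C2 B2 B1 C1 D) :
    ∃ c2 b2 b1 : ℝ, S7D σ v i0 B C2 B2 B1 c2 b2 b1 := by
  obtain ⟨c2, c0, c1, eC2⟩ := h.e1
  obtain ⟨b2, b0, b1', eB2⟩ := h.e2
  obtain ⟨b1, a0, a1, eB1⟩ := h.e3
  have hC2 : C2 = s7P (v i0) B (v (σ i0)) 0 c2 := by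
    rw [eC2, AffineMap.lineMap_apply_module]
    unfold s7P
    module
  refine ⟨c2, b2, b1, ⟨?_, c0, c1, b0, b1', a0, a1, hC2, ?_, ?_, ?_, ?_, fun t => ?_⟩⟩
  · exact h.base.gp.1 (some i0) none (some (σ i0)) (by simp)
      (by simpa using (h.base.s1 i0).symm) (by simp)
  · rw [eB2, AffineMap.lineMap_apply_module]
    unfold s7P
    module
  · rw [eB1, AffineMap.lineMap_apply_module]
    unfold s7P
    module
  · unfold s7P
    module
  · unfold s7P
    module
  · rw [hC2, AffineMap.lineMap_apply_module]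
    unfold s7P
    module

/-! ### The corners -/

section corners

variable {v : I → E} {i0 : I} {B C2 B2 B1 : E} {c2 b2 b1 t : ℝ}

omit [Fintype I] [DecidableEq I] in
theorem S7D.X_B1 (h : S7D σ v i0 B C2 B2 B1 c2 b2 b1) (ht : t ∈ Set.Icc (0 : ℝ) 1) :
    (AffineMap.lineMap C2 B t : E).1 ≠ B1.1 := by
  rw [h.eX, h.eB1]
  intro he
  obtain ⟨k1, k2⟩ := s7P_inj h.nd he
  rcases mul_eq_zero.1 k2 with k | k
  · linarith [h.a1]
  · linarith [h.c0]

omit [Fintype I] [DecidableEq I] in
theorem S7D.X_B2 (h : S7D σ v i0 B C2 B2 B1 c2 b2 b1) (ht : t ∈ Set.Icc (0 : ℝ) 1) :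
    (AffineMap.lineMap C2 B t : E).1 ≠ B2.1 := by
  rw [h.eX, h.eB2]
  intro he
  obtain ⟨k1, k2⟩ := s7P_inj h.nd he
  have h1 := h.b0
  have h2 := h.c1
  have k3 : (1 - t) * (1 - c2) = 0 := by linarith
  rcases mul_eq_zero.1 k3 with k | k
  · linarith
  · linarith

omit [Fintype I] [DecidableEq I] in
theorem S7D.corA (h : S7D σ v i0 B C2 B2 B1 c2 b2 b1) (ht : t ∈ Set.Icc (0 : ℝ) 1) :
    ((AffineMap.lineMap C2 B t : E).1 - B1.1) / (B1.1 - (v i0).1) ∈ Complex.slitPlane := by
  have h1 := h.a0
  have h2 := h.a1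
  have h3 := h.c0
  have e1 := h.eX t
  refine s7_slit ?_ fun r hr he => ?_
  · intro h0
    have h4 : (s7P (v i0) B (v (σ i0)) b1 0).1 = (s7P (v i0) B (v (σ i0)) 0 0).1 := by
      rw [← h.eB1, ← h.eA]
      exact sub_eq_zero.1 h0
    linarith [(s7P_inj h.nd h4).1]
  · have h4 : (s7P (v i0) B (v (σ i0)) t ((1 - t) * c2)).1 - (s7P (v i0) B (v (σ i0)) b1 0).1 =
        -(r : ℂ) * ((s7P (v i0) B (v (σ i0)) b1 0).1 - (s7P (v i0) B (v (σ i0)) 0 0).1) := by
      rw [← e1, ← h.eB1, ← h.eA]
      exact he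
    obtain ⟨k1, k2⟩ := s7P_rel h.nd h4
    have k3 : (1 - t) * c2 = 0 := by linarith
    have k4 : t = 1 := by
      rcases mul_eq_zero.1 k3 with k | k
      · linarith
      · linarith
    have := mul_nonneg hr h1.le
    nlinarith

omit [Fintype I] [DecidableEq I] in
theorem S7D.corX (h : S7D σ v i0 B C2 B2 B1 c2 b2 b1) (ht : t ∈ Set.Icc (0 : ℝ) 1) :
    (B2.1 - (AffineMap.lineMap C2 B t : E).1) / ((AffineMap.lineMap C2 B t : E).1 - B1.1) ∈
      Complex.slitPlane := by
  have h1 := h.b0
  have h2 := h.a1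
  have h3 := h.c0
  have h4 := h.c1
  have h5 := h.b1'
  have e1 := h.eX t
  refine s7_slit (sub_ne_zero.2 (h.X_B1 ht)) fun r hr he => ?_
  have h6 : (s7P (v i0) B (v (σ i0)) (1 - b2) b2).1 -
      (s7P (v i0) B (v (σ i0)) t ((1 - t) * c2)).1 =
        -(r : ℂ) * ((s7P (v i0) B (v (σ i0)) t ((1 - t) * c2)).1 -
          (s7P (v i0) B (v (σ i0)) b1 0).1) := by
    rw [← e1, ← h.eB1, ← h.eB2]
    exact he
  obtain ⟨k1, k2⟩ := s7P_rel h.nd h6
  have k3 : b2 = c2 * (b2 - r * (1 - b1)) := by linear_combination k2 + c2 * k1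
  have k4 := mul_nonneg hr (by linarith : 0 ≤ 1 - b1)
  nlinarith

omit [Fintype I] [DecidableEq I] in
theorem S7D.corB (h : S7D σ v i0 B C2 B2 B1 c2 b2 b1) (ht : t ∈ Set.Icc (0 : ℝ) 1) :
    ((v (σ i0)).1 - B2.1) / (B2.1 - (AffineMap.lineMap C2 B t : E).1) ∈ Complex.slitPlane := by
  have h1 := h.b0
  have h3 := h.c0
  have h4 := h.c1
  have h5 := h.b1'
  have e1 := h.eX t
  refine s7_slit (sub_ne_zero.2 (h.X_B2 ht).symm) fun r hr he => ?_
  have h6 : (s7P (v i0) B (v (σ i0)) 0 1).1 - (s7P (v i0) B (v (σ i0)) (1 - b2) b2).1 =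
        -(r : ℂ) * ((s7P (v i0) B (v (σ i0)) (1 - b2) b2).1 -
          (s7P (v i0) B (v (σ i0)) t ((1 - t) * c2)).1) := by
    rw [← e1, ← h.eC, ← h.eB2]
    exact he
  obtain ⟨k1, k2⟩ := s7P_rel h.nd h6
  have k3 : r * ((1 - t) * (1 - c2)) = 0 := by linear_combination k1 + k2
  rcases mul_eq_zero.1 k3 with k | k
  · rw [k] at k2
    linarith
  · rcases mul_eq_zero.1 k with k | k
    · have k5 : t = 1 := by linarith
      rw [k5] at k1
      have := mul_nonneg hr h1.le
      linarith
    · linarith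

/-! ### Disjointness in the triangle -/

omit [Fintype I] [DecidableEq I] in
/-- A segment of the triangle without A and C does not meet the other base edges. -/
theorem S7D.free (h : S7D σ v i0 B C2 B2 B1 c2 b2 b1) (hT : Tri0 σ v i0 B) {j : I} (hj : j ≠ i0)
    {l m l' m' : ℝ} (hl : 0 ≤ l) (hm : 0 ≤ m) (hlm : l + m ≤ 1) (hl' : 0 ≤ l') (hm' : 0 ≤ m')
    (hlm' : l' + m' ≤ 1) (hp : 0 < l + l') (h1 : 0 < l ∨ 0 < m ∧ m < 1)
    (h2 : 0 < l' ∨ 0 < m' ∧ m' < 1) :
    Disjoint (segment ℝ (s7P (v i0) B (v (σ i0)) l m) (s7P (v i0) B (v (σ i0)) l' m'))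
      (segment ℝ (v j) (v (σ j))) := by
  rw [Set.disjoint_left]
  intro x hx hx2
  obtain ⟨u, u0, u1, rfl⟩ := s7P_seg hx
  have p1 := mul_nonneg (by linarith : 0 ≤ 1 - u) hl
  have p2 := mul_nonneg u0 hl'
  have p3 := mul_nonneg (by linarith : 0 ≤ 1 - u) hm
  have p4 := mul_nonneg u0 hm'
  have p5 := mul_nonneg (by linarith : 0 ≤ 1 - u) (by linarith : 0 ≤ 1 - (l + m))
  have p6 := mul_nonneg u0 (by linarith : 0 ≤ 1 - (l' + m'))
  have hin : s7P (v i0) B (v (σ i0)) ((1 - u) * l + u * l') ((1 - u) * m + u * m') ∈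
      convexHull ℝ {v i0, B, v (σ i0)} :=
    s7P_hull (by linarith) (by linarith) (by linarith)
  have hne : 0 < (1 - u) * l + u * l' ∨
      (0 < (1 - u) * m + u * m' ∧ (1 - u) * m + u * m' < 1) := by
    rcases eq_or_lt_of_le u0 with q | q
    · subst q
      simpa using h1
    · rcases eq_or_lt_of_le u1 with q' | q'
      · subst q'
        simpa using h2
      · left
        rcases eq_or_lt_of_le hl with q2 | q2
        · have := mul_pos q (by linarith : 0 < l')
          linarith
        · have := mul_pos (by linarith : 0 < 1 - u) q2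
          linarith
  have hx3 := hT.tri j hj ⟨hx2, hin⟩
  rcases hx3 with k | k
  · have k2 : (s7P (v i0) B (v (σ i0)) ((1 - u) * l + u * l') ((1 - u) * m + u * m')).1 =
        (s7P (v i0) B (v (σ i0)) 0 0).1 := by
      rw [← h.eA]
      exact congrArg Prod.fst k
    obtain ⟨k3, k4⟩ := s7P_inj h.nd k2
    rcases hne with q | q
    · linarith
    · linarith [q.1]
  · have k2 : (s7P (v i0) B (v (σ i0)) ((1 - u) * l + u * l') ((1 - u) * m + u * m')).1 =
        (s7P (v i0) B (v (σ i0)) 0 1).1 := by
      rw [← h.eC]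
      exact congrArg Prod.fst k
    obtain ⟨k3, k4⟩ := s7P_inj h.nd k2
    rcases hne with q | q
    · linarith
    · linarith [q.2]

omit [Fintype I] in
/-- The edge B1 X and the base edges. -/
theorem S7D.disB1X (h : S7D σ v i0 B C2 B2 B1 c2 b2 b1) (hT : Tri0 σ v i0 B)
    (ht : t ∈ Set.Icc (0 : ℝ) 1) {j : I} (hj : j ≠ i0) :
    Disjoint (segment ℝ B1 (AffineMap.lineMap C2 B t)) (segment ℝ (v j) (v (σ j))) := by
  have h1 := h.a0
  have h2 := h.a1
  have h3 := h.c0
  have h4 := h.c1
  obtain ⟨t0, t1⟩ := ht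
  rw [h.eX, h.eB1]
  have p := mul_nonneg (by linarith : 0 ≤ 1 - t) h3.le
  have q := mul_nonneg (by linarith : 0 ≤ 1 - t) (by linarith : 0 ≤ 1 - c2)
  refine h.free hT hj h1.le le_rfl (by linarith) t0 p (by linarith) (by linarith) (Or.inl h1) ?_
  rcases eq_or_lt_of_le t0 with r | r
  · subst r
    right
    constructor <;> linarith
  · exact Or.inl r

omit [Fintype I] in
/-- The edge X B2 and the base edges. -/
theorem S7D.disXB2 (h : S7D σ v i0 B C2 B2 B1 c2 b2 b1) (hT : Tri0 σ v i0 B)
    (ht : t ∈ Set.Icc (0 : ℝ) 1) {j : I} (hj : j ≠ i0) :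
    Disjoint (segment ℝ (AffineMap.lineMap C2 B t) B2) (segment ℝ (v j) (v (σ j))) := by
  have h1 := h.b0
  have h2 := h.b1'
  have h3 := h.c0
  have h4 := h.c1
  obtain ⟨t0, t1⟩ := ht
  rw [h.eX, h.eB2]
  have p := mul_nonneg (by linarith : 0 ≤ 1 - t) h3.le
  have q := mul_nonneg (by linarith : 0 ≤ 1 - t) (by linarith : 0 ≤ 1 - c2)
  refine h.free hT hj t0 p (by linarith) (by linarith) h1.le (by linarith) (by linarith) ?_
    (Or.inl (by linarith))
  rcases eq_or_lt_of_le t0 with r | r
  · subst r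
    right
    constructor <;> linarith
  · exact Or.inl r

omit [Fintype I] [DecidableEq I] in
/-- The edge B1 X and the edge B2 C. -/
theorem S7D.disB1X_B2C (h : S7D σ v i0 B C2 B2 B1 c2 b2 b1) (ht : t ∈ Set.Icc (0 : ℝ) 1) :
    Disjoint (segment ℝ B1 (AffineMap.lineMap C2 B t)) (segment ℝ B2 (v (σ i0))) := by
  have h1 := h.a0
  have h2 := h.a1
  have h3 := h.c0
  have h4 := h.c1
  have h5 := h.b0
  have h6 := h.b1'
  obtain ⟨t0, t1⟩ := ht
  rw [Set.disjoint_left]
  intro x hx hx2
  have hx' : x ∈ segment ℝ (s7P (v i0) B (v (σ i0)) b1 0)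
      (s7P (v i0) B (v (σ i0)) t ((1 - t) * c2)) := by
    rw [← h.eX, ← h.eB1]
    exact hx
  have hx2' : x ∈ segment ℝ (s7P (v i0) B (v (σ i0)) (1 - b2) b2)
      (s7P (v i0) B (v (σ i0)) 0 1) := by
    rw [← h.eB2, ← h.eC]
    exact hx2
  obtain ⟨u, u0, u1, e1⟩ := s7P_seg hx'
  obtain ⟨w, w0, w1, e2⟩ := s7P_seg hx2'
  obtain ⟨k1, k2⟩ := s7P_inj h.nd (congrArg Prod.fst (e1.symm.trans e2))
  have k3 : (1 - u) * (1 - b1) + u * ((1 - t) * (1 - c2)) = 0 := by linear_combination -k1 - k2
  have p1 := mul_nonneg (by linarith : 0 ≤ 1 - u) (by linarith : 0 ≤ 1 - b1)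
  have p2 := mul_nonneg (by linarith : 0 ≤ 1 - t) (by linarith : 0 ≤ 1 - c2)
  have p3 := mul_nonneg u0 p2
  have k4 : u = 1 := by
    have : (1 - u) * (1 - b1) = 0 := by linarith
    rcases mul_eq_zero.1 this with k | k <;> linarith
  have k5 : t = 1 := by
    have : u * ((1 - t) * (1 - c2)) = 0 := by linarith
    rw [k4, one_mul] at this
    rcases mul_eq_zero.1 this with k | k <;> linarith
  rw [k4, k5] at k2
  have p4 := mul_nonneg (by linarith : 0 ≤ 1 - w) (by linarith : 0 ≤ 1 - b2)
  nlinarith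

omit [Fintype I] [DecidableEq I] in
/-- The edge X B2 and the edge A B1. -/
theorem S7D.disXB2_AB1 (h : S7D σ v i0 B C2 B2 B1 c2 b2 b1) (ht : t ∈ Set.Icc (0 : ℝ) 1) :
    Disjoint (segment ℝ (AffineMap.lineMap C2 B t) B2) (segment ℝ (v i0) B1) := by
  have h1 := h.a0
  have h2 := h.a1
  have h3 := h.c0
  have h4 := h.c1
  have h5 := h.b0
  have h6 := h.b1'
  obtain ⟨t0, t1⟩ := ht
  rw [Set.disjoint_left]
  intro x hx hx2
  have hx' : x ∈ segment ℝ (s7P (v i0) B (v (σ i0)) t ((1 - t) * c2))
      (s7P (v i0) B (v (σ i0)) (1 - b2) b2) := by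
    rw [← h.eX, ← h.eB2]
    exact hx
  have hx2' : x ∈ segment ℝ (s7P (v i0) B (v (σ i0)) 0 0)
      (s7P (v i0) B (v (σ i0)) b1 0) := by
    rw [← h.eB1, ← h.eA]
    exact hx2
  obtain ⟨u, u0, u1, e1⟩ := s7P_seg hx'
  obtain ⟨w, w0, w1, e2⟩ := s7P_seg hx2'
  obtain ⟨k1, k2⟩ := s7P_inj h.nd (congrArg Prod.fst (e1.symm.trans e2))
  have p2 := mul_nonneg (by linarith : 0 ≤ 1 - t) h3.le
  have p1 := mul_nonneg (by linarith : 0 ≤ 1 - u) p2
  have p3 := mul_nonneg u0 h5.le
  have k3 : (1 - u) * ((1 - t) * c2) + u * b2 = 0 := by linear_combination k2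
  have k4 : u = 0 := by
    have : u * b2 = 0 := by linarith
    rcases mul_eq_zero.1 this with k | k <;> linarith
  have k5 : t = 1 := by
    have : (1 - u) * ((1 - t) * c2) = 0 := by linarith
    rw [k4, sub_zero, one_mul] at this
    rcases mul_eq_zero.1 this with k | k <;> linarith
  rw [k4, k5] at k1
  have p4 := mul_le_of_le_one_left h1.le w1
  linarith

end corners

/-! ### The crossings of the fixed edges -/

section crs

variable {v : I → E} {i0 : I} {B C2 B2 B1 C1 D : E}

/-- The edge B2 C crosses nothing. -/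
theorem TriC.s7_crsB (h : TriC σ v i0 B C2 B2 B1 C1 D) {j : Option (Option (Option I))}
    (hj : j ≠ none) (hj2 : j ≠ some (some none))
    (hc : Crs (sA3 σ i0) (insV (insV (insV v C2) B2) B1) (some none) j) : False := by
  obtain ⟨c2, b2, b1, hD⟩ := h.s7D
  obtain ⟨m1, m2⟩ := s7_crs hc
  have hadj := hc.1
  generalize mp (sA3 σ i0) (insV (insV (insV v C2) B2) B1) (some none) j = z at m1 m2
  have m3 : z ∈ segment ℝ B2.1 (v (σ i0)).1 := by
    unfold sg at m1
    rw [s7_A3_B] at m1
    exact m1
  rcases j with _ | _ | _ | j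
  · exact hj rfl
  · exact hadj (Or.inl rfl)
  · exact hj2 rfl
  · by_cases hj3 : j = i0
    · subst hj3
      have m4 : z ∈ segment ℝ (v j).1 B1.1 := by
        unfold sg at m2
        rw [s7_A3_A] at m2
        exact m2
      have q1 := hD.a1
      have q2 := hD.a0
      have q3 := hD.b0
      have q4 := hD.b1'
      rw [segment_eq_image_lineMap] at m3 m4
      obtain ⟨u, hu, e1⟩ := m3
      obtain ⟨w, hw, e2⟩ := m4
      have e3 : (s7P (v j) B (v (σ j)) ((1 - u) * (1 - b2)) ((1 - u) * b2 + u)).1 =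
          (s7P (v j) B (v (σ j)) (w * b1) 0).1 := by
        rw [AffineMap.lineMap_apply_module, hD.eB2, s7P_fst] at e1
        rw [AffineMap.lineMap_apply_module, hD.eB1, s7P_fst] at e2
        rw [s7P_fst, s7P_fst]
        simp only [Complex.real_smul] at e1 e2
        push_cast at e1 e2 ⊢
        linear_combination e1 - e2
      obtain ⟨k1, k2⟩ := s7P_inj hD.nd e3
      have p1 := mul_nonneg (by linarith [hu.2] : 0 ≤ 1 - u) q3.le
      have k3 : u = 0 := by linarith [hu.1]
      rw [k3] at k2
      linarith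
    · by_cases hj4 : j = σ i0
      · subst hj4
        exact hadj (Or.inr (Or.inl (s7_A3_B i0).symm))
      · have m4 : z ∈ sg σ v j := by
          unfold sg at m2 ⊢
          rw [s7_A3_ne hj3] at m2
          exact m2
        refine Set.disjoint_left.1 (h.fC j hj3 hj4) m4 ?_
        refine (convex_convexHull ℝ _).segment_subset ?_ ?_ m3
        · exact subset_convexHull ℝ _ (by simp)
        · exact subset_convexHull ℝ _ (by simp)

/-- The edge A B1 crosses nothing. -/
theorem TriC.s7_crsA (h : TriC σ v i0 B C2 B2 B1 C1 D) {j : Option (Option (Option I))}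
    (hj : j ≠ none) (hj2 : j ≠ some (some none))
    (hc : Crs (sA3 σ i0) (insV (insV (insV v C2) B2) B1) (some (some (some i0))) j) :
    False := by
  rcases j with _ | _ | _ | j
  · exact hj rfl
  · exact h.s7_crsB (by simp) (by simp) hc.symm'
  · exact hj2 rfl
  · have hadj := hc.1
    by_cases hj3 : j = i0
    · subst hj3
      exact hadj (Or.inl rfl)
    · by_cases hj4 : σ j = i0
      · refine hadj (Or.inr (Or.inr ?_))
        rw [s7_A3_ne hj3, hj4]
      · obtain ⟨m1, m2⟩ := s7_crs hc
        have m3 : mp (sA3 σ i0) (insV (insV (insV v C2) B2) B1) (some (some (some i0)))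
            (some (some (some j))) ∈ segment ℝ (v i0).1 B1.1 := by
          unfold sg at m1
          rw [s7_A3_A] at m1
          exact m1
        have m4 : mp (sA3 σ i0) (insV (insV (insV v C2) B2) B1) (some (some (some i0)))
            (some (some (some j))) ∈ sg σ v j := by
          unfold sg at m2 ⊢
          rw [s7_A3_ne hj3] at m2
          exact m2
        refine Set.disjoint_left.1 (h.fA j hj3 hj4) m4 ?_
        refine (convex_convexHull ℝ _).segment_subset ?_ ?_ m3
        · exact subset_convexHull ℝ _ (by simp)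
        · exact subset_convexHull ℝ _ (by simp)

/-- The crossings of the base edges. -/
theorem s7_crs_base (C2 B2 B1 : E) {i j : I} (hi : i ≠ i0) (hj : j ≠ i0)
    (hc : Crs (sA3 σ i0) (insV (insV (insV v C2) B2) B1) (some (some (some i)))
      (some (some (some j)))) :
    Crs σ v i j ∧ mp (sA3 σ i0) (insV (insV (insV v C2) B2) B1) (some (some (some i)))
      (some (some (some j))) = mp σ v i j := by
  have d : ∀ {k : I}, k ≠ i0 → dd (sA3 σ i0) (insV (insV (insV v C2) B2) B1)
      (some (some (some k))) = dd σ v k := by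
    intro k hk
    unfold dd
    rw [s7_A3_ne hk]
    rfl
  have p : ∀ {k l : I}, k ≠ i0 → l ≠ i0 → par (sA3 σ i0) (insV (insV (insV v C2) B2) B1)
      (some (some (some k))) (some (some (some l))) = par σ v k l := by
    intro k l hk hl
    unfold par
    rw [d hk, d hl]
    rfl
  obtain ⟨h1, h2, h3⟩ := hc
  rw [d hi, d hj] at h2
  rw [p hi hj, p hj hi] at h3
  refine ⟨⟨?_, h2, h3⟩, ?_⟩
  · rintro (k | k | k)
    · subst k
      exact h1 (Or.inl rfl)
    · subst k
      exact h1 (Or.inr (Or.inl (s7_A3_ne hi).symm))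
    · subst k
      exact h1 (Or.inr (Or.inr (s7_A3_ne hj).symm))
  · unfold mp
    rw [d hi, p hi hj]
    rfl

end crs

/-! ### The move -/

theorem TriC.move2 {v : I → E} {i0 : I} {B C2 B2 B1 C1 D : E} (h : TriC σ v i0 B C2 B2 B1 C1 D) :
    MoveD (sA3 σ i0) (insV (insV (insV v C2) B2) B1) (some (some none)) C2 B := by
  obtain ⟨c2, b2, b1, hD⟩ := h.s7D
  have hG := h.gen3
  have hT := h.base
  have hgp := hT.gp.1
  have hs1 := hT.s1
  -- directions of the fixed edges do not depend on the moving vertex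
  have dfix : ∀ (X : E) (i : Option (Option (Option I))), i ≠ none → i ≠ some (some none) →
      dd (sA3 σ i0) (insV (insV (insV v X) B2) B1) i =
        dd (sA3 σ i0) (insV (insV (insV v C2) B2) B1) i := by
    intro X i h1 h2
    unfold dd
    rcases i with _ | _ | _ | i
    · exact absurd rfl h1
    · rw [s7_A3_B]
      rfl
    · exact absurd rfl h2
    · by_cases hi : i = i0
      · subst hi
        rw [s7_A3_A]
        rfl
      · rw [s7_A3_ne hi]
        rfl
  refine ⟨?_, ?_, ?_, ?_, ?_, ?_, ?_, ?_, ?_⟩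
  · -- slit
    intro t ht i
    rw [s7_mv]
    by_cases c1 : i = none
    · subst c1
      unfold dd
      rw [s7_A3_none, s7_A3_X]
      exact hD.corX ht
    by_cases c2 : i = some (some none)
    · subst c2
      unfold dd
      rw [s7_A3_X, s7_A3_B]
      exact hD.corB ht
    by_cases c3 : i = some (some (some i0))
    · subst c3
      unfold dd
      rw [s7_A3_A, s7_A3_none]
      exact hD.corA ht
    have e1 : sA3 σ i0 i ≠ none := by
      intro e
      rw [← s7_A3_A i0] at e
      exact c3 ((sA3 σ i0).injective e)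
    have e2 : sA3 σ i0 i ≠ some (some none) := by
      intro e
      rw [← s7_A3_none i0] at e
      exact c1 ((sA3 σ i0).injective e)
    rw [dfix _ _ c1 c2, dfix _ _ e1 e2]
    exact hG.slit i
  · -- dis
    intro t ht
    rw [s7_mv]
    have key : ∀ i j, (i = none ∨ i = some (some none)) → ¬ Adj (sA3 σ i0) i j →
        Disjoint (segment ℝ
          (insV (insV (insV v (AffineMap.lineMap C2 B t)) B2) B1 i)
          (insV (insV (insV v (AffineMap.lineMap C2 B t)) B2) B1 (sA3 σ i0 i)))
        (segment ℝ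
          (insV (insV (insV v (AffineMap.lineMap C2 B t)) B2) B1 j)
          (insV (insV (insV v (AffineMap.lineMap C2 B t)) B2) B1 (sA3 σ i0 j))) := by
      intro i j hi hadj
      rcases hi with rfl | rfl
      · rw [s7_A3_none]
        rcases j with _ | _ | _ | j
        · exact absurd (Or.inl rfl) hadj
        · rw [s7_A3_B]
          exact hD.disB1X_B2C ht
        · exact absurd (Or.inr (Or.inl (s7_A3_none i0).symm)) hadj
        · by_cases hj : j = i0
          · subst hj
            exact absurd (Or.inr (Or.inr (s7_A3_A j).symm)) hadj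
          · rw [s7_A3_ne hj]
            exact hD.disB1X hT ht hj
      · rw [s7_A3_X]
        rcases j with _ | _ | _ | j
        · exact absurd (Or.inr (Or.inr (s7_A3_none i0).symm)) hadj
        · exact absurd (Or.inr (Or.inl (s7_A3_X i0).symm)) hadj
        · exact absurd (Or.inl rfl) hadj
        · by_cases hj : j = i0
          · subst hj
            rw [s7_A3_A]
            exact hD.disXB2_AB1 ht
          · rw [s7_A3_ne hj]
            exact hD.disXB2 hT ht hj
    have vfix : ∀ (X : E) (i : Option (Option (Option I))), i ≠ some (some none) →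
        insV (insV (insV v X) B2) B1 i = insV (insV (insV v C2) B2) B1 i := by
      intro X i h2
      rcases i with _ | _ | _ | i
      · rfl
      · rfl
      · exact absurd rfl h2
      · rfl
    intro i j hadj
    by_cases c1 : i = none ∨ i = some (some none)
    · exact key i j c1 hadj
    by_cases c2 : j = none ∨ j = some (some none)
    · exact (key j i c2 fun k => hadj k.symm').symm
    push Not at c1 c2
    have e2 : ∀ i, i ≠ none → sA3 σ i0 i ≠ some (some none) := by
      intro i c e
      rw [← s7_A3_none i0] at e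
      exact c ((sA3 σ i0).injective e)
    rw [vfix _ i c1.2, vfix _ j c2.2, vfix _ _ (e2 i c1.1), vfix _ _ (e2 j c2.1)]
    exact h.dis3 i j hadj
  · -- fix0
    intro i j _ _ hij
    exact s7_ne hG hij
  · -- fix1
    intro i j hi hj hj2 hij hij2
    have hj3 : j ≠ none := by
      rintro rfl
      exact hj2 (s7_A3_none i0)
    rcases j with _ | _ | _ | j
    · exact absurd rfl hj3
    · -- the edge B2 C
      unfold dd
      rw [s7_A3_B] at hij2 ⊢
      have key : ∀ z : ℂ, dt (z - B.1) ((v (σ i0)).1 - B.1) ≠ 0 →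
          dt (z - B2.1) ((v (σ i0)).1 - B2.1) ≠ 0 := by
        intro z hz h0
        apply hz
        obtain ⟨s, s0, s1, e⟩ := h.e2
        have e1 : B2.1 = B.1 + (s : ℂ) * ((v (σ i0)).1 - B.1) := by
          rw [e, AffineMap.lineMap_apply_module']
          simp only [Prod.fst_add, Prod.smul_fst, Prod.fst_sub, Complex.real_smul]
          ring
        have e2 : dt (z - B2.1) ((v (σ i0)).1 - B2.1) =
            (1 - s) * dt (z - B.1) ((v (σ i0)).1 - B.1) := by
          rw [e1]
          unfold dt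
          simp only [Complex.sub_re, Complex.sub_im, Complex.add_re, Complex.add_im,
            Complex.re_ofReal_mul, Complex.im_ofReal_mul]
          ring
        rw [e2] at h0
        exact (mul_eq_zero.1 h0).resolve_left (by linarith)
      rcases i with _ | _ | _ | i
      · change dt (B1.1 - B2.1) ((v (σ i0)).1 - B2.1) ≠ 0
        have e3 := s7P_dt (v i0) B (v (σ i0)) b1 0 (1 - b2) b2 0 1 (1 - b2) b2
        rw [← hD.eB1, ← hD.eB2, ← hD.eC] at e3
        rw [e3]
        refine mul_ne_zero ?_ hD.nd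
        have q1 := hD.b1'
        have q2 := hD.a1
        have : (b1 - (1 - b2)) * (1 - b2) - (0 - b2) * (0 - (1 - b2)) =
            -((1 - b2) * (1 - b1)) := by ring
        rw [this]
        have := mul_pos (by linarith : 0 < 1 - b2) (by linarith : 0 < 1 - b1)
        linarith
      · exact absurd rfl hij
      · exact absurd rfl hi
      · have hi2 : i ≠ σ i0 := by
          rintro rfl
          exact hij2 rfl
        refine key (v i).1 ?_
        exact hgp none (some i) (some (σ i0)) (by simp) (by simp) (by simpa using hi2)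
    · exact absurd rfl hj
    · by_cases hj4 : j = i0
      · -- the edge A B1
        subst hj4
        unfold dd
        rw [s7_A3_A] at hij2 ⊢
        rcases i with _ | _ | _ | i
        · exact absurd rfl hij2
        · change dt (B2.1 - (v j).1) (B1.1 - (v j).1) ≠ 0
          have e3 := s7P_dt (v j) B (v (σ j)) (1 - b2) b2 0 0 b1 0 0 0
          rw [← hD.eB1, ← hD.eB2, ← hD.eA] at e3
          rw [e3]
          refine mul_ne_zero ?_ hD.nd
          have := mul_pos hD.b0 hD.a0
          intro h0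
          linarith
        · exact absurd rfl hi
        · have hi2 : i ≠ j := by
            rintro rfl
            exact hij rfl
          change dt ((v i).1 - (v j).1) (B1.1 - (v j).1) ≠ 0
          obtain ⟨s, s0, s1, e⟩ := h.e3
          have e1 : B1.1 = (v j).1 + (s : ℂ) * (B.1 - (v j).1) := by
            rw [e, AffineMap.lineMap_apply_module']
            simp only [Prod.fst_add, Prod.smul_fst, Prod.fst_sub, Complex.real_smul]
            ring
          have e2 : dt ((v i).1 - (v j).1) (B1.1 - (v j).1) =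
              s * dt ((v i).1 - (v j).1) (B.1 - (v j).1) := by
            rw [e1]
            unfold dt
            simp only [Complex.sub_re, Complex.sub_im, Complex.add_re, Complex.add_im,
              Complex.re_ofReal_mul, Complex.im_ofReal_mul]
            ring
          rw [e2]
          refine mul_ne_zero s0.ne' ?_
          exact hgp (some j) (some i) none (by simpa using hi2.symm) (by simp) (by simp)
      · -- a base edge
        have e1 : dd (sA3 σ i0) (insV (insV (insV v C2) B2) B1) (some (some (some j))) =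
            dd σ v j := by
          unfold dd
          rw [s7_A3_ne hj4]
          rfl
        rw [e1]
        rw [s7_A3_ne hj4] at hij2
        rcases i with _ | _ | _ | i
        · exact (h.l1 j hj4).2.2.1
        · exact (h.l1 j hj4).2.1
        · exact absurd rfl hi
        · have hi2 : i ≠ j := by
            rintro rfl
            exact hij rfl
          have hi3 : i ≠ σ j := by
            rintro rfl
            exact hij2 rfl
          exact hgp (some j) (some i) (some (σ j)) (by simpa using hi2.symm)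
            (by simpa using (hs1 j).symm) (by simpa using hi3)
  · -- fix2
    intro i j l _ _ _ _ _ _ h1 h2 h3
    exact hG.trp i j l h1 h2 h3
  · -- pth0
    intro t ht i hi
    rcases i with _ | _ | _ | i
    · exact hD.X_B1 ht
    · exact hD.X_B2 ht
    · exact absurd rfl hi
    · have t0 := ht.1
      have t1 := ht.2
      change (AffineMap.lineMap C2 B t : E).1 ≠ (v i).1
      by_cases c1 : i = i0
      · subst c1
        rw [hD.eX]
        intro he
        have he2 : (s7P (v i) B (v (σ i)) t ((1 - t) * c2)).1 =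
            (s7P (v i) B (v (σ i)) 0 0).1 := by
          rw [← hD.eA]
          exact he
        obtain ⟨k1, k2⟩ := s7P_inj hD.nd he2
        rw [k1] at k2
        linarith [hD.c0]
      by_cases c2' : i = σ i0
      · subst c2'
        rw [hD.eX]
        intro he
        have he2 : (s7P (v i0) B (v (σ i0)) t ((1 - t) * c2)).1 =
            (s7P (v i0) B (v (σ i0)) 0 1).1 := by
          rw [← hD.eC]
          exact he
        obtain ⟨k1, k2⟩ := s7P_inj hD.nd he2
        rw [k1] at k2
        linarith [hD.c1]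
      · intro he
        apply (h.l2 i c1 c2').2.2
        rw [← he, AffineMap.lineMap_apply_module']
        unfold dt
        simp only [Prod.fst_add, Prod.smul_fst, Prod.fst_sub, Complex.real_smul,
          Complex.sub_re, Complex.sub_im, Complex.add_re, Complex.add_im,
          Complex.re_ofReal_mul, Complex.im_ofReal_mul]
        ring
  · -- pth1
    intro t ht i j hi hi2 hj hj2 hc
    have hi3 : i ≠ none := by
      rintro rfl
      exact hi2 (s7_A3_none i0)
    have hj3 : j ≠ none := by
      rintro rfl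
      exact hj2 (s7_A3_none i0)
    rcases i with _ | _ | _ | i
    · exact absurd rfl hi3
    · exact (h.s7_crsB hj3 hj hc).elim
    · exact absurd rfl hi
    · by_cases c1 : i = i0
      · subst c1
        exact (h.s7_crsA hj3 hj hc).elim
      rcases j with _ | _ | _ | j
      · exact absurd rfl hj3
      · exact (h.s7_crsB hi3 hi hc.symm').elim
      · exact absurd rfl hj
      · by_cases c2' : j = i0
        · subst c2'
          exact (h.s7_crsA hi3 hi hc.symm').elim
        obtain ⟨k1, k2⟩ := s7_crs_base C2 B2 B1 c1 c2' hc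
        rw [k2]
        intro he
        apply (h.l3 i j c1 c2' k1).2
        rw [← he, AffineMap.lineMap_apply_module']
        unfold dt
        simp only [Prod.fst_add, Prod.smul_fst, Prod.fst_sub, Complex.real_smul,
          Complex.sub_re, Complex.sub_im, Complex.add_re, Complex.add_im,
          Complex.re_ofReal_mul, Complex.im_ofReal_mul]
        ring
  · rw [s7_mv, AffineMap.lineMap_apply_zero]
    exact hG
  · rw [s7_mv, AffineMap.lineMap_apply_one]
    exact (h.s8 0).1

theorem TriC.s7 {v : I → E} {i0 : I} {B C2 B2 B1 C1 D : E} (h : TriC σ v i0 B C2 B2 B1 C1 D) (N : ℕ) :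
    Zh (sA3 σ i0) (insV (insV (insV v C2) B2) B1) N =
      Zh (sA3 σ i0) (insV (insV (insV v B) B2) B1) N := by
  have h1 := h.move2.Zh_eq N
  have e0 := s7_mv v C2 B2 B1 B 0
  have e1 := s7_mv v C2 B2 B1 B 1
  unfold mv at e0 e1
  rw [AffineMap.lineMap_apply_zero] at e0
  rw [AffineMap.lineMap_apply_one] at e1
  rw [e0, e1] at h1
  exact h1

end Pool.Agent.Lib.MP_ca0971_gt.OT
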