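import Pool.Agent.Lib.MP_ca0971_gt.OT.Tri.Ex
import Pool.Agent.Lib.MP_ca0971_gt.OT.Tri.S5
import Pool.Agent.Lib.MP_ca0971_gt.OT.Tri.S7

/-!
# Project OT, Tri: the triangle move
-/

set_option autoImplicit false

namespace Pool.Agent.Lib.MP_ca0971_gt.OT

open Finset Filter Topology

variable {I : Type} [Fintype I] [DecidableEq I] {σ : Equiv.Perm I}

theorem tri0 {v : I → E} {i0 : I} {B : E} (h : Tri0 σ v i0 B) (N : ℕ) :
    Zh (insS σ i0) (insV v B) N = Zh σ v N := by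
  obtain ⟨C2, B2, B1, C1, D, hc⟩ := triC_ex h
  have h4 := (hc.s4 N).2
  have h5 := hc.s5 N
  have h6 := (hc.s6 N).2
  have h7 := hc.s7 N
  have h8 := (hc.s8 N).2
  rw [← h8, ← h7, ← h6, h5, h4]

end Pool.Agent.Lib.MP_ca0971_gt.OT
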