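import Pool.Agent.Lib.MP_ca0971_gt.OT.Tri.Def

/-!
# Project OT, Tri: first consequences of the hypotheses
-/

set_option autoImplicit false

namespace Pool.Agent.Lib.MP_ca0971_gt.OT

open Finset Filter Topology

variable {I : Type} [Fintype I] [DecidableEq I] {σ : Equiv.Perm I}

omit [Fintype I] [DecidableEq I] in
/-- GP is inherited by subfamilies. -/
theorem GP.comp_inj {W W' : Type} {p : W → E} (h : GP p) (f : W' → W) (hf : Function.Injective f) :
    GP (p ∘ f) := by
  refine ⟨fun a b c h1 h2 h3 => h.1 (f a) (f b) (f c) (hf.ne h1) (hf.ne h2) (hf.ne h3),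
    fun a a' b b' c c' hn => h.2 (f a) (f a') (f b) (f b') (f c) (f c') ?_⟩
  have := hn.map hf
  simpa using this

/-- gen_of_gp and hgt_of_dis. -/
theorem Tri0.gen {v : I → E} {i0 : I} {B : E} (h : Tri0 σ v i0 B) : Gen σ v :=
  gen_of_gp h.s1 h.s2 (h.gp.comp_inj some (Option.some_injective I)) (hgt_of_dis h.dis)

omit [Fintype I] [DecidableEq I] in
/-- A point of a segment in space projects to its line. -/
private theorem tri_line {A B x : E} (h : x ∈ segment ℝ A B) :
    dt (B.1 - A.1) (x.1 - A.1) = 0 := by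
  rw [segment_eq_image_lineMap] at h
  obtain ⟨t, -, rfl⟩ := h
  rw [AffineMap.lineMap_apply_module]
  unfold dt
  simp only [Complex.sub_re, Complex.sub_im, Prod.fst_add, Prod.smul_fst, Complex.add_re,
    Complex.add_im, Complex.real_smul, Complex.re_ofReal_mul, Complex.im_ofReal_mul]
  ring

omit [Fintype I] in
private theorem tri_nA {v : I → E} {i0 : I} {B : E} (h : Tri0 σ v i0 B) {a b c : Option I}
    (h1 : a ≠ b) (h2 : a ≠ c) (h3 : b ≠ c) {x : E} (hx : x ∈ segment ℝ (insV v B a) (insV v B b))
    (he : x = insV v B c) : False := by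
  subst he
  exact h.gp.1 a b c h1 h2 h3 (tri_line hx)

omit [Fintype I] in
/-- An old edge is disjoint from a new one. -/
private theorem tri_dis {v : I → E} {i0 : I} {B : E} (h : Tri0 σ v i0 B) {b : I} (hb : b ≠ i0)
    {o o' : Option I} (ho : ¬ o = o') (hA : o = some i0 ∧ o' = none ∨ o = none ∧ o' = some (σ i0))
    (hA1 : o = some i0 → σ b ≠ i0) (hC1 : o' = some (σ i0) → b ≠ σ i0) :
    Disjoint (segment ℝ (insV v B o) (insV v B o')) (segment ℝ (v b) (v (σ b))) := by
  rw [Set.disjoint_left]
  intro x hx hy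
  have hs : segment ℝ (insV v B o) (insV v B o') ⊆ convexHull ℝ {v i0, B, v (σ i0)} := by
    refine (convex_convexHull ℝ _).segment_subset (subset_convexHull ℝ _ ?_)
      (subset_convexHull ℝ _ ?_)
    · rcases hA with ⟨h1, -⟩ | ⟨h1, -⟩
      · subst h1
        exact Or.inl rfl
      · subst h1
        exact Or.inr (Or.inl rfl)
    · rcases hA with ⟨-, h1⟩ | ⟨-, h1⟩
      · subst h1
        exact Or.inr (Or.inl rfl)
      · subst h1
        exact Or.inr (Or.inr rfl)
  have hb' : σ b ≠ σ i0 := fun e => hb (σ.injective e)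
  have s0 : some i0 ≠ some (σ i0) := fun e => h.s1 i0 (Option.some.inj e).symm
  have sb : some b ≠ some (σ b) := fun e => h.s1 b (Option.some.inj e).symm
  have ha : (some b : Option I) ≠ some i0 := fun e => hb (Option.some.inj e)
  have hc : (some (σ b) : Option I) ≠ some (σ i0) := fun e => hb' (Option.some.inj e)
  rcases h.tri b hb ⟨hy, hs hx⟩ with he | he
  · rcases hA with ⟨h1, h2⟩ | ⟨h1, h2⟩
    · exact tri_nA h (a := some b) (b := some (σ b)) (c := some i0) sb ha
        (fun e => hA1 h1 (Option.some.inj e)) hy he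
    · subst h1
      subst h2
      exact tri_nA h (a := none) (b := some (σ i0)) (c := some i0) (by simp) (by simp) s0.symm hx he
  · rw [Set.mem_singleton_iff] at he
    rcases hA with ⟨h1, h2⟩ | ⟨h1, h2⟩
    · subst h1
      subst h2
      exact tri_nA h (a := some i0) (b := none) (c := some (σ i0)) (by simp) s0 (by simp) hx he
    · exact tri_nA h (a := some b) (b := some (σ b)) (c := some (σ i0)) sb
        (fun e => hC1 h2 (Option.some.inj e)) hc hy he

/-- The new polygon A B C is embedded in space: the two new edges are in the triangle, the old ones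
meet it only in A and C; A is on no other edge than the two at A (they would be collinear in the
projection). -/
theorem Tri0.disB {v : I → E} {i0 : I} {B : E} (h : Tri0 σ v i0 B) (i j : Option I)
    (hij : ¬ Adj (sA1 σ i0) i j) : Disjoint (segment ℝ (insV v B i) (insV v B (sA1 σ i0 i)))
      (segment ℝ (insV v B j) (insV v B (sA1 σ i0 j))) := by
  have key : ∀ (i : Option I) (b : I), (i = none ∨ i = some i0) → b ≠ i0 →
      ¬ Adj (sA1 σ i0) i (some b) → Disjoint (segment ℝ (insV v B i) (insV v B (sA1 σ i0 i)))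
      (segment ℝ (v b) (v (σ b))) := by
    intro i b hi hb hn
    unfold Adj at hn
    push Not at hn
    obtain ⟨n1, n2, n3⟩ := hn
    rcases hi with rfl | rfl
    · rw [show sA1 σ i0 none = some (σ i0) from insS_none i0] at n2 ⊢
      exact tri_dis h hb (by simp) (Or.inr ⟨rfl, rfl⟩) (by simp) fun _ e => n2 (by rw [e])
    · rw [show sA1 σ i0 (some b) = some (σ b) from insS_ne hb] at n3
      rw [show sA1 σ i0 (some i0) = none from insS_some i0]
      exact tri_dis h hb (by simp) (Or.inl ⟨rfl, rfl⟩) (fun _ e => n3 (by rw [e])) (by simp)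
  have e0 : sA1 σ i0 none = some (σ i0) := insS_none i0
  have e1 : sA1 σ i0 (some i0) = none := insS_some i0
  have e2 : ∀ b, b ≠ i0 → sA1 σ i0 (some b) = some (σ b) := fun b hb => insS_ne hb
  have nn : ∀ x y : Option I, (x = none ∨ x = some i0) → (y = none ∨ y = some i0) →
      Adj (sA1 σ i0) x y := by
    intro x y hx hy
    rcases hx with rfl | rfl <;> rcases hy with rfl | rfl
    · exact Or.inl rfl
    · exact Or.inr (Or.inr e1.symm)
    · exact Or.inr (Or.inl e1.symm)
    · exact Or.inl rfl
  have sym : ∀ x y : Option I, Adj (sA1 σ i0) x y → Adj (sA1 σ i0) y x := by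
    intro x y hx
    rcases hx with hx | hx | hx
    · exact Or.inl hx.symm
    · exact Or.inr (Or.inr hx)
    · exact Or.inr (Or.inl hx)
  have split : ∀ x : Option I, (x = none ∨ x = some i0) ∨ ∃ b, b ≠ i0 ∧ x = some b := by
    intro x
    cases x with
    | none => exact Or.inl (Or.inl rfl)
    | some b =>
      by_cases hb : b = i0
      · exact Or.inl (Or.inr (by rw [hb]))
      · exact Or.inr ⟨b, hb, rfl⟩
  rcases split i with hi | ⟨a, ha, rfl⟩
  · rcases split j with hj | ⟨b, hb, rfl⟩
    · exact absurd (nn i j hi hj) hij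
    · rw [e2 b hb]
      exact key i b hi hb hij
  · rcases split j with hj | ⟨b, hb, rfl⟩
    · rw [e2 a ha]
      exact (key j a hj ha fun hn => hij (sym _ _ hn)).symm
    · rw [e2 a ha, e2 b hb]
      refine h.dis a b fun hn => hij ?_
      unfold Adj
      rw [e2 a ha, e2 b hb]
      rcases hn with hn | hn | hn
      · exact Or.inl (by rw [hn])
      · exact Or.inr (Or.inl (by rw [hn]))
      · exact Or.inr (Or.inr (by rw [hn]))

theorem Tri0.genB {v : I → E} {i0 : I} {B : E} (h : Tri0 σ v i0 B) :
    Gen (sA1 σ i0) (insV v B) := by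
  have e0 : sA1 σ i0 none = some (σ i0) := insS_none i0
  have e1 : sA1 σ i0 (some i0) = none := insS_some i0
  have e2 : ∀ b, b ≠ i0 → sA1 σ i0 (some b) = some (σ b) := fun b hb => insS_ne hb
  refine gen_of_gp ?_ ?_ h.gp (hgt_of_dis h.disB)
  · intro i
    cases i with
    | none => rw [e0]; simp
    | some b =>
      by_cases hb : b = i0
      · rw [hb, e1]; simp
      · rw [e2 b hb]
        exact fun e => h.s1 b (Option.some.inj e)
  · intro i
    cases i with
    | none =>
      rw [e0, e2 _ (h.s1 i0)]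
      simp
    | some b =>
      by_cases hb : b = i0
      · rw [hb, e1, e0]
        exact fun e => h.s1 i0 (Option.some.inj e)
      · rw [e2 b hb]
        by_cases hc : σ b = i0
        · rw [hc, e1]; simp
        · rw [e2 _ hc]
          exact fun e => h.s2 b (Option.some.inj e)

omit [Fintype I] [DecidableEq I] in
/-- Plane coordinates in the triangle. -/
theorem tri_coord {A B C : E} (hnd : dt (B.1 - A.1) (C.1 - A.1) ≠ 0) {x : E}
    (hx : x ∈ convexHull ℝ {A, B, C}) : ∃ l m : ℝ, 0 ≤ l ∧ 0 ≤ m ∧ l + m ≤ 1 ∧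
      x = A + l • (B - A) + m • (C - A) := by
  rw [convexHull_insert ⟨B, Or.inl rfl⟩, convexHull_pair, mem_convexJoin] at hx
  obtain ⟨a, ha, b, hb, hx⟩ := hx
  rw [Set.mem_singleton_iff] at ha
  subst ha
  obtain ⟨p, q, hp, hq, hpq, rfl⟩ := hb
  obtain ⟨r, s, hr, hs, hrs, rfl⟩ := hx
  refine ⟨s * p, s * q, mul_nonneg hs hp, mul_nonneg hs hq, ?_, ?_⟩
  · rw [← mul_add, hpq]
    linarith
  · have e : r = 1 - s * p - s * q := by
      have : s * p + s * q = s := by rw [← mul_add, hpq, mul_one]
      linarith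
    rw [e]
    module

omit [Fintype I] [DecidableEq I] in
/-- The projection is injective on the plane of the triangle. -/
theorem tri_inj {A B C : E} (hnd : dt (B.1 - A.1) (C.1 - A.1) ≠ 0) {l m l' m' : ℝ}
    (h : (A + l • (B - A) + m • (C - A) : E).1 = (A + l' • (B - A) + m' • (C - A) : E).1) :
    l = l' ∧ m = m' := by
  have k1 := congrArg Complex.re h
  have k2 := congrArg Complex.im h
  simp only [Prod.fst_add, Prod.smul_fst, Prod.fst_sub, Complex.add_re, Complex.add_im,
    Complex.real_smul, Complex.re_ofReal_mul, Complex.im_ofReal_mul] at k1 k2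
  have h1 : (l - l') * dt (B.1 - A.1) (C.1 - A.1) = 0 := by
    unfold dt
    linear_combination (C.1 - A.1).im * k1 - (C.1 - A.1).re * k2
  have h2 : (m - m') * dt (B.1 - A.1) (C.1 - A.1) = 0 := by
    unfold dt
    linear_combination (B.1 - A.1).re * k2 - (B.1 - A.1).im * k1
  rcases mul_eq_zero.1 h1 with h3 | h3
  · rcases mul_eq_zero.1 h2 with h4 | h4
    · exact ⟨by linarith, by linarith⟩
    · exact absurd h4 hnd
  · exact absurd h3 hnd

end Pool.Agent.Lib.MP_ca0971_gt.OT
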