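import Pool.Agent.Lib.MP_ca0971_gt.OT.Cor.CornA
import Pool.Agent.Lib.MP_ca0971_gt.OT.Cor.CornC
import Pool.Agent.Lib.MP_ca0971_gt.OT.Cor.Rei
import Pool.Agent.Lib.MP_ca0971_gt.OT.Path.Move

/-!
# Project OT, Tri: the triangle move, definitions and plan

Closed polygon (σ, v), edge i0 from A = v i0 to C = v (σ i0), point B. Claim (Main.lean): the polygon
with A → B → C instead of A → C has the same Zh. All intermediate polygons (new vertices between A and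
C):

* w1: A C2 C (C2 on AC near C, straight insertion);
* w2: A C2 B2 C (B2 on BC near C, corner at the end, CornC);
* w3: A C1 C2 B2 C (C1 on A C2 near A, straight insertion);
* w4: A B1 C1 C2 B2 C (B1 on AB near A, corner at the start, CornA);
* move C1 to a point D of B1 C2 near B1 (MoveD): A B1 D C2 B2 C;
* w3' : A B1 C2 B2 C (deletion of D, after the exchange ins_comm);
* move C2 to B (MoveD): A B1 B B2 C;
* delete B1 and B2 (straight): A B C = wB.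

Plane computations: in the coordinates (l, m) of the triangle (point A + l (B - A) + m (C - A)) one has
A = (0,0), B = (1,0), C = (0,1), C2 = (0, c2), B2 = (1 - b2, b2), B1 = (b1, 0), C1 = (0, c1 c2),
D = (b1 (1 - κ), κ c2), and dt of two differences is the 2 x 2 determinant of the coordinates times
dt (B - A) (C - A) ≠ 0. All the plane facts needed below (not antiparallel, disjoint segments) are one
line computations in these coordinates; see the docstrings.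
-/

set_option autoImplicit false

namespace Pool.Agent.Lib.MP_ca0971_gt.OT

open Finset Filter Topology

variable {I : Type} [Fintype I] [DecidableEq I] {σ : Equiv.Perm I}

/-- Hypotheses of the triangle move. -/
structure Tri0 (σ : Equiv.Perm I) (v : I → E) (i0 : I) (B : E) : Prop where
  s1 : ∀ i, σ i ≠ i
  s2 : ∀ i, σ (σ i) ≠ i
  gp : GP (insV v B)
  dis : ∀ i j, ¬ Adj σ i j → Disjoint (segment ℝ (v i) (v (σ i))) (segment ℝ (v j) (v (σ j)))
  tri : ∀ j, j ≠ i0 → segment ℝ (v j) (v (σ j)) ∩ convexHull ℝ {v i0, B, v (σ i0)} ⊆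
    {v i0, v (σ i0)}

/-- Choice of the auxiliary points. -/
structure TriC (σ : Equiv.Perm I) (v : I → E) (i0 : I) (B C2 B2 B1 C1 D : E) : Prop where
  base : Tri0 σ v i0 B
  e1 : ∃ t : ℝ, 0 < t ∧ t < 1 ∧ C2 = AffineMap.lineMap (v i0) (v (σ i0)) t
  e2 : ∃ t : ℝ, 0 < t ∧ t < 1 ∧ B2 = AffineMap.lineMap B (v (σ i0)) t
  e3 : ∃ t : ℝ, 0 < t ∧ t < 1 ∧ B1 = AffineMap.lineMap (v i0) B t
  e4 : ∃ t : ℝ, 0 < t ∧ t < 1 ∧ C1 = AffineMap.lineMap (v i0) C2 t
  e5 : ∃ t : ℝ, 0 < t ∧ t < 1 ∧ D = AffineMap.lineMap B1 C2 t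
  fC : ∀ j, j ≠ i0 → j ≠ σ i0 → Disjoint (sg σ v j) (convexHull ℝ {C2.1, B2.1, (v (σ i0)).1})
  fW : (v (σ (σ i0))).1 ∉ convexHull ℝ {C2.1, B2.1, (v (σ i0)).1}
  fA : ∀ j, j ≠ i0 → σ j ≠ i0 → Disjoint (sg σ v j) (convexHull ℝ {(v i0).1, B1.1, C1.1, D.1})
  fZ : (v (σ.symm i0)).1 ∉ convexHull ℝ {(v i0).1, B1.1, C1.1, D.1}
  fAC : Disjoint (convexHull ℝ {(v i0).1, B1.1, C1.1, D.1})
    (convexHull ℝ {C2.1, B2.1, (v (σ i0)).1})
  l1 : ∀ j, j ≠ i0 → dt (C2.1 - (v j).1) (dd σ v j) ≠ 0 ∧ dt (B2.1 - (v j).1) (dd σ v j) ≠ 0 ∧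
    dt (B1.1 - (v j).1) (dd σ v j) ≠ 0 ∧ dt (D.1 - (v j).1) (dd σ v j) ≠ 0
  l2 : ∀ i, i ≠ i0 → i ≠ σ i0 → dt ((v i).1 - C2.1) (B2.1 - C2.1) ≠ 0 ∧
    dt ((v i).1 - B1.1) (C2.1 - B1.1) ≠ 0 ∧ dt ((v i).1 - C2.1) (B.1 - C2.1) ≠ 0
  l3 : ∀ j l, j ≠ i0 → l ≠ i0 → Crs σ v j l → dt (mp σ v j l - B1.1) (C2.1 - B1.1) ≠ 0 ∧
    dt (mp σ v j l - C2.1) (B.1 - C2.1) ≠ 0
  l4 : dt (B1.1 - C2.1) (B2.1 - C2.1) ≠ 0

section
variable (σ : Equiv.Perm I) (i0 : I)

/-- Next-vertex permutations of the polygons w1 (and wB), w2, w3 and w3', w4, w4'. -/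
abbrev sA1 : Equiv.Perm (Option I) := insS σ i0
abbrev sA2 : Equiv.Perm (Option (Option I)) := insS (sA1 σ i0) none
abbrev sA3 : Equiv.Perm (Option (Option (Option I))) := insS (sA2 σ i0) (some (some i0))
abbrev sA4 : Equiv.Perm (Option (Option (Option (Option I)))) :=
  insS (sA3 σ i0) (some (some (some i0)))
abbrev sA4' : Equiv.Perm (Option (Option (Option (Option I)))) := insS (sA3 σ i0) none
end

end Pool.Agent.Lib.MP_ca0971_gt.OT
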