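import Pool.Agent.Lib.MP_ca0971_gt.OT.Tri.Def

/-!
# Project OT, Tri: auxiliary lemmas for the choice of points

Affine functions of one real parameter which are not identically zero do not vanish near (and
different from) a given point.
-/

set_option autoImplicit false

namespace Pool.Agent.Lib.MP_ca0971_gt.OT

open Finset Filter Topology

namespace TriEx

/-- affine functions -/
def Aff (f : ℝ → ℝ) : Prop := ∀ t, f t = f 0 + t * (f 1 - f 0)

theorem Aff.ev {f : ℝ → ℝ} (hf : Aff f) {t0 : ℝ} (h0 : f t0 ≠ 0) (x : ℝ) :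
    ∀ᶠ t in 𝓝[≠] x, f t ≠ 0 := by
  by_cases hx : f x = 0
  · filter_upwards [self_mem_nhdsWithin] with t ht hft
    have h1 := hf t
    have h2 := hf x
    have h3 := hf t0
    rw [hft] at h1
    rw [hx] at h2
    have h4 : (t - x) * (f 1 - f 0) = 0 := by linarith
    have h5 : t - x ≠ 0 := sub_ne_zero.2 ht
    have h6 : f 1 - f 0 = 0 := (mul_eq_zero.1 h4).resolve_left h5
    rw [h6, mul_zero, add_zero] at h1 h3
    exact h0 (h3.trans h1.symm)
  · have hc : ContinuousAt f x := by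
      have h1 : f = fun t => f 0 + t * (f 1 - f 0) := funext hf
      rw [h1]
      fun_prop
    exact (hc.eventually_ne hx).filter_mono nhdsWithin_le_nhds

theorem Aff.ev_gt {f : ℝ → ℝ} (hf : Aff f) {t0 : ℝ} (h0 : f t0 ≠ 0) (x : ℝ) :
    ∀ᶠ t in 𝓝[>] x, f t ≠ 0 :=
  (hf.ev h0 x).filter_mono (nhdsWithin_mono _ fun _ h => ne_of_gt h)

theorem Aff.ev_lt {f : ℝ → ℝ} (hf : Aff f) {t0 : ℝ} (h0 : f t0 ≠ 0) (x : ℝ) :
    ∀ᶠ t in 𝓝[<] x, f t ≠ 0 :=
  (hf.ev h0 x).filter_mono (nhdsWithin_mono _ fun _ h => ne_of_lt h)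

theorem lm_re (a c : ℂ) (t : ℝ) : (AffineMap.lineMap a c t : ℂ).re = a.re + t * (c.re - a.re) := by
  rw [AffineMap.lineMap_apply]
  simp
  ring

theorem lm_im (a c : ℂ) (t : ℝ) : (AffineMap.lineMap a c t : ℂ).im = a.im + t * (c.im - a.im) := by
  rw [AffineMap.lineMap_apply]
  simp
  ring

theorem lm_fst (A C : E) (t : ℝ) :
    (AffineMap.lineMap A C t : E).1 = AffineMap.lineMap A.1 C.1 t := by
  rw [AffineMap.lineMap_apply, AffineMap.lineMap_apply]
  rfl

/-- `t ↦ dt (p t - w) d` -/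
theorem aff_line (a c w d : ℂ) : Aff fun t => dt (AffineMap.lineMap a c t - w) d := by
  intro t
  simp only [dt, Complex.sub_re, Complex.sub_im, lm_re, lm_im]
  ring

/-- `t ↦ dt (z - p t) (w - p t)` -/
theorem aff_tri (a c z w : ℂ) :
    Aff fun t => dt (z - AffineMap.lineMap a c t) (w - AffineMap.lineMap a c t) := by
  intro t
  simp only [dt, Complex.sub_re, Complex.sub_im, lm_re, lm_im]
  ring

/-- `t ↦ dt u (p t - w)` -/
theorem aff_line' (a c w d : ℂ) : Aff fun t => dt d (AffineMap.lineMap a c t - w) := by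
  intro t
  simp only [dt, Complex.sub_re, Complex.sub_im, lm_re, lm_im]
  ring

theorem dt_cyc (x y z : ℂ) : dt (x - y) (z - y) = - dt (x - z) (y - z) := by
  simp only [dt, Complex.sub_re, Complex.sub_im]
  ring

theorem dt_rot (x y z : ℂ) : dt (x - y) (z - y) = dt (y - z) (x - z) := by
  simp only [dt, Complex.sub_re, Complex.sub_im]
  ring

theorem dt_ne_left {x y w : ℂ} (h : dt (x - w) (y - w) ≠ 0) : x ≠ w := by
  rintro rfl
  apply h
  simp [dt]

theorem dt_ne_right {x y w : ℂ} (h : dt (x - w) (y - w) ≠ 0) : y ≠ w := by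
  rintro rfl
  apply h
  simp [dt]

/-- two lines meet in one point -/
theorem dt_meet {a b c z : ℂ} (h : dt (b - a) (c - a) ≠ 0) (h1 : dt (z - a) (b - a) = 0)
    (h2 : dt (z - c) (b - c) = 0) : z = b := by
  simp only [dt, Complex.sub_re, Complex.sub_im] at h h1 h2
  have e1 : (z.re - b.re) *
      ((b.re - a.re) * (c.im - a.im) - (b.im - a.im) * (c.re - a.re)) = 0 := by
    linear_combination (b.re - c.re) * h1 - (b.re - a.re) * h2
  have e2 : (z.im - b.im) *
      ((b.re - a.re) * (c.im - a.im) - (b.im - a.im) * (c.re - a.re)) = 0 := by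
    linear_combination (b.im - c.im) * h1 - (b.im - a.im) * h2
  exact Complex.ext (sub_eq_zero.1 ((mul_eq_zero.1 e1).resolve_right h))
    (sub_eq_zero.1 ((mul_eq_zero.1 e2).resolve_right h))

theorem notMem_seg {x y z : ℂ} (h : dt (y - x) (z - x) ≠ 0) : z ∉ segment ℝ x y := by
  rintro ⟨s, t, hs, ht, hst, rfl⟩
  apply h
  have h1 : s = 1 - t := by linarith
  subst h1
  simp only [dt, Complex.sub_re, Complex.sub_im, Complex.add_re, Complex.add_im,
    Complex.real_smul, Complex.mul_re, Complex.mul_im, Complex.ofReal_re, Complex.ofReal_im]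
  ring

/-- a closed set which does not contain `x` misses a closed disc around `x` -/
theorem exists_disc {F : Set ℂ} (hF : IsClosed F) {x : ℂ} (hx : x ∉ F) :
    ∃ r : ℝ, 0 < r ∧ Disjoint F (Metric.closedBall x r) := by
  obtain ⟨r, hr, h⟩ := Metric.isOpen_iff.1 hF.isOpen_compl x hx
  refine ⟨r / 2, half_pos hr, ?_⟩
  rw [Set.disjoint_right]
  intro y hy
  exact h (Metric.closedBall_subset_ball (half_lt_self hr) hy)

/-- near the start -/
theorem ev_start {p q x : ℂ} {r : ℝ} (h : dist p x < r) :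
    ∀ᶠ t in 𝓝[>] (0 : ℝ), AffineMap.lineMap p q t ∈ Metric.ball x r := by
  have hc : Tendsto (fun t : ℝ => (AffineMap.lineMap p q t : ℂ)) (𝓝 0) (𝓝 p) := by
    have h1 : Continuous fun t : ℝ => (AffineMap.lineMap p q t : ℂ) :=
      AffineMap.lineMap_continuous
    have h2 := h1.tendsto 0
    rwa [AffineMap.lineMap_apply_zero] at h2
  exact (hc.eventually (Metric.isOpen_ball.mem_nhds h)).filter_mono nhdsWithin_le_nhds

/-- near the end -/
theorem ev_end {p q x : ℂ} {r : ℝ} (h : dist q x < r) :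
    ∀ᶠ t in 𝓝[<] (1 : ℝ), AffineMap.lineMap p q t ∈ Metric.ball x r := by
  have hc : Tendsto (fun t : ℝ => (AffineMap.lineMap p q t : ℂ)) (𝓝 1) (𝓝 q) := by
    have h1 : Continuous fun t : ℝ => (AffineMap.lineMap p q t : ℂ) :=
      AffineMap.lineMap_continuous
    have h2 := h1.tendsto 1
    rwa [AffineMap.lineMap_apply_one] at h2
  exact (hc.eventually (Metric.isOpen_ball.mem_nhds h)).filter_mono nhdsWithin_le_nhds

theorem ev_01 : ∀ᶠ t in 𝓝[>] (0 : ℝ), 0 < t ∧ t < 1 := by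
  filter_upwards [Ioo_mem_nhdsGT (zero_lt_one' ℝ)] with t ht using ⟨ht.1, ht.2⟩

theorem ev_10 : ∀ᶠ t in 𝓝[<] (1 : ℝ), 0 < t ∧ t < 1 := by
  filter_upwards [Ioo_mem_nhdsLT (zero_lt_one' ℝ)] with t ht using ⟨ht.1, ht.2⟩

end TriEx

end Pool.Agent.Lib.MP_ca0971_gt.OT
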