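import Pool.Agent.Lib.MP_ca0971_gt.OT.Tri.Base
import Pool.Agent.Lib.MP_ca0971_gt.OT.Tri.ExA

/-!
# Project OT, Tri: existence of the auxiliary points

Let rC > 0 be such that the closed disc of radius rC around C (projection) meets no sg j with j ≠ i0,
j ≠ σ i0 (C is not on these closed edges: GP) and does not contain the projection of W = v (σ (σ i0)).
Choose C2 = lineMap A C c2 in this disc, c2 < 1, outside the finitely many values which violate l1 for
C2, the third part of l2, the second part of l3 (each bad line meets AC in at most one point: the lines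
of the edges j ≠ i0 are not the line AC and those through A or C meet it only there; a line through B and a
vertex i ≠ A, C or a crossing point meets AC in one point). Then B2 = lineMap B C b2 in the disc, outside
the finitely many values for l1, l2 first part. Now rA > 0: the closed disc around A of radius rA meets
no sg j with j ≠ i0, σ j ≠ i0, does not contain Z = v (σ.symm i0), and is disjoint from the hull of C2,
B2, C. Choose B1 on AB in the disc outside finitely many values (l1, l2 second part, l3 first part, l4),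
then C1 and D in the disc (D = lineMap B1 C2 κ, κ small, outside the finitely many values for l1).

For a crossing point z = mp j l of two base edges j, l ≠ i0: z = C2 excluded by l1; z on the line B C2
for at most one C2 unless z = B, excluded because B is on no line of a base edge (GP).
-/

set_option autoImplicit false

namespace Pool.Agent.Lib.MP_ca0971_gt.OT

open Finset Filter Topology

variable {I : Type} [Fintype I] [DecidableEq I] {σ : Equiv.Perm I}

/-- A finite set of bad parameters can be avoided. -/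
theorem avoid {s : Set ℝ} (hs : s.Finite) {a b : ℝ} (hab : a < b) : ∃ t, a < t ∧ t < b ∧ t ∉ s := by
  obtain ⟨t, ht, hts⟩ := (Set.Ioo_infinite hab).exists_notMem_finite hs
  exact ⟨t, ht.1, ht.2, hts⟩

open TriEx

namespace TriEx

section
variable {v : I → E} {i0 : I} {B : E}

omit [Fintype I] in
/-- three old vertices -/
theorem g1 (h : Tri0 σ v i0 B) {i j k : I} (h1 : i ≠ j) (h2 : i ≠ k) (h3 : j ≠ k) :
    dt ((v j).1 - (v i).1) ((v k).1 - (v i).1) ≠ 0 :=
  h.gp.1 (some i) (some j) (some k) (fun e => h1 (Option.some.inj e))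
    (fun e => h2 (Option.some.inj e)) fun e => h3 (Option.some.inj e)

omit [Fintype I] in
/-- `B` and two old vertices -/
theorem g2 (h : Tri0 σ v i0 B) {i j : I} (h1 : i ≠ j) :
    dt (B.1 - (v i).1) ((v j).1 - (v i).1) ≠ 0 :=
  h.gp.1 (some i) none (some j) (fun e => Option.some_ne_none _ e)
    (fun e => h1 (Option.some.inj e)) fun e => Option.some_ne_none _ e.symm

omit [Fintype I] in
theorem c1 (h : Tri0 σ v i0 B) {j : I} (h1 : j ≠ i0) (h2 : σ j ≠ i0) :
    dt ((v i0).1 - (v j).1) (dd σ v j) ≠ 0 := g1 h h1 (h.s1 j).symm fun e => h2 e.symm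

omit [Fintype I] in
theorem c2 (h : Tri0 σ v i0 B) {j : I} (h1 : j ≠ i0) (h2 : j ≠ σ i0) :
    dt ((v (σ i0)).1 - (v j).1) (dd σ v j) ≠ 0 :=
  g1 h h2 (h.s1 j).symm fun e => h1 (σ.injective e).symm

omit [Fintype I] in
theorem c3 (h : Tri0 σ v i0 B) (j : I) : dt (B.1 - (v j).1) (dd σ v j) ≠ 0 :=
  g2 h (h.s1 j).symm

omit [Fintype I] in
/-- the line of an old edge is not the line `AC` -/
theorem line_AC (h : Tri0 σ v i0 B) {j : I} (h1 : j ≠ i0) :
    ∃ t : ℝ, dt (AffineMap.lineMap (v i0).1 (v (σ i0)).1 t - (v j).1) (dd σ v j) ≠ 0 := by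
  by_cases h2 : σ j = i0
  · refine ⟨1, ?_⟩
    rw [AffineMap.lineMap_apply_one]
    refine c2 h h1 fun e => h.s2 i0 ?_
    rw [← e, h2]
  · refine ⟨0, ?_⟩
    rw [AffineMap.lineMap_apply_zero]
    exact c1 h h1 h2

omit [Fintype I] in
/-- a crossing point of two old edges is not `B` -/
theorem mp_ne (h : Tri0 σ v i0 B) (j l : I) : mp σ v j l ≠ B.1 := by
  intro e
  apply c3 h j
  rw [← e]
  unfold mp
  simp only [dt, Complex.sub_re, Complex.sub_im, Complex.add_re, Complex.add_im,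
    Complex.mul_re, Complex.mul_im, Complex.ofReal_re, Complex.ofReal_im]
  ring

omit [Fintype I] in
/-- a line through `B` and another point meets `AC` in at most one point -/
theorem line_B (h : Tri0 σ v i0 B) {z : ℂ} (hz : z ≠ B.1) :
    ∃ t : ℝ, dt (z - AffineMap.lineMap (v i0).1 (v (σ i0)).1 t)
      (B.1 - AffineMap.lineMap (v i0).1 (v (σ i0)).1 t) ≠ 0 := by
  by_contra hc
  push Not at hc
  have h0 := hc 0
  have h1 := hc 1
  rw [AffineMap.lineMap_apply_zero] at h0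
  rw [AffineMap.lineMap_apply_one] at h1
  exact hz (dt_meet (g2 h (h.s1 i0).symm) h0 h1)

omit [DecidableEq I] in
/-- finite unions of closed projected edges -/
theorem closed_sg (v : I → E) (P : I → Prop) : IsClosed (⋃ j ∈ {j | P j}, sg σ v j) := by
  refine Set.Finite.isClosed_biUnion (Set.toFinite _) fun j _ => ?_
  have h1 : sg σ v j = segment ℝ (v j).1 (v (σ j)).1 := rfl
  rw [h1, segment_eq_image_lineMap]
  exact (isCompact_Icc.image AffineMap.lineMap_continuous).isClosed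

end

end TriEx

theorem triC_ex {v : I → E} {i0 : I} {B : E} (h : Tri0 σ v i0 B) :
    ∃ C2 B2 B1 C1 D : E, TriC σ v i0 B C2 B2 B1 C1 D := by
  have hAC : (v (σ i0)).1 ≠ (v i0).1 := dt_ne_right (g2 h (h.s1 i0).symm)
  -- the disc around `C`
  obtain ⟨rC, hrC, hdC⟩ : ∃ r : ℝ, 0 < r ∧ Disjoint
      ((⋃ j ∈ {j | j ≠ i0 ∧ j ≠ σ i0}, sg σ v j) ∪ {(v (σ (σ i0))).1, (v i0).1})
      (Metric.closedBall (v (σ i0)).1 r) := by
    refine exists_disc ((closed_sg v _).union (Set.toFinite _).isClosed) ?_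
    rintro (hm | hm)
    · simp only [Set.mem_ofPred_eq, Set.mem_iUnion, exists_prop] at hm
      obtain ⟨j, ⟨h1, h2⟩, h3⟩ := hm
      refine notMem_seg (x := (v j).1) (y := (v (σ j)).1) (z := (v (σ i0)).1) ?_ h3
      have h4 := c2 h h1 h2
      unfold dd at h4
      intro h5
      apply h4
      rw [show dt ((v (σ i0)).1 - (v j).1) ((v (σ j)).1 - (v j).1) =
        - dt ((v (σ j)).1 - (v j).1) ((v (σ i0)).1 - (v j).1) by unfold dt; ring, h5, neg_zero]
    · rcases hm with hm | hm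
      · exact dt_ne_right (g2 h (h.s1 (σ i0))) hm
      · exact hAC hm
  have hdC1 : ∀ j, j ≠ i0 → j ≠ σ i0 → Disjoint (sg σ v j) (Metric.closedBall (v (σ i0)).1 rC) :=
    fun j h1 h2 => hdC.mono_left (Set.subset_union_of_subset_left
      (Set.subset_biUnion_of_mem (u := fun j => sg σ v j)
        (show j ∈ {j | j ≠ i0 ∧ j ≠ σ i0} from ⟨h1, h2⟩)) _)
  have hdC2 : (v (σ (σ i0))).1 ∉ Metric.closedBall (v (σ i0)).1 rC := fun hm =>
    Set.disjoint_left.1 hdC (Or.inr (Or.inl rfl)) hm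
  have hdC3 : (v i0).1 ∉ Metric.closedBall (v (σ i0)).1 rC := fun hm =>
    Set.disjoint_left.1 hdC (Or.inr (Or.inr rfl)) hm
  -- the disc around `A`
  obtain ⟨rA, hrA, hdA⟩ : ∃ r : ℝ, 0 < r ∧ Disjoint
      (((⋃ j ∈ {j | j ≠ i0 ∧ σ j ≠ i0}, sg σ v j) ∪ {(v (σ.symm i0)).1}) ∪
        Metric.closedBall (v (σ i0)).1 rC)
      (Metric.closedBall (v i0).1 r) := by
    refine exists_disc (((closed_sg v _).union isClosed_singleton).union
      Metric.isClosed_closedBall) ?_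
    rintro ((hm | hm) | hm)
    · simp only [Set.mem_ofPred_eq, Set.mem_iUnion, exists_prop] at hm
      obtain ⟨j, ⟨h1, h2⟩, h3⟩ := hm
      refine notMem_seg (x := (v j).1) (y := (v (σ j)).1) (z := (v i0).1) ?_ h3
      have h4 := c1 h h1 h2
      unfold dd at h4
      intro h5
      apply h4
      rw [show dt ((v i0).1 - (v j).1) ((v (σ j)).1 - (v j).1) =
        - dt ((v (σ j)).1 - (v j).1) ((v i0).1 - (v j).1) by unfold dt; ring, h5, neg_zero]
    · have h1 : σ.symm i0 ≠ i0 := by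
        intro e
        have h2 := h.s1 (σ.symm i0)
        rw [Equiv.apply_symm_apply] at h2
        exact h2 e.symm
      exact dt_ne_right (g2 h h1) (Set.mem_singleton_iff.1 hm)
    · exact hdC3 hm
  have hdA1 : ∀ j, j ≠ i0 → σ j ≠ i0 → Disjoint (sg σ v j) (Metric.closedBall (v i0).1 rA) :=
    fun j h1 h2 => hdA.mono_left (Set.subset_union_of_subset_left
      (Set.subset_union_of_subset_left (Set.subset_biUnion_of_mem (u := fun j => sg σ v j)
        (show j ∈ {j | j ≠ i0 ∧ σ j ≠ i0} from ⟨h1, h2⟩)) _) _)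
  have hdA2 : (v (σ.symm i0)).1 ∉ Metric.closedBall (v i0).1 rA := fun hm =>
    Set.disjoint_left.1 hdA (Or.inl (Or.inr rfl)) hm
  have hdA3 : Disjoint (Metric.closedBall (v i0).1 rA) (Metric.closedBall (v (σ i0)).1 rC) :=
    (hdA.mono_left Set.subset_union_right).symm
  -- choice of `C2`
  obtain ⟨τ2, hτ2, hbC2, hl1C, hl2C, hl3C⟩ : ∃ t : ℝ, (0 < t ∧ t < 1) ∧
      AffineMap.lineMap (v i0).1 (v (σ i0)).1 t ∈ Metric.ball (v (σ i0)).1 rC ∧
      (∀ j, j ≠ i0 →
        dt (AffineMap.lineMap (v i0).1 (v (σ i0)).1 t - (v j).1) (dd σ v j) ≠ 0) ∧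
      (∀ i, i ≠ i0 → i ≠ σ i0 → dt ((v i).1 - AffineMap.lineMap (v i0).1 (v (σ i0)).1 t)
        (B.1 - AffineMap.lineMap (v i0).1 (v (σ i0)).1 t) ≠ 0) ∧
      (∀ j l, dt (mp σ v j l - AffineMap.lineMap (v i0).1 (v (σ i0)).1 t)
        (B.1 - AffineMap.lineMap (v i0).1 (v (σ i0)).1 t) ≠ 0) := by
    have e1 : ∀ᶠ t in 𝓝[<] (1 : ℝ), ∀ j, j ≠ i0 →
        dt (AffineMap.lineMap (v i0).1 (v (σ i0)).1 t - (v j).1) (dd σ v j) ≠ 0 := by
      refine eventually_all.2 fun j => ?_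
      by_cases h1 : j = i0
      · exact Eventually.of_forall fun t h2 => absurd h1 h2
      · obtain ⟨t0, ht0⟩ := line_AC h h1
        filter_upwards [(aff_line _ _ _ _).ev_lt ht0 1] with t ht _ using ht
    have e2 : ∀ᶠ t in 𝓝[<] (1 : ℝ), ∀ i, i ≠ i0 → i ≠ σ i0 →
        dt ((v i).1 - AffineMap.lineMap (v i0).1 (v (σ i0)).1 t)
          (B.1 - AffineMap.lineMap (v i0).1 (v (σ i0)).1 t) ≠ 0 := by
      refine eventually_all.2 fun i => ?_
      obtain ⟨t0, ht0⟩ := line_B (z := (v i).1) h (by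
        have h1 := dt_ne_left (g2 h (h.s1 i).symm)
        exact h1.symm)
      filter_upwards [(aff_tri _ _ _ _).ev_lt ht0 1] with t ht _ _ using ht
    have e3 : ∀ᶠ t in 𝓝[<] (1 : ℝ), ∀ j l,
        dt (mp σ v j l - AffineMap.lineMap (v i0).1 (v (σ i0)).1 t)
          (B.1 - AffineMap.lineMap (v i0).1 (v (σ i0)).1 t) ≠ 0 := by
      refine eventually_all.2 fun j => eventually_all.2 fun l => ?_
      obtain ⟨t0, ht0⟩ := line_B h (mp_ne h j l)
      exact (aff_tri _ _ _ _).ev_lt ht0 1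
    exact (ev_10.and ((ev_end (by rw [dist_self]; exact hrC)).and (e1.and (e2.and e3)))).exists
  obtain ⟨c, hc⟩ : ∃ c : ℂ, c = AffineMap.lineMap (v i0).1 (v (σ i0)).1 τ2 := ⟨_, rfl⟩
  rw [← hc] at hbC2
  rw [← hc] at hl1C hl2C hl3C
  -- choice of `B2`
  obtain ⟨τB, hτB, hbB2, hl1B, hl2B⟩ : ∃ t : ℝ, (0 < t ∧ t < 1) ∧
      AffineMap.lineMap B.1 (v (σ i0)).1 t ∈ Metric.ball (v (σ i0)).1 rC ∧
      (∀ j, dt (AffineMap.lineMap B.1 (v (σ i0)).1 t - (v j).1) (dd σ v j) ≠ 0) ∧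
      (∀ i, i ≠ i0 → i ≠ σ i0 →
        dt ((v i).1 - c) (AffineMap.lineMap B.1 (v (σ i0)).1 t - c) ≠ 0) := by
    have e1 : ∀ᶠ t in 𝓝[<] (1 : ℝ), ∀ j,
        dt (AffineMap.lineMap B.1 (v (σ i0)).1 t - (v j).1) (dd σ v j) ≠ 0 := by
      refine eventually_all.2 fun j => ?_
      refine (aff_line _ _ _ _).ev_lt (t0 := 0) ?_ 1
      rw [AffineMap.lineMap_apply_zero]
      exact c3 h j
    have e2 : ∀ᶠ t in 𝓝[<] (1 : ℝ), ∀ i, i ≠ i0 → i ≠ σ i0 →
        dt ((v i).1 - c) (AffineMap.lineMap B.1 (v (σ i0)).1 t - c) ≠ 0 := by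
      refine eventually_all.2 fun i => ?_
      by_cases h1 : i ≠ i0 ∧ i ≠ σ i0
      · have h2 := (aff_line' B.1 (v (σ i0)).1 c ((v i).1 - c)).ev_lt (t0 := 0) (by
          rw [AffineMap.lineMap_apply_zero]
          exact hl2C i h1.1 h1.2) 1
        filter_upwards [h2] with t ht _ _ using ht
      · exact Eventually.of_forall fun t h2 h3 => absurd ⟨h2, h3⟩ h1
    exact (ev_10.and ((ev_end (by rw [dist_self]; exact hrC)).and (e1.and e2))).exists
  obtain ⟨b', hb'⟩ : ∃ c : ℂ, c = AffineMap.lineMap B.1 (v (σ i0)).1 τB := ⟨_, rfl⟩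
  rw [← hb'] at hbB2 hl1B hl2B
  -- choice of `B1`
  obtain ⟨τ1, hτ1, hbB1, hl1, hl2, hl3, hl4⟩ : ∃ t : ℝ, (0 < t ∧ t < 1) ∧
      AffineMap.lineMap (v i0).1 B.1 t ∈ Metric.ball (v i0).1 rA ∧
      (∀ j, dt (AffineMap.lineMap (v i0).1 B.1 t - (v j).1) (dd σ v j) ≠ 0) ∧
      (∀ i, i ≠ i0 → i ≠ σ i0 → dt ((v i).1 - AffineMap.lineMap (v i0).1 B.1 t)
        (c - AffineMap.lineMap (v i0).1 B.1 t) ≠ 0) ∧
      (∀ j l, dt (mp σ v j l - AffineMap.lineMap (v i0).1 B.1 t)
        (c - AffineMap.lineMap (v i0).1 B.1 t) ≠ 0) ∧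
      dt (AffineMap.lineMap (v i0).1 B.1 t - c) (b' - c) ≠ 0 := by
    have e1 : ∀ᶠ t in 𝓝[>] (0 : ℝ), ∀ j,
        dt (AffineMap.lineMap (v i0).1 B.1 t - (v j).1) (dd σ v j) ≠ 0 := by
      refine eventually_all.2 fun j => ?_
      refine (aff_line _ _ _ _).ev_gt (t0 := 1) ?_ 0
      rw [AffineMap.lineMap_apply_one]
      exact c3 h j
    have e2 : ∀ᶠ t in 𝓝[>] (0 : ℝ), ∀ i, i ≠ i0 → i ≠ σ i0 →
        dt ((v i).1 - AffineMap.lineMap (v i0).1 B.1 t)
          (c - AffineMap.lineMap (v i0).1 B.1 t) ≠ 0 := by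
      refine eventually_all.2 fun i => ?_
      by_cases h1 : i ≠ i0 ∧ i ≠ σ i0
      · have h2 := (aff_tri (v i0).1 B.1 (v i).1 c).ev_gt (t0 := 1) (by
          rw [AffineMap.lineMap_apply_one, dt_cyc]
          exact neg_ne_zero.2 (hl2C i h1.1 h1.2)) 0
        filter_upwards [h2] with t ht _ _ using ht
      · exact Eventually.of_forall fun t h2 h3 => absurd ⟨h2, h3⟩ h1
    have e3 : ∀ᶠ t in 𝓝[>] (0 : ℝ), ∀ j l, dt (mp σ v j l - AffineMap.lineMap (v i0).1 B.1 t)
        (c - AffineMap.lineMap (v i0).1 B.1 t) ≠ 0 := by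
      refine eventually_all.2 fun j => eventually_all.2 fun l => ?_
      refine (aff_tri (v i0).1 B.1 (mp σ v j l) c).ev_gt (t0 := 1) ?_ 0
      rw [AffineMap.lineMap_apply_one, dt_cyc]
      exact neg_ne_zero.2 (hl3C j l)
    have e4 : ∀ᶠ t in 𝓝[>] (0 : ℝ),
        dt (AffineMap.lineMap (v i0).1 B.1 t - c) (b' - c) ≠ 0 := by
      refine (aff_line (v i0).1 B.1 c (b' - c)).ev_gt (t0 := 0) ?_ 0
      rw [AffineMap.lineMap_apply_zero, hb', hc]
      have h1 := g2 h (h.s1 i0).symm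
      have h2 : dt ((v i0).1 - AffineMap.lineMap (v i0).1 (v (σ i0)).1 τ2)
          (AffineMap.lineMap B.1 (v (σ i0)).1 τB - AffineMap.lineMap (v i0).1 (v (σ i0)).1 τ2) =
          τ2 * (1 - τB) * dt (B.1 - (v i0).1) ((v (σ i0)).1 - (v i0).1) := by
        simp only [dt, Complex.sub_re, Complex.sub_im, lm_re, lm_im]
        ring
      rw [h2]
      exact mul_ne_zero (mul_ne_zero hτ2.1.ne' (sub_ne_zero.2 hτB.2.ne')) h1
    exact (ev_01.and ((ev_start (by rw [dist_self]; exact hrA)).and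
      (e1.and (e2.and (e3.and e4))))).exists
  obtain ⟨b1, hb1⟩ : ∃ c : ℂ, c = AffineMap.lineMap (v i0).1 B.1 τ1 := ⟨_, rfl⟩
  rw [← hb1] at hbB1 hl1 hl2 hl3 hl4
  -- choice of `C1`
  obtain ⟨τc, hτc, hbC1⟩ : ∃ t : ℝ, (0 < t ∧ t < 1) ∧
      AffineMap.lineMap (v i0).1 c t ∈ Metric.ball (v i0).1 rA :=
    (ev_01.and (ev_start (by rw [dist_self]; exact hrA))).exists
  -- choice of `D`
  obtain ⟨κ, hκ, hbD, hlD⟩ : ∃ t : ℝ, (0 < t ∧ t < 1) ∧
      AffineMap.lineMap b1 c t ∈ Metric.ball (v i0).1 rA ∧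
      (∀ j, dt (AffineMap.lineMap b1 c t - (v j).1) (dd σ v j) ≠ 0) := by
    have e1 : ∀ᶠ t in 𝓝[>] (0 : ℝ), ∀ j,
        dt (AffineMap.lineMap b1 c t - (v j).1) (dd σ v j) ≠ 0 := by
      refine eventually_all.2 fun j => ?_
      refine (aff_line _ _ _ _).ev_gt (t0 := 0) ?_ 0
      rw [AffineMap.lineMap_apply_zero]
      exact hl1 j
    exact (ev_01.and ((ev_start (Metric.mem_ball.1 hbB1)).and e1)).exists
  have p1 : (AffineMap.lineMap (v i0) (v (σ i0)) τ2 : E).1 = c := by rw [lm_fst, hc]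
  have p2 : (AffineMap.lineMap B (v (σ i0)) τB : E).1 = b' := by rw [lm_fst, hb']
  have p3 : (AffineMap.lineMap (v i0) B τ1 : E).1 = b1 := by rw [lm_fst, hb1]
  have p4 : (AffineMap.lineMap (v i0) (AffineMap.lineMap (v i0) (v (σ i0)) τ2 : E) τc : E).1 =
      AffineMap.lineMap (v i0).1 c τc := by rw [lm_fst, p1]
  have p5 : (AffineMap.lineMap (AffineMap.lineMap (v i0) B τ1 : E)
      (AffineMap.lineMap (v i0) (v (σ i0)) τ2 : E) κ : E).1 = AffineMap.lineMap b1 c κ := by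
    rw [lm_fst, p1, p3]
  have hullC : convexHull ℝ {c, b', (v (σ i0)).1} ⊆ Metric.closedBall (v (σ i0)).1 rC := by
    refine convexHull_min ?_ (convex_closedBall _ _)
    rintro x (rfl | rfl | rfl)
    · exact Metric.ball_subset_closedBall hbC2
    · exact Metric.ball_subset_closedBall hbB2
    · exact Metric.mem_closedBall_self hrC.le
  have hullA : convexHull ℝ {(v i0).1, b1, AffineMap.lineMap (v i0).1 c τc,
      AffineMap.lineMap b1 c κ} ⊆ Metric.closedBall (v i0).1 rA := by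
    refine convexHull_min ?_ (convex_closedBall _ _)
    rintro x (rfl | rfl | rfl | rfl)
    · exact Metric.mem_closedBall_self hrA.le
    · exact Metric.ball_subset_closedBall hbB1
    · exact Metric.ball_subset_closedBall hbC1
    · exact Metric.ball_subset_closedBall hbD
  refine ⟨AffineMap.lineMap (v i0) (v (σ i0)) τ2, AffineMap.lineMap B (v (σ i0)) τB,
    AffineMap.lineMap (v i0) B τ1, AffineMap.lineMap (v i0)
      (AffineMap.lineMap (v i0) (v (σ i0)) τ2 : E) τc,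
    AffineMap.lineMap (AffineMap.lineMap (v i0) B τ1 : E)
      (AffineMap.lineMap (v i0) (v (σ i0)) τ2 : E) κ,
    { base := h
      e1 := ⟨τ2, hτ2.1, hτ2.2, rfl⟩
      e2 := ⟨τB, hτB.1, hτB.2, rfl⟩
      e3 := ⟨τ1, hτ1.1, hτ1.2, rfl⟩
      e4 := ⟨τc, hτc.1, hτc.2, rfl⟩
      e5 := ⟨κ, hκ.1, hκ.2, rfl⟩
      fC := ?_
      fW := ?_
      fA := ?_
      fZ := ?_
      fAC := ?_
      l1 := ?_
      l2 := ?_
      l3 := ?_
      l4 := ?_ }⟩
  · intro j h1 h2
    rw [p1, p2]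
    exact (hdC1 j h1 h2).mono_right hullC
  · rw [p1, p2]
    exact fun hm => hdC2 (hullC hm)
  · intro j h1 h2
    rw [p3, p4, p5]
    exact (hdA1 j h1 h2).mono_right hullA
  · rw [p3, p4, p5]
    exact fun hm => hdA2 (hullA hm)
  · rw [p1, p2, p3, p4, p5]
    exact hdA3.mono hullA hullC
  · intro j h1
    rw [p1, p2, p3, p5]
    exact ⟨hl1C j h1, hl1B j, hl1 j, hlD j⟩
  · intro i h1 h2
    rw [p1, p2, p3]
    exact ⟨hl2B i h1 h2, hl2 i h1 h2, hl2C i h1 h2⟩
  · intro j l _ _ _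
    rw [p1, p3]
    exact ⟨hl3 j l, hl3C j l⟩
  · rw [p1, p2, p3]
    exact hl4

end Pool.Agent.Lib.MP_ca0971_gt.OT
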