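import Pool.Agent.Lib.MP_ca0971_gt.OT.Tri.G3b

/-!
# Project OT, Tri: the polygon w3', edges and crossings
-/

set_option autoImplicit false

namespace Pool.Agent.Lib.MP_ca0971_gt.OT

open Finset Filter Topology

/-! ### Crossings -/

section

variable {I : Type} {σ : Equiv.Perm I}

theorem g3_mem1 {v : I → E} {i j : I} (h : Crs σ v i j) : mp σ v i j ∈ sg σ v i := by
  unfold sg
  rw [segment_eq_image_lineMap]
  refine ⟨par σ v i j, ⟨h.2.2.1.le, h.2.2.2.1.le⟩, ?_⟩
  rw [AffineMap.lineMap_apply_module']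
  unfold mp dd
  simp only [Complex.real_smul]
  ring

theorem g3_mem2 {v : I → E} {i j : I} (h : Crs σ v i j) : mp σ v i j ∈ sg σ v j := by
  rw [mp_symm v h.2.1]
  exact g3_mem1 h.symm'

theorem g3_ncrs {v : I → E} {i j : I} (h : Disjoint (sg σ v i) (sg σ v j)) : ¬ Crs σ v i j :=
  fun hc => Set.disjoint_left.1 h (g3_mem1 hc) (g3_mem2 hc)

/-- The crossing point is on the line of the edge. -/
theorem g3_on (v : I → E) (i j : I) : dt (mp σ v i j - (v i).1) (dd σ v i) = 0 := by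
  unfold mp dt
  simp only [Complex.add_re, Complex.add_im, Complex.sub_re, Complex.sub_im,
    Complex.re_ofReal_mul, Complex.im_ofReal_mul]
  ring

end

variable {I : Type} [Fintype I] [DecidableEq I] {σ : Equiv.Perm I}

omit [Fintype I] in
theorem g3_adj {i0 j k : I} (hj : j ≠ i0) (hk : k ≠ i0) (h : Adj σ j k) :
    Adj (sA3 σ i0) (some (some (some j))) (some (some (some k))) := by
  rcases h with rfl | rfl | rfl
  · exact Or.inl rfl
  · exact Or.inr (Or.inl (g3_b σ hj).symm)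
  · exact Or.inr (Or.inr (g3_b σ hk).symm)

section

variable {v : I → E} {i0 : I} {B2 B1 C2 : E}

omit [Fintype I] in
theorem g3_ddb {j : I} (hj : j ≠ i0) :
    dd (sA3 σ i0) (insV (insV (insV v C2) B2) B1) (some (some (some j))) = dd σ v j := by
  unfold dd
  rw [g3_b σ hj]
  rfl

omit [Fintype I] in
theorem g3_sgb {j : I} (hj : j ≠ i0) :
    sg (sA3 σ i0) (insV (insV (insV v C2) B2) B1) (some (some (some j))) = sg σ v j := by
  unfold sg
  rw [g3_b σ hj]
  rfl

omit [Fintype I] in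
theorem g3_sga : sg (sA3 σ i0) (insV (insV (insV v C2) B2) B1) (some (some (some i0))) =
    segment ℝ (v i0).1 B1.1 := by
  unfold sg
  rw [g3_a]
  rfl

omit [Fintype I] in
theorem g3_sgm : sg (sA3 σ i0) (insV (insV (insV v C2) B2) B1) none =
    segment ℝ B1.1 C2.1 := by
  unfold sg
  rw [g3_m]
  rfl

omit [Fintype I] in
theorem g3_sgn : sg (sA3 σ i0) (insV (insV (insV v C2) B2) B1) (some (some none)) =
    segment ℝ C2.1 B2.1 := by
  unfold sg
  rw [g3_n]
  rfl

omit [Fintype I] in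
theorem g3_sgr : sg (sA3 σ i0) (insV (insV (insV v C2) B2) B1) (some none) =
    segment ℝ B2.1 (v (σ i0)).1 := by
  unfold sg
  rw [g3_r]
  rfl

omit [Fintype I] in
theorem g3_parb {j k : I} (hj : j ≠ i0) (hk : k ≠ i0) :
    par (sA3 σ i0) (insV (insV (insV v C2) B2) B1) (some (some (some j)))
      (some (some (some k))) = par σ v j k := by
  unfold par
  rw [g3_ddb hj, g3_ddb hk]
  rfl

omit [Fintype I] in
theorem g3_crsb {j k : I} (hj : j ≠ i0) (hk : k ≠ i0)
    (h : Crs (sA3 σ i0) (insV (insV (insV v C2) B2) B1) (some (some (some j)))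
      (some (some (some k)))) : Crs σ v j k := by
  obtain ⟨h1, h2, h3, h4, h5, h6⟩ := h
  rw [g3_parb hj hk] at h3 h4
  rw [g3_parb hk hj] at h5 h6
  rw [g3_ddb hj, g3_ddb hk] at h2
  exact ⟨fun e => h1 (g3_adj hj hk e), h2, h3, h4, h5, h6⟩

omit [Fintype I] in
theorem g3_mpb {j k : I} (hj : j ≠ i0) (hk : k ≠ i0) :
    mp (sA3 σ i0) (insV (insV (insV v C2) B2) B1) (some (some (some j)))
      (some (some (some k))) = mp σ v j k := by
  unfold mp
  rw [g3_parb hj hk, g3_ddb hj]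
  rfl

end

/-- Old vertices are not collinear. -/
theorem TriC.g3_gp {v : I → E} {i0 : I} {B C2 B2 B1 C1 D : E} (h : TriC σ v i0 B C2 B2 B1 C1 D)
    {a b c : I} (ab : a ≠ b) (ac : a ≠ c) (bc : b ≠ c) :
    dt ((v b).1 - (v a).1) ((v c).1 - (v a).1) ≠ 0 :=
  h.base.gp.1 (some a) (some b) (some c) (fun e => ab (Option.some_injective _ e))
    (fun e => ac (Option.some_injective _ e)) (fun e => bc (Option.some_injective _ e))

theorem TriC.g3_corner {v : I → E} {i0 : I} {B C2 B2 B1 C1 D : E}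
    (h : TriC σ v i0 B C2 B2 B1 C1 D) (i : I) : dt (dd σ v i) (dd σ v (σ i)) ≠ 0 := by
  have h1 := h.g3_gp (a := i) (b := σ i) (c := σ (σ i)) (h.base.s1 i).symm (h.base.s2 i).symm
    (h.base.s1 (σ i)).symm
  intro h3
  apply h1
  unfold dd at h3
  unfold dt at h3 ⊢
  simp only [Complex.sub_re, Complex.sub_im] at h3 ⊢
  linear_combination h3

/-- Two old edges with a common interior point cross. -/
theorem TriC.g3_meet {v : I → E} {i0 : I} {B C2 B2 B1 C1 D : E} (h : TriC σ v i0 B C2 B2 B1 C1 D)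
    {j k : I} (hjk : j ≠ k) {t t' : ℝ} (t0 : 0 < t) (t1 : t < 1) (t0' : 0 < t') (t1' : t' < 1)
    (hz : (v j).1 + (t : ℂ) * dd σ v j = (v k).1 + (t' : ℂ) * dd σ v k) :
    Crs σ v j k ∧ mp σ v j k = (v j).1 + (t : ℂ) * dd σ v j := by
  have hadj : ¬ Adj σ j k := by
    rintro (e | e | e)
    · exact hjk e
    · rw [e] at hz
      exact corner_ne (h.g3_corner j) t1.ne hz
    · rw [e] at hz
      exact corner_ne (h.g3_corner k) t1'.ne hz.symm
  have k1 := congrArg Complex.re hz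
  have k2 := congrArg Complex.im hz
  simp only [Complex.add_re, Complex.add_im, Complex.re_ofReal_mul, Complex.im_ofReal_mul]
    at k1 k2
  have hd : dt (dd σ v j) (dd σ v k) ≠ 0 := by
    intro hd
    unfold Adj at hadj
    push Not at hadj
    have g := h.g3_gp (a := k) (b := σ k) (c := j) (h.base.s1 k).symm hjk.symm
      hadj.2.2.symm
    apply g
    change dt (dd σ v k) ((v j).1 - (v k).1) = 0
    unfold dt at hd ⊢
    simp only [Complex.sub_re, Complex.sub_im]
    linear_combination (-(dd σ v k).im) * k1 + (dd σ v k).re * k2 + t * hd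
  obtain ⟨p1, p2⟩ := par_unique v hd hz
  refine ⟨⟨hadj, hd, ?_, ?_, ?_, ?_⟩, ?_⟩
  · rw [← p1]
    exact t0
  · rw [← p1]
    exact t1
  · rw [← p2]
    exact t0'
  · rw [← p2]
    exact t1'
  · unfold mp
    rw [← p1]

/-- The segment A B1 is in the hull near A. -/
theorem g3_hA (A B1 C1 D : E) :
    segment ℝ A.1 B1.1 ⊆ convexHull ℝ {A.1, B1.1, C1.1, D.1} :=
  (convex_convexHull ℝ _).segment_subset (subset_convexHull ℝ _ (by simp))
    (subset_convexHull ℝ _ (by simp))

theorem g3_hn (C2 B2 C : E) : segment ℝ C2.1 B2.1 ⊆ convexHull ℝ {C2.1, B2.1, C.1} :=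
  (convex_convexHull ℝ _).segment_subset (subset_convexHull ℝ _ (by simp))
    (subset_convexHull ℝ _ (by simp))

theorem g3_hr (C2 B2 C : E) : segment ℝ B2.1 C.1 ⊆ convexHull ℝ {C2.1, B2.1, C.1} :=
  (convex_convexHull ℝ _).segment_subset (subset_convexHull ℝ _ (by simp))
    (subset_convexHull ℝ _ (by simp))

section

variable {v : I → E} {i0 : I} {B C2 B2 B1 C1 D : E}

/-- Nothing crosses A B1. -/
theorem TriC.g3_Na (h : TriC σ v i0 B C2 B2 B1 C1 D) (y : Option (Option (Option I))) :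
    ¬ Crs (sA3 σ i0) (insV (insV (insV v C2) B2) B1) (some (some (some i0))) y := by
  have p := h.g3_pl
  rcases g3_cases (i0 := i0) y with rfl | rfl | rfl | rfl | ⟨j, hj, rfl⟩
  · exact fun hc => hc.1 (Or.inr (Or.inl (g3_a σ i0).symm))
  · refine g3_ncrs ?_
    rw [g3_sga, g3_sgr]
    exact p.ar
  · refine g3_ncrs ?_
    rw [g3_sga, g3_sgn]
    exact p.an
  · exact fun hc => hc.1 (Or.inl rfl)
  · by_cases e : σ j = i0
    · exact fun hc => hc.1 (Or.inr (Or.inr (by rw [g3_b σ hj, e])))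
    · refine g3_ncrs ?_
      rw [g3_sga, g3_sgb hj]
      exact ((h.fA j hj e).mono_right (g3_hA _ _ _ _)).symm

/-- Nothing crosses B2 C. -/
theorem TriC.g3_Nr (h : TriC σ v i0 B C2 B2 B1 C1 D) (y : Option (Option (Option I))) :
    ¬ Crs (sA3 σ i0) (insV (insV (insV v C2) B2) B1) (some none) y := by
  have p := h.g3_pl
  rcases g3_cases (i0 := i0) y with rfl | rfl | rfl | rfl | ⟨j, hj, rfl⟩
  · refine g3_ncrs ?_
    rw [g3_sgm, g3_sgr]
    exact p.mr.symm
  · exact fun hc => hc.1 (Or.inl rfl)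
  · exact fun hc => hc.1 (Or.inr (Or.inr (g3_n σ i0).symm))
  · exact fun hc => h.g3_Na _ hc.symm'
  · by_cases e : j = σ i0
    · exact fun hc => hc.1 (Or.inr (Or.inl (by rw [g3_r, e])))
    · refine g3_ncrs ?_
      rw [g3_sgr, g3_sgb hj]
      exact ((h.fC j hj e).mono_right (g3_hr _ _ _)).symm

/-- Only the edge which starts in C can cross C2 B2. -/
theorem TriC.g3_Nn (h : TriC σ v i0 B C2 B2 B1 C1 D) {y : Option (Option (Option I))}
    (hc : Crs (sA3 σ i0) (insV (insV (insV v C2) B2) B1) (some (some none)) y) :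
    y = some (some (some (σ i0))) := by
  rcases g3_cases (i0 := i0) y with rfl | rfl | rfl | rfl | ⟨j, hj, rfl⟩
  · exact (hc.1 (Or.inr (Or.inr (g3_m σ i0).symm))).elim
  · exact (h.g3_Nr _ hc.symm').elim
  · exact (hc.1 (Or.inl rfl)).elim
  · exact (h.g3_Na _ hc.symm').elim
  · by_cases e : j = σ i0
    · rw [e]
    · refine (g3_ncrs ?_ hc).elim
      rw [g3_sgn, g3_sgb hj]
      exact ((h.fC j hj e).mono_right (g3_hn _ _ _)).symm

/-- Only old edges can cross B1 C2. -/
theorem TriC.g3_Nm (h : TriC σ v i0 B C2 B2 B1 C1 D) {y : Option (Option (Option I))}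
    (hc : Crs (sA3 σ i0) (insV (insV (insV v C2) B2) B1) none y) :
    ∃ j, j ≠ i0 ∧ y = some (some (some j)) := by
  rcases g3_cases (i0 := i0) y with rfl | rfl | rfl | rfl | ⟨j, hj, rfl⟩
  · exact (hc.1 (Or.inl rfl)).elim
  · exact (h.g3_Nr _ hc.symm').elim
  · exact (hc.1 (Or.inr (Or.inl (g3_m σ i0).symm))).elim
  · exact (h.g3_Na _ hc.symm').elim
  · exact ⟨j, hj, rfl⟩

/-- The line of B1 C2 contains no crossing point of old edges. -/
theorem TriC.g3_l3 (h : TriC σ v i0 B C2 B2 B1 C1 D) {j l : I} (hj : j ≠ i0) (hl : l ≠ i0)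
    (hc : Crs σ v j l) {y : Option (Option (Option I))}
    (e : mp σ v j l = mp (sA3 σ i0) (insV (insV (insV v C2) B2) B1) none y) : False := by
  have h1 := (h.l3 j l hj hl hc).1
  rw [e] at h1
  have h2 := g3_on (σ := sA3 σ i0) (insV (insV (insV v C2) B2) B1) none y
  apply h1
  have h3 : dd (sA3 σ i0) (insV (insV (insV v C2) B2) B1) none = C2.1 - B1.1 := by
    unfold dd
    rw [g3_m]
    rfl
  rw [h3] at h2
  exact h2

end

end Pool.Agent.Lib.MP_ca0971_gt.OT
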