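import Pool.Agent.Lib.MP_ca0971_gt.OT.Tri.S12
import Pool.Agent.Lib.MP_ca0971_gt.OT.Tri.G3c

/-!
# Project OT, Tri: the polygon w3' = A B1 C2 B2 C is generic

Compare with w2 = A C2 B2 C, which is generic: the edge A C2 is replaced by A B1 (inside the hull near
A, so it meets no edge except ZA in A) and B1 C2 (no base vertex on its line and no crossing point of base
edges on its line, l2, l3; C2 is on no base line; it meets the edges C2 B2, B2 C only in C2 resp. not at
all: plane geometry in the triangle, l4). Heights: the new edges are in the triangle, the base edges meet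
it only in A and C (hgt_of_dis style argument).
-/

set_option autoImplicit false

namespace Pool.Agent.Lib.MP_ca0971_gt.OT

open Finset Filter Topology

variable {I : Type} [Fintype I] [DecidableEq I] {σ : Equiv.Perm I}

/-- The polygon w3' is embedded in space. -/
theorem TriC.dis3 {v : I → E} {i0 : I} {B C2 B2 B1 C1 D : E} (h : TriC σ v i0 B C2 B2 B1 C1 D)
    (i j : Option (Option (Option I))) (hij : ¬ Adj (sA3 σ i0) i j) :
    Disjoint (segment ℝ (insV (insV (insV v C2) B2) B1 i)
        (insV (insV (insV v C2) B2) B1 (sA3 σ i0 i)))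
      (segment ℝ (insV (insV (insV v C2) B2) B1 j)
        (insV (insV (insV v C2) B2) B1 (sA3 σ i0 j))) := by
  have p := h.g3_pl
  obtain ⟨hA, hC, hC2, hB2, hB1⟩ := h.g3_hull
  have an : Disjoint (segment ℝ (v i0) B1) (segment ℝ C2 B2) := g3_lift p.an
  have ar : Disjoint (segment ℝ (v i0) B1) (segment ℝ B2 (v (σ i0))) := g3_lift p.ar
  have mr : Disjoint (segment ℝ B1 C2) (segment ℝ B2 (v (σ i0))) := g3_lift p.mr
  have ab : ∀ j, j ≠ i0 → σ j ≠ i0 →
      Disjoint (segment ℝ (v i0) B1) (segment ℝ (v j) (v (σ j))) := fun j hj e =>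
    h.g3_old hA hB1 hj (fun _ => e) fun k => (p.Ca k).elim
  have mb : ∀ j, j ≠ i0 → Disjoint (segment ℝ B1 C2) (segment ℝ (v j) (v (σ j))) :=
    fun j hj => h.g3_old hB1 hC2 hj (fun k => (p.Am k).elim) fun k => (p.Cm k).elim
  have nb : ∀ j, j ≠ i0 → Disjoint (segment ℝ C2 B2) (segment ℝ (v j) (v (σ j))) :=
    fun j hj => h.g3_old hC2 hB2 hj (fun k => (p.An k).elim) fun k => (p.Cn k).elim
  have rb : ∀ j, j ≠ i0 → j ≠ σ i0 →
      Disjoint (segment ℝ B2 (v (σ i0))) (segment ℝ (v j) (v (σ j))) := fun j hj e =>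
    h.g3_old hB2 hC hj (fun k => (p.Ar k).elim) fun _ => e
  have ea := g3_a σ i0
  have em := g3_m σ i0
  have en := g3_n σ i0
  have er := g3_r σ i0
  rcases g3_cases (i0 := i0) i with rfl | rfl | rfl | rfl | ⟨i, hi, rfl⟩ <;>
    rcases g3_cases (i0 := i0) j with rfl | rfl | rfl | rfl | ⟨j, hj, rfl⟩
  · exact (hij (Or.inl rfl)).elim
  · rw [em, er]
    exact mr
  · exact (hij (Or.inr (Or.inl em.symm))).elim
  · exact (hij (Or.inr (Or.inr ea.symm))).elim
  · rw [em, g3_b σ hj]
    exact mb j hj
  · rw [em, er]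
    exact mr.symm
  · exact (hij (Or.inl rfl)).elim
  · exact (hij (Or.inr (Or.inr en.symm))).elim
  · rw [er, ea]
    exact ar.symm
  · rw [er, g3_b σ hj]
    refine rb j hj fun e => hij (Or.inr (Or.inl ?_))
    rw [er, e]
  · exact (hij (Or.inr (Or.inr em.symm))).elim
  · exact (hij (Or.inr (Or.inl en.symm))).elim
  · exact (hij (Or.inl rfl)).elim
  · rw [en, ea]
    exact an.symm
  · rw [en, g3_b σ hj]
    exact nb j hj
  · exact (hij (Or.inr (Or.inl ea.symm))).elim
  · rw [er, ea]
    exact ar
  · rw [en, ea]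
    exact an
  · exact (hij (Or.inl rfl)).elim
  · rw [ea, g3_b σ hj]
    refine ab j hj fun e => hij (Or.inr (Or.inr ?_))
    rw [g3_b σ hj, e]
  · rw [em, g3_b σ hi]
    exact (mb i hi).symm
  · rw [er, g3_b σ hi]
    refine (rb i hi fun e => hij (Or.inr (Or.inr ?_))).symm
    rw [er, e]
  · rw [en, g3_b σ hi]
    exact (nb i hi).symm
  · rw [ea, g3_b σ hi]
    refine (ab i hi fun e => hij (Or.inr (Or.inl ?_))).symm
    rw [g3_b σ hi, e]
  · rw [g3_b σ hi, g3_b σ hj]
    exact h.base.dis i j fun e => hij (g3_adj hi hj e)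

/-- Directions of the new edges. -/
theorem TriC.g3_slit {v : I → E} {i0 : I} {B C2 B2 B1 C1 D : E} (h : TriC σ v i0 B C2 B2 B1 C1 D)
    (x : Option (Option (Option I))) :
    dt (dd (sA3 σ i0) (insV (insV (insV v C2) B2) B1) x)
      (dd (sA3 σ i0) (insV (insV (insV v C2) B2) B1) (sA3 σ i0 x)) ≠ 0 := by
  have p := h.g3_pl
  have ea := g3_a σ i0
  have em := g3_m σ i0
  have en := g3_n σ i0
  have er := g3_r σ i0
  have s1 : σ i0 ≠ i0 := h.base.s1 i0
  have da : dd (sA3 σ i0) (insV (insV (insV v C2) B2) B1) (some (some (some i0))) =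
      B1.1 - (v i0).1 := by
    unfold dd
    rw [ea]
    rfl
  have dm : dd (sA3 σ i0) (insV (insV (insV v C2) B2) B1) none = C2.1 - B1.1 := by
    unfold dd
    rw [em]
    rfl
  have dn : dd (sA3 σ i0) (insV (insV (insV v C2) B2) B1) (some (some none)) = B2.1 - C2.1 := by
    unfold dd
    rw [en]
    rfl
  have dr : dd (sA3 σ i0) (insV (insV (insV v C2) B2) B1) (some none) =
      (v (σ i0)).1 - B2.1 := by
    unfold dd
    rw [er]
    rfl
  obtain ⟨b2, b20, b21, f2⟩ := h.e2
  obtain ⟨b1, b10, b11, f1⟩ := h.e3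
  rcases g3_cases (i0 := i0) x with rfl | rfl | rfl | rfl | ⟨i, hi, rfl⟩
  · rw [em, dm, dn]
    intro e
    apply h.l4
    unfold dt at e ⊢
    simp only [Complex.sub_re, Complex.sub_im] at e ⊢
    linear_combination -e
  · rw [er, dr, g3_ddb s1]
    have k := h.base.gp.1 (some (σ i0)) none (some (σ (σ i0))) (Option.some_ne_none _)
      (fun e => h.base.s1 (σ i0) (Option.some_injective _ e).symm) (Option.some_ne_none _).symm
    change dt (B.1 - (v (σ i0)).1) ((v (σ (σ i0))).1 - (v (σ i0)).1) ≠ 0 at k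
    have e : dt ((v (σ i0)).1 - B2.1) (dd σ v (σ i0)) =
        -(1 - b2) * dt (B.1 - (v (σ i0)).1) ((v (σ (σ i0))).1 - (v (σ i0)).1) := by
      rw [f2, g3_line]
      unfold dd dt
      simp only [Complex.add_re, Complex.add_im, Complex.sub_re, Complex.sub_im,
        Complex.re_ofReal_mul, Complex.im_ofReal_mul]
      ring
    rw [e]
    exact mul_ne_zero (by linarith) k
  · rw [en, dn, dr]
    exact p.dnr
  · rw [ea, da, dm]
    exact p.dam
  · by_cases e0 : σ i = i0
    · rw [g3_b σ hi, e0, da, g3_ddb hi]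
      have k := h.base.gp.1 (some i0) none (some i) (Option.some_ne_none _)
        (fun e => hi (Option.some_injective _ e).symm) (Option.some_ne_none _).symm
      change dt (B.1 - (v i0).1) ((v i).1 - (v i0).1) ≠ 0 at k
      have e : dt (dd σ v i) (B1.1 - (v i0).1) =
          b1 * dt (B.1 - (v i0).1) ((v i).1 - (v i0).1) := by
        rw [f1, g3_line]
        unfold dd dt
        rw [e0]
        simp only [Complex.add_re, Complex.add_im, Complex.sub_re, Complex.sub_im,
          Complex.re_ofReal_mul, Complex.im_ofReal_mul]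
        ring
      rw [e]
      exact mul_ne_zero b10.ne' k
    · rw [g3_b σ hi, g3_ddb hi, g3_ddb e0]
      exact h.g3_corner i

theorem TriC.g3_ver {v : I → E} {i0 : I} {B C2 B2 B1 C1 D : E} (h : TriC σ v i0 B C2 B2 B1 C1 D)
    (x y : Option (Option (Option I))) (hy : y ≠ x) (hy' : sA3 σ i0 y ≠ x) :
    (insV (insV (insV v C2) B2) B1 x).1 ∉ sg (sA3 σ i0) (insV (insV (insV v C2) B2) B1) y := by
  have p := h.g3_pl
  have ea := g3_a σ i0
  have em := g3_m σ i0
  have en := g3_n σ i0
  have er := g3_r σ i0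
  rcases g3_cases (i0 := i0) y with rfl | rfl | rfl | rfl | ⟨j, hj, rfl⟩
  · -- the edge B1 C2
    rw [g3_sgm]
    rcases x with _ | _ | _ | i
    · exact (hy rfl).elim
    · refine g3_off fun e => h.l4 ?_
      change dt (B2.1 - B1.1) (C2.1 - B1.1) = 0 at e
      unfold dt at e ⊢
      simp only [Complex.sub_re, Complex.sub_im] at e ⊢
      linear_combination e
    · exact (hy' em).elim
    · by_cases e1 : i = i0
      · rw [e1]
        exact p.Am
      by_cases e2 : i = σ i0
      · rw [e2]
        exact p.Cm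
      exact g3_off (h.l2 i e1 e2).2.1
  · -- the edge B2 C
    rw [g3_sgr]
    rcases x with _ | _ | _ | i
    · exact p.B1r
    · exact (hy rfl).elim
    · exact p.C2r
    · by_cases e2 : i = σ i0
      · exact (hy' (by rw [er, e2])).elim
      · exact h.g3_verR e2
  · -- the edge C2 B2
    rw [g3_sgn]
    rcases x with _ | _ | _ | i
    · exact g3_off h.l4
    · exact (hy' en).elim
    · exact (hy rfl).elim
    · by_cases e1 : i = i0
      · rw [e1]
        exact p.An
      by_cases e2 : i = σ i0
      · rw [e2]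
        exact p.Cn
      exact g3_off (h.l2 i e1 e2).1
  · -- the edge A B1
    rw [g3_sga]
    rcases x with _ | _ | _ | i
    · exact (hy' ea).elim
    · exact p.B2a
    · exact p.C2a
    · by_cases e1 : i = i0
      · exact (hy (by rw [e1])).elim
      · exact h.g3_verA e1
  · -- an old edge
    rw [g3_sgb hj]
    rcases x with _ | _ | _ | i
    · exact g3_off (h.l1 j hj).2.2.1
    · exact g3_off (h.l1 j hj).2.1
    · exact g3_off (h.l1 j hj).1
    · refine h.base.gen.ver i j (fun e => hy (by rw [e])) fun e => hy' ?_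
      rw [g3_b σ hj, e]

theorem TriC.g3_trp {v : I → E} {i0 : I} {B C2 B2 B1 C1 D : E} (h : TriC σ v i0 B C2 B2 B1 C1 D)
    (x y z : Option (Option (Option I)))
    (hy : Crs (sA3 σ i0) (insV (insV (insV v C2) B2) B1) x y)
    (hz : Crs (sA3 σ i0) (insV (insV (insV v C2) B2) B1) x z)
    (e : par (sA3 σ i0) (insV (insV (insV v C2) B2) B1) x y =
      par (sA3 σ i0) (insV (insV (insV v C2) B2) B1) x z) : y = z := by
  have em : mp (sA3 σ i0) (insV (insV (insV v C2) B2) B1) x y =
      mp (sA3 σ i0) (insV (insV (insV v C2) B2) B1) x z := by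
    unfold mp
    rw [e]
  rcases g3_cases (i0 := i0) x with rfl | rfl | rfl | rfl | ⟨i, hi, rfl⟩
  · -- the edge B1 C2
    obtain ⟨j, hj, rfl⟩ := h.g3_Nm hy
    obtain ⟨k, hk, rfl⟩ := h.g3_Nm hz
    by_contra hjk
    have hjk' : j ≠ k := fun e => hjk (by rw [e])
    have m1 := mp_symm (σ := sA3 σ i0) (insV (insV (insV v C2) B2) B1) hy.2.1
    have m2 := mp_symm (σ := sA3 σ i0) (insV (insV (insV v C2) B2) B1) hz.2.1
    have m3 := m1.symm.trans (em.trans m2)
    unfold mp at m3
    rw [g3_ddb hj, g3_ddb hk] at m3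
    obtain ⟨hc, e4⟩ := h.g3_meet hjk' hy.2.2.2.2.1 hy.2.2.2.2.2 hz.2.2.2.2.1 hz.2.2.2.2.2 m3
    refine h.g3_l3 hj hk hc (y := some (some (some j))) ?_
    rw [e4, m1]
    unfold mp
    rw [g3_ddb hj]
    rfl
  · exact (h.g3_Nr _ hy).elim
  · rw [h.g3_Nn hy, h.g3_Nn hz]
  · exact (h.g3_Na _ hy).elim
  · -- an old edge
    have one : ∀ y z, Crs (sA3 σ i0) (insV (insV (insV v C2) B2) B1) (some (some (some i))) y →
        Crs (sA3 σ i0) (insV (insV (insV v C2) B2) B1) (some (some (some i))) z →
        mp (sA3 σ i0) (insV (insV (insV v C2) B2) B1) (some (some (some i))) y =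
          mp (sA3 σ i0) (insV (insV (insV v C2) B2) B1) (some (some (some i))) z →
        (∃ j, j ≠ i0 ∧ y = some (some (some j))) → (z = none ∨ z = some (some none)) →
        False := by
      rintro y z hy hz e ⟨j, hj, rfl⟩ (rfl | rfl)
      · refine h.g3_l3 hi hj (g3_crsb hi hj hy) (y := some (some (some i))) ?_
        rw [← g3_mpb hi hj, e]
        exact mp_symm (σ := sA3 σ i0) (insV (insV (insV v C2) B2) B1) hz.2.1
      · have e1 := h.g3_Nn hz.symm'
        have e2 : i = σ i0 :=
          Option.some_injective _ (Option.some_injective _ (Option.some_injective _ e1))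
        have m1 := g3_mem2 hy
        rw [g3_sgb hj] at m1
        have m2 := g3_mem2 hz
        rw [g3_sgn] at m2
        rw [e] at m1
        have hji : j ≠ σ i0 := by
          rintro rfl
          rw [e2] at hy
          exact hy.1 (Or.inl rfl)
        exact Set.disjoint_left.1 (h.fC j hj hji) m1 (g3_hn _ _ _ m2)
    have two : ∀ y, Crs (sA3 σ i0) (insV (insV (insV v C2) B2) B1) (some (some (some i))) y →
        (∃ j, j ≠ i0 ∧ y = some (some (some j))) ∨ (y = none ∨ y = some (some none)) := by
      intro y hy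
      rcases g3_cases (i0 := i0) y with rfl | rfl | rfl | rfl | ⟨j, hj, rfl⟩
      · exact Or.inr (Or.inl rfl)
      · exact (h.g3_Nr _ hy.symm').elim
      · exact Or.inr (Or.inr rfl)
      · exact (h.g3_Na _ hy.symm').elim
      · exact Or.inl ⟨j, hj, rfl⟩
    have three : Crs (sA3 σ i0) (insV (insV (insV v C2) B2) B1) (some (some (some i))) none →
        Crs (sA3 σ i0) (insV (insV (insV v C2) B2) B1) (some (some (some i)))
          (some (some none)) →
        mp (sA3 σ i0) (insV (insV (insV v C2) B2) B1) (some (some (some i))) none =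
          mp (sA3 σ i0) (insV (insV (insV v C2) B2) B1) (some (some (some i)))
            (some (some none)) → False := by
      intro hy hz e
      have m1 := mp_symm (σ := sA3 σ i0) (insV (insV (insV v C2) B2) B1) hy.2.1
      have m2 := mp_symm (σ := sA3 σ i0) (insV (insV (insV v C2) B2) B1) hz.2.1
      have m3 := m1.symm.trans (e.trans m2)
      unfold mp at m3
      have c := h.g3_slit none
      have c' := corner_ne (σ := sA3 σ i0) (v := insV (insV (insV v C2) B2) B1) (j := none) c
        (a := par (sA3 σ i0) (insV (insV (insV v C2) B2) B1) none (some (some (some i))))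
        (b := par (sA3 σ i0) (insV (insV (insV v C2) B2) B1) (some (some none))
          (some (some (some i)))) hy.2.2.2.2.2.ne
      rw [g3_m] at c'
      exact c' m3
    rcases two y hy with hy1 | hy1 <;> rcases two z hz with hz1 | hz1
    · obtain ⟨j, hj, rfl⟩ := hy1
      obtain ⟨k, hk, rfl⟩ := hz1
      have e1 := e
      rw [g3_parb hi hj, g3_parb hi hk] at e1
      rw [h.base.gen.trp i j k (g3_crsb hi hj hy) (g3_crsb hi hk hz) e1]
    · exact (one y z hy hz em hy1 hz1).elim
    · exact (one z y hz hy em.symm hz1 hy1).elim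
    · rcases hy1 with rfl | rfl <;> rcases hz1 with rfl | rfl
      · rfl
      · exact (three hy hz em).elim
      · exact (three hz hy em.symm).elim
      · rfl

theorem TriC.gen3 {v : I → E} {i0 : I} {B C2 B2 B1 C1 D : E} (h : TriC σ v i0 B C2 B2 B1 C1 D) :
    Gen (sA3 σ i0) (insV (insV (insV v C2) B2) B1) where
  slit x := slit_of_dt (h.g3_slit x)
  ver := h.g3_ver
  trp := h.g3_trp
  hgt := hgt_of_dis h.dis3

end Pool.Agent.Lib.MP_ca0971_gt.OT
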