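import Pool.Agent.Lib.MP_ca0971_gt.OT.Tri.Base

/-!
# Project OT, Tri: tools for the polygon w3'

Planar coordinates in the triangle, the next-vertex permutation and the edges of w3'.
-/

set_option autoImplicit false

namespace Pool.Agent.Lib.MP_ca0971_gt.OT

open Finset Filter Topology

/-! ### Planar coordinates -/

/-- The planar point with the coordinates l, m. -/
noncomputable def g3P (A B C : E) (l m : ℝ) : ℂ :=
  A.1 + (l : ℂ) * (B.1 - A.1) + (m : ℂ) * (C.1 - A.1)

theorem g3_dt (A B C : E) (l m l0 m0 l' m' l1 m1 : ℝ) :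
    dt (g3P A B C l m - g3P A B C l0 m0) (g3P A B C l' m' - g3P A B C l1 m1) =
      ((l - l0) * (m' - m1) - (m - m0) * (l' - l1)) * dt (B.1 - A.1) (C.1 - A.1) := by
  unfold dt g3P
  simp only [Complex.add_re, Complex.add_im, Complex.sub_re, Complex.sub_im,
    Complex.re_ofReal_mul, Complex.im_ofReal_mul]
  ring

theorem g3_inj {A B C : E} (hnd : dt (B.1 - A.1) (C.1 - A.1) ≠ 0) {l m l' m' : ℝ}
    (h : g3P A B C l m = g3P A B C l' m') : l = l' ∧ m = m' := by
  have e1 := g3_dt A B C l m l' m' 0 1 0 0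
  have e2 := g3_dt A B C l m l' m' 1 0 0 0
  rw [h, sub_self] at e1 e2
  have z : ∀ w : ℂ, dt 0 w = 0 := fun w => by simp [dt]
  rw [z] at e1 e2
  constructor
  · have := (mul_eq_zero.1 e1.symm).resolve_right hnd
    linarith
  · have := (mul_eq_zero.1 e2.symm).resolve_right hnd
    linarith

theorem g3_seg {A B C : E} {l m l' m' : ℝ} {z : ℂ}
    (h : z ∈ segment ℝ (g3P A B C l m) (g3P A B C l' m')) :
    ∃ t : ℝ, 0 ≤ t ∧ t ≤ 1 ∧ z = g3P A B C (l + t * (l' - l)) (m + t * (m' - m)) := by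
  rw [segment_eq_image_lineMap] at h
  obtain ⟨t, ⟨h0, h1⟩, rfl⟩ := h
  refine ⟨t, h0, h1, ?_⟩
  rw [AffineMap.lineMap_apply_module']
  unfold g3P
  simp only [Complex.real_smul]
  push_cast
  ring

theorem g3_line (X Y : E) (t : ℝ) :
    (AffineMap.lineMap X Y t : E).1 = X.1 + (t : ℂ) * (Y.1 - X.1) := by
  rw [AffineMap.lineMap_apply_module']
  simp only [Prod.fst_add, Prod.smul_fst, Prod.fst_sub, Complex.real_smul]
  ring

/-- A point of a segment is on its line. -/
theorem g3_off {X Y z : ℂ} (h : dt (z - X) (Y - X) ≠ 0) : z ∉ segment ℝ X Y := by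
  intro hz
  apply h
  rw [segment_eq_image_lineMap] at hz
  obtain ⟨t, -, rfl⟩ := hz
  rw [AffineMap.lineMap_apply_module']
  unfold dt
  simp only [Complex.sub_re, Complex.sub_im, Complex.add_re, Complex.add_im, Complex.real_smul,
    Complex.re_ofReal_mul, Complex.im_ofReal_mul]
  ring

theorem g3_fst {X Y x : E} (h : x ∈ segment ℝ X Y) : x.1 ∈ segment ℝ X.1 Y.1 := by
  obtain ⟨a, b, ha, hb, hab, rfl⟩ := h
  exact ⟨a, b, ha, hb, hab, rfl⟩

theorem g3_lift {X Y Z W : E} (h : Disjoint (segment ℝ X.1 Y.1) (segment ℝ Z.1 W.1)) :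
    Disjoint (segment ℝ X Y) (segment ℝ Z W) :=
  Set.disjoint_left.2 fun _ h1 h2 => Set.disjoint_left.1 h (g3_fst h1) (g3_fst h2)

/-! ### The permutation -/

variable {I : Type} [DecidableEq I] {σ : Equiv.Perm I}

theorem g3_ins0 (σ : Equiv.Perm I) (i0 : I) : insS σ i0 (some i0) = none := by
  unfold insS
  rw [Equiv.Perm.mul_apply, Equiv.optionCongr_apply, Option.map_some, Equiv.swap_apply_right]

theorem g3_ins1 (σ : Equiv.Perm I) (i0 : I) : insS σ i0 none = some (σ i0) := by
  unfold insS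
  rw [Equiv.Perm.mul_apply, Equiv.optionCongr_apply, Option.map_none, Equiv.swap_apply_left]

theorem g3_ins2 (σ : Equiv.Perm I) {i0 j : I} (h : j ≠ i0) : insS σ i0 (some j) = some (σ j) := by
  unfold insS
  rw [Equiv.Perm.mul_apply, Equiv.optionCongr_apply, Option.map_some, Equiv.swap_apply_of_ne_of_ne]
  · exact Option.some_ne_none _
  · intro h1
    exact h (σ.injective (Option.some_injective _ h1))

variable (σ) (i0 : I)

theorem g3_a : sA3 σ i0 (some (some (some i0))) = none := g3_ins0 _ _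

theorem g3_m : sA3 σ i0 none = some (some none) := by
  rw [sA3, g3_ins1, sA2, g3_ins2 _ (Option.some_ne_none _), sA1, g3_ins0]

theorem g3_n : sA3 σ i0 (some (some none)) = some none := by
  rw [sA3, g3_ins2 _ (by simp), sA2, g3_ins0]

theorem g3_r : sA3 σ i0 (some none) = some (some (some (σ i0))) := by
  rw [sA3, g3_ins2 _ (by simp), sA2, g3_ins1, sA1, g3_ins1]

variable {i0}

theorem g3_b {j : I} (h : j ≠ i0) :
    sA3 σ i0 (some (some (some j))) = some (some (some (σ j))) := by
  rw [sA3, g3_ins2 _ (by simpa using h), sA2, g3_ins2 _ (Option.some_ne_none _), sA1,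
    g3_ins2 _ h]

/-- The edges of w3'. -/
theorem g3_cases (x : Option (Option (Option I))) : x = none ∨ x = some none ∨
    x = some (some none) ∨ x = some (some (some i0)) ∨
      ∃ j, j ≠ i0 ∧ x = some (some (some j)) := by
  rcases x with _ | _ | _ | j
  · exact Or.inl rfl
  · exact Or.inr (Or.inl rfl)
  · exact Or.inr (Or.inr (Or.inl rfl))
  · by_cases h : j = i0
    · subst h
      exact Or.inr (Or.inr (Or.inr (Or.inl rfl)))
    · exact Or.inr (Or.inr (Or.inr (Or.inr ⟨j, h, rfl⟩)))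

end Pool.Agent.Lib.MP_ca0971_gt.OT
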