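import Pool.Agent.Lib.MP_ca0971_gt.OT.Tri.G3a

/-!
# Project OT, Tri: the polygon w3', plane geometry in the triangle
-/

set_option autoImplicit false

namespace Pool.Agent.Lib.MP_ca0971_gt.OT

open Finset Filter Topology

variable {I : Type} [Fintype I] [DecidableEq I] {σ : Equiv.Perm I}

/-- The projected triangle is not degenerate. -/
theorem TriC.g3_nd {v : I → E} {i0 : I} {B C2 B2 B1 C1 D : E} (h : TriC σ v i0 B C2 B2 B1 C1 D) :
    dt (B.1 - (v i0).1) ((v (σ i0)).1 - (v i0).1) ≠ 0 :=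
  h.base.gp.1 (some i0) none (some (σ i0)) (Option.some_ne_none _)
    (fun e => h.base.s1 i0 (Option.some_injective _ e).symm) (Option.some_ne_none _).symm

/-- The coordinates of the points. -/
theorem TriC.g3_co {v : I → E} {i0 : I} {B C2 B2 B1 C1 D : E} (h : TriC σ v i0 B C2 B2 B1 C1 D) :
    ∃ c2 b2 b1 : ℝ, (0 < c2 ∧ c2 < 1) ∧ (0 < b2 ∧ b2 < 1) ∧ (0 < b1 ∧ b1 < 1) ∧
      (v i0).1 = g3P (v i0) B (v (σ i0)) 0 0 ∧ (v (σ i0)).1 = g3P (v i0) B (v (σ i0)) 0 1 ∧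
      B.1 = g3P (v i0) B (v (σ i0)) 1 0 ∧ C2.1 = g3P (v i0) B (v (σ i0)) 0 c2 ∧
      B2.1 = g3P (v i0) B (v (σ i0)) (1 - b2) b2 ∧ B1.1 = g3P (v i0) B (v (σ i0)) b1 0 := by
  obtain ⟨c2, c20, c21, e2⟩ := h.e1
  obtain ⟨b2, b20, b21, f2⟩ := h.e2
  obtain ⟨b1, b10, b11, f1⟩ := h.e3
  refine ⟨c2, b2, b1, ⟨c20, c21⟩, ⟨b20, b21⟩, ⟨b10, b11⟩, ?_, ?_, ?_, ?_, ?_, ?_⟩
  · unfold g3P
    push_cast
    ring
  · unfold g3P
    push_cast
    ring
  · unfold g3P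
    push_cast
    ring
  · rw [e2, g3_line]
    unfold g3P
    push_cast
    ring
  · rw [f2, g3_line]
    unfold g3P
    push_cast
    ring
  · rw [f1, g3_line]
    unfold g3P
    push_cast
    ring

/-- The planar facts about the new edges. -/
structure G3Pl (A B C C2 B2 B1 : E) : Prop where
  an : Disjoint (segment ℝ A.1 B1.1) (segment ℝ C2.1 B2.1)
  ar : Disjoint (segment ℝ A.1 B1.1) (segment ℝ B2.1 C.1)
  mr : Disjoint (segment ℝ B1.1 C2.1) (segment ℝ B2.1 C.1)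
  Am : A.1 ∉ segment ℝ B1.1 C2.1
  Cm : C.1 ∉ segment ℝ B1.1 C2.1
  An : A.1 ∉ segment ℝ C2.1 B2.1
  Cn : C.1 ∉ segment ℝ C2.1 B2.1
  Ca : C.1 ∉ segment ℝ A.1 B1.1
  Ar : A.1 ∉ segment ℝ B2.1 C.1
  C2a : C2.1 ∉ segment ℝ A.1 B1.1
  C2r : C2.1 ∉ segment ℝ B2.1 C.1
  B2a : B2.1 ∉ segment ℝ A.1 B1.1
  B1r : B1.1 ∉ segment ℝ B2.1 C.1
  dam : dt (B1.1 - A.1) (C2.1 - B1.1) ≠ 0
  dnr : dt (B2.1 - C2.1) (C.1 - B2.1) ≠ 0

theorem TriC.g3_pl {v : I → E} {i0 : I} {B C2 B2 B1 C1 D : E} (h : TriC σ v i0 B C2 B2 B1 C1 D) :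
    G3Pl (v i0) B (v (σ i0)) C2 B2 B1 := by
  have nd := h.g3_nd
  obtain ⟨c2, b2, b1, ⟨c20, c21⟩, ⟨b20, b21⟩, ⟨b10, b11⟩, eA, eC, -, eC2, eB2, eB1⟩ := h.g3_co
  rw [eA, eC] at nd
  have nd' := nd
  rw [← eA, ← eC] at nd'
  constructor
  · rw [Set.disjoint_left]
    intro z h1 h2
    rw [eA, eB1] at h1
    rw [eC2, eB2] at h2
    obtain ⟨s, s0, s1, k1⟩ := g3_seg h1
    obtain ⟨t, t0, t1, k2⟩ := g3_seg h2
    obtain ⟨e1, e2⟩ := g3_inj nd' (k1.symm.trans k2)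
    rcases le_total b2 c2 with k | k <;> nlinarith
  · rw [Set.disjoint_left]
    intro z h1 h2
    rw [eA, eB1] at h1
    rw [eB2, eC] at h2
    obtain ⟨s, s0, s1, k1⟩ := g3_seg h1
    obtain ⟨t, t0, t1, k2⟩ := g3_seg h2
    obtain ⟨e1, e2⟩ := g3_inj nd' (k1.symm.trans k2)
    nlinarith
  · rw [Set.disjoint_left]
    intro z h1 h2
    rw [eB1, eC2] at h1
    rw [eB2, eC] at h2
    obtain ⟨s, s0, s1, k1⟩ := g3_seg h1
    obtain ⟨t, t0, t1, k2⟩ := g3_seg h2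
    obtain ⟨e1, e2⟩ := g3_inj nd' (k1.symm.trans k2)
    rcases le_total b1 c2 with k | k <;> nlinarith
  · intro h1
    rw [eA, eB1, eC2] at h1
    obtain ⟨s, s0, s1, k1⟩ := g3_seg h1
    obtain ⟨e1, e2⟩ := g3_inj nd' k1
    nlinarith
  · intro h1
    rw [eC, eB1, eC2] at h1
    obtain ⟨s, s0, s1, k1⟩ := g3_seg h1
    obtain ⟨e1, e2⟩ := g3_inj nd' k1
    nlinarith
  · intro h1
    rw [eA, eC2, eB2] at h1
    obtain ⟨s, s0, s1, k1⟩ := g3_seg h1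
    obtain ⟨e1, e2⟩ := g3_inj nd' k1
    nlinarith
  · intro h1
    rw [eC, eC2, eB2] at h1
    obtain ⟨s, s0, s1, k1⟩ := g3_seg h1
    obtain ⟨e1, e2⟩ := g3_inj nd' k1
    nlinarith
  · intro h1
    rw [eC, eA, eB1] at h1
    obtain ⟨s, s0, s1, k1⟩ := g3_seg h1
    obtain ⟨e1, e2⟩ := g3_inj nd' k1
    nlinarith
  · intro h1
    rw [eA, eB2, eC] at h1
    obtain ⟨s, s0, s1, k1⟩ := g3_seg h1
    obtain ⟨e1, e2⟩ := g3_inj nd' k1
    nlinarith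
  · intro h1
    rw [eC2, eA, eB1] at h1
    obtain ⟨s, s0, s1, k1⟩ := g3_seg h1
    obtain ⟨e1, e2⟩ := g3_inj nd' k1
    nlinarith
  · intro h1
    rw [eC2, eB2, eC] at h1
    obtain ⟨s, s0, s1, k1⟩ := g3_seg h1
    obtain ⟨e1, e2⟩ := g3_inj nd' k1
    nlinarith
  · intro h1
    rw [eB2, eA, eB1] at h1
    obtain ⟨s, s0, s1, k1⟩ := g3_seg h1
    obtain ⟨e1, e2⟩ := g3_inj nd' k1
    nlinarith
  · intro h1
    rw [eB1, eB2, eC] at h1
    obtain ⟨s, s0, s1, k1⟩ := g3_seg h1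
    obtain ⟨e1, e2⟩ := g3_inj nd' k1
    nlinarith
  · rw [eA, eB1, eC2, g3_dt]
    refine mul_ne_zero ?_ nd'
    nlinarith [mul_pos b10 c20]
  · rw [eB2, eC, eC2, g3_dt]
    refine mul_ne_zero ?_ nd'
    nlinarith [mul_pos (sub_pos.2 b21) (sub_pos.2 c21)]

/-- The old vertices are not on the lines AB, BC. -/
theorem TriC.g3_verA {v : I → E} {i0 : I} {B C2 B2 B1 C1 D : E} (h : TriC σ v i0 B C2 B2 B1 C1 D)
    {i : I} (hi : i ≠ i0) : (v i).1 ∉ segment ℝ (v i0).1 B1.1 := by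
  refine g3_off ?_
  obtain ⟨b1, b10, b11, f1⟩ := h.e3
  have k := h.base.gp.1 (some i0) (some i) none (fun e => hi (Option.some_injective _ e).symm)
    (Option.some_ne_none _) (Option.some_ne_none _)
  change dt ((v i).1 - (v i0).1) (B.1 - (v i0).1) ≠ 0 at k
  have e : dt ((v i).1 - (v i0).1) (B1.1 - (v i0).1) =
      b1 * dt ((v i).1 - (v i0).1) (B.1 - (v i0).1) := by
    rw [f1, g3_line]
    unfold dt
    simp only [Complex.add_re, Complex.add_im, Complex.sub_re, Complex.sub_im,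
      Complex.re_ofReal_mul, Complex.im_ofReal_mul]
    ring
  rw [e]
  exact mul_ne_zero b10.ne' k

theorem TriC.g3_verR {v : I → E} {i0 : I} {B C2 B2 B1 C1 D : E} (h : TriC σ v i0 B C2 B2 B1 C1 D)
    {i : I} (hi : i ≠ σ i0) : (v i).1 ∉ segment ℝ B2.1 (v (σ i0)).1 := by
  refine g3_off ?_
  obtain ⟨b2, b20, b21, f2⟩ := h.e2
  have k := h.base.gp.1 (some (σ i0)) (some i) none
    (fun e => hi (Option.some_injective _ e).symm)
    (Option.some_ne_none _) (Option.some_ne_none _)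
  change dt ((v i).1 - (v (σ i0)).1) (B.1 - (v (σ i0)).1) ≠ 0 at k
  have e : dt ((v i).1 - B2.1) ((v (σ i0)).1 - B2.1) =
      -(1 - b2) * dt ((v i).1 - (v (σ i0)).1) (B.1 - (v (σ i0)).1) := by
    rw [f2, g3_line]
    unfold dt
    simp only [Complex.add_re, Complex.add_im, Complex.sub_re, Complex.sub_im,
      Complex.re_ofReal_mul, Complex.im_ofReal_mul]
    ring
  rw [e]
  exact mul_ne_zero (by linarith) k

/-- All new points are in the triangle. -/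
theorem TriC.g3_hull {v : I → E} {i0 : I} {B C2 B2 B1 C1 D : E} (h : TriC σ v i0 B C2 B2 B1 C1 D) :
    v i0 ∈ convexHull ℝ {v i0, B, v (σ i0)} ∧ v (σ i0) ∈ convexHull ℝ {v i0, B, v (σ i0)} ∧
      C2 ∈ convexHull ℝ {v i0, B, v (σ i0)} ∧ B2 ∈ convexHull ℝ {v i0, B, v (σ i0)} ∧
      B1 ∈ convexHull ℝ {v i0, B, v (σ i0)} := by
  have hA : v i0 ∈ convexHull ℝ {v i0, B, v (σ i0)} := subset_convexHull ℝ _ (by simp)
  have hB : B ∈ convexHull ℝ {v i0, B, v (σ i0)} := subset_convexHull ℝ _ (by simp)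
  have hC : v (σ i0) ∈ convexHull ℝ {v i0, B, v (σ i0)} := subset_convexHull ℝ _ (by simp)
  have cv := convex_convexHull ℝ {v i0, B, v (σ i0)}
  have key : ∀ {X Y : E} {t : ℝ}, X ∈ convexHull ℝ {v i0, B, v (σ i0)} →
      Y ∈ convexHull ℝ {v i0, B, v (σ i0)} → 0 < t → t < 1 →
      AffineMap.lineMap X Y t ∈ convexHull ℝ {v i0, B, v (σ i0)} :=
    fun hX hY t0 t1 => cv.lineMap_mem hX hY ⟨t0.le, t1.le⟩
  obtain ⟨c2, c20, c21, e2⟩ := h.e1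
  obtain ⟨b2, b20, b21, f2⟩ := h.e2
  obtain ⟨b1, b10, b11, f1⟩ := h.e3
  refine ⟨hA, hC, ?_, ?_, ?_⟩
  · rw [e2]
    exact key hA hC c20 c21
  · rw [f2]
    exact key hB hC b20 b21
  · rw [f1]
    exact key hA hB b10 b11

/-- A segment in the triangle and an old edge. -/
theorem TriC.g3_old {v : I → E} {i0 : I} {B C2 B2 B1 C1 D : E} (h : TriC σ v i0 B C2 B2 B1 C1 D)
    {X Y : E} (hX : X ∈ convexHull ℝ {v i0, B, v (σ i0)})
    (hY : Y ∈ convexHull ℝ {v i0, B, v (σ i0)}) {j : I} (hj : j ≠ i0)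
    (hA : (v i0).1 ∈ segment ℝ X.1 Y.1 → σ j ≠ i0)
    (hC : (v (σ i0)).1 ∈ segment ℝ X.1 Y.1 → j ≠ σ i0) :
    Disjoint (segment ℝ X Y) (segment ℝ (v j) (v (σ j))) := by
  rw [Set.disjoint_left]
  intro x h1 h2
  have h3 := h.base.tri j hj ⟨h2, (convex_convexHull ℝ _).segment_subset hX hY h1⟩
  rcases h3 with h3 | h3
  · rw [h3] at h1 h2
    exact h.base.gen.ver i0 j hj (hA (g3_fst h1)) (g3_fst h2)
  · rw [Set.mem_singleton_iff] at h3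
    rw [h3] at h1 h2
    exact h.base.gen.ver (σ i0) j (hC (g3_fst h1)) (fun e => hj (σ.injective e)) (g3_fst h2)

end Pool.Agent.Lib.MP_ca0971_gt.OT
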