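import Pool.Agent.Lib.MP_ca0971_gt.OT.Tri.Base

/-!
# Project OT, Tri: w1 and w2
-/

set_option autoImplicit false

namespace Pool.Agent.Lib.MP_ca0971_gt.OT

open Finset Filter Topology

variable {I : Type} [Fintype I] [DecidableEq I] {σ : Equiv.Perm I}

/-! ### The permutation `insS σ i0` -/

omit [Fintype I] in
theorem s12_none (i0 : I) : insS σ i0 none = some (σ i0) := by
  simp [insS]

omit [Fintype I] in
theorem s12_self (i0 : I) : insS σ i0 (some i0) = none := by
  simp [insS]

omit [Fintype I] in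
theorem s12_some {i0 j : I} (h : j ≠ i0) : insS σ i0 (some j) = some (σ j) := by
  have h1 : σ j ≠ σ i0 := fun h2 => h (σ.injective h2)
  simp [insS, Equiv.swap_apply_def, h1]

omit [Fintype I] in
theorem s12_symm (i0 : I) : (insS σ i0).symm none = some i0 := by
  rw [Equiv.symm_apply_eq, s12_self]

/-- Zh_ins; hcut: C2 is not on the line of j by l1. -/
theorem TriC.s1 {v : I → E} {i0 : I} {B C2 B2 B1 C1 D : E} (h : TriC σ v i0 B C2 B2 B1 C1 D) (N : ℕ) :
    Gen (sA1 σ i0) (insV v C2) ∧ Zh (sA1 σ i0) (insV v C2) N = Zh σ v N := by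
  obtain ⟨t, h0, h1, e⟩ := h.e1
  have hc : ∀ j, Crs σ v i0 j → par σ v i0 j ≠ t := by
    intro j hj he
    have hne : j ≠ i0 := by
      rintro rfl
      exact hj.1 (Or.inl rfl)
    refine (h.l1 j hne).1 ?_
    have h2 : C2.1 = mp σ v i0 j := by
      rw [e, AffineMap.lineMap_apply_module']
      unfold mp dd
      rw [he]
      simp only [Prod.fst_add, Prod.smul_fst, Prod.fst_sub, Complex.real_smul]
      ring
    rw [h2, mp_symm v hj.2.1]
    unfold mp dt
    simp only [Complex.sub_re, Complex.sub_im, Complex.add_re, Complex.add_im,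
      Complex.re_ofReal_mul, Complex.im_ofReal_mul]
    ring
  have hG := gen_ins h.base.gen i0 h0 h1 hc
  have hZ := Zh_ins i0 h0 h1 hG N
  rw [← e] at hG hZ
  exact ⟨hG, hZ⟩

/-- CornC for the edge none (from C2 to C) of w1. free: fC for the base edges; the edge some i0 = A C2 is
the previous one. hgt: [C2, B2] is in the triangle and does not contain C, and the edge CW meets the
triangle only in C (and A). slit: W is not on the line BC. -/
theorem TriC.cornC {v : I → E} {i0 : I} {B C2 B2 B1 C1 D : E} (h : TriC σ v i0 B C2 B2 B1 C1 D) :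
    CornC (sA1 σ i0) (insV v C2) none B2 := by
  obtain ⟨t, h0, h1, e⟩ := h.e1
  obtain ⟨s, g0, g1, g⟩ := h.e2
  have n1 : σ i0 ≠ i0 := h.base.s1 i0
  have n2 : sA1 σ i0 none = some (σ i0) := s12_none i0
  have n3 : sA1 σ i0 (some (σ i0)) = some (σ (σ i0)) := s12_some n1
  have n4 : (sA1 σ i0).symm none = some i0 := s12_symm i0
  have n5 : sA1 σ i0 (some i0) = none := s12_self i0
  have hnd : dt (B.1 - (v i0).1) ((v (σ i0)).1 - (v i0).1) ≠ 0 :=
    h.base.gp.1 (some i0) none (some (σ i0)) (by simp) (by simpa using n1.symm) (by simp)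
  have eC : C2 = v i0 + t • (v (σ i0) - v i0) := by
    rw [e, AffineMap.lineMap_apply_module', add_comm]
  have eB : B2 = v i0 + (1 - s) • (B - v i0) + s • (v (σ i0) - v i0) := by
    rw [g, AffineMap.lineMap_apply_module']
    module
  have vC : insV v C2 none = C2 := rfl
  have vS : ∀ j, insV v C2 (some j) = v j := fun j => rfl
  refine ⟨(h.s1 0).1, ?_, ?_, ?_, ?_, ?_, ?_⟩
  · rw [n2, vS, vC]
    have h2 : dt (B2.1 - C2.1) ((v (σ i0)).1 - C2.1) =
        ((1 - s) * (1 - t)) * dt (B.1 - (v i0).1) ((v (σ i0)).1 - (v i0).1) := by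
      rw [eC, eB]
      unfold dt
      simp only [Prod.fst_add, Prod.smul_fst, Prod.fst_sub, Complex.sub_re, Complex.sub_im,
        Complex.add_re, Complex.add_im, Complex.real_smul, Complex.re_ofReal_mul,
        Complex.im_ofReal_mul]
      ring
    rw [h2]
    exact mul_ne_zero (mul_ne_zero (by linarith) (by linarith)) hnd
  · intro j hj1 hj2 hj3
    obtain ⟨j, rfl⟩ := Option.ne_none_iff_exists'.1 hj1
    rw [n2] at hj3
    have k1 : j ≠ i0 := by
      rintro rfl
      exact hj2 n5
    have k2 : j ≠ σ i0 := fun hh => hj3 (by rw [hh])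
    have k3 : sg (sA1 σ i0) (insV v C2) (some j) = sg σ v j := by
      unfold sg
      rw [show sA1 σ i0 (some j) = some (σ j) from s12_some k1, vS, vS]
    rw [k3, n2, vS, vC]
    exact h.fC j k1 k2
  · refine ⟨t / (1 - t), div_pos h0 (by linarith), ?_⟩
    unfold dd
    rw [n4, n5, n2, vS, vS, vC]
    have h3 : (1 : ℂ) - (t : ℂ) ≠ 0 := by
      have : ((1 - t : ℝ) : ℂ) ≠ 0 := by
        rw [Complex.ofReal_ne_zero]
        linarith
      rwa [Complex.ofReal_sub, Complex.ofReal_one] at this
    rw [eC]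
    simp only [Prod.fst_add, Prod.smul_fst, Prod.fst_sub, Complex.real_smul, Complex.ofReal_div,
      Complex.ofReal_sub, Complex.ofReal_one]
    field_simp
    ring
  · rw [n2, n3, vS, vS, vC]
    exact h.fW
  · unfold dd
    rw [n2, n3, vS, vS]
    apply slit_of_dt
    have h2 : dt ((v (σ i0)).1 - B2.1) ((v (σ (σ i0))).1 - (v (σ i0)).1) =
        (1 - s) * dt ((v (σ i0)).1 - B.1) ((v (σ (σ i0))).1 - B.1) := by
      rw [eB]
      unfold dt
      simp only [Prod.fst_add, Prod.smul_fst, Prod.fst_sub, Complex.sub_re, Complex.sub_im,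
        Complex.add_re, Complex.add_im, Complex.real_smul, Complex.re_ofReal_mul,
        Complex.im_ofReal_mul]
      ring
    rw [h2]
    refine mul_ne_zero (by linarith) ?_
    exact h.base.gp.1 none (some (σ i0)) (some (σ (σ i0))) (by simp) (by simp)
      (by simpa using (h.base.s1 (σ i0)).symm)
  · rw [n2, n3, vS, vS, vC]
    rw [Set.disjoint_left]
    intro x hx hx'
    rw [segment_eq_image] at hx
    obtain ⟨u, ⟨hu0, hu1⟩, rfl⟩ := hx
    have hxe : (1 - u) • C2 + u • B2 = v i0 + (u * (1 - s)) • (B - v i0) +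
        ((1 - u) * t + u * s) • (v (σ i0) - v i0) := by
      rw [eC, eB]
      module
    have hmem : (1 - u) • C2 + u • B2 ∈ convexHull ℝ {v i0, B, v (σ i0)} := by
      have hc := convex_convexHull ℝ ({v i0, B, v (σ i0)} : Set E)
      have m1 : v i0 ∈ convexHull ℝ ({v i0, B, v (σ i0)} : Set E) :=
        subset_convexHull ℝ _ (by simp)
      have m2 : B ∈ convexHull ℝ ({v i0, B, v (σ i0)} : Set E) :=
        subset_convexHull ℝ _ (by simp)
      have m3 : v (σ i0) ∈ convexHull ℝ ({v i0, B, v (σ i0)} : Set E) :=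
        subset_convexHull ℝ _ (by simp)
      have m4 : C2 ∈ convexHull ℝ ({v i0, B, v (σ i0)} : Set E) := by
        have := hc m1 m3 (sub_nonneg.2 h1.le) h0.le (by ring)
        convert this using 1
        rw [eC]
        module
      have m5 : B2 ∈ convexHull ℝ ({v i0, B, v (σ i0)} : Set E) := by
        have := hc m2 m3 (sub_nonneg.2 g1.le) g0.le (by ring)
        convert this using 1
        rw [eB]
        module
      exact hc m4 m5 (sub_nonneg.2 hu1) hu0 (by ring)
    have hAC := h.base.tri (σ i0) n1 ⟨hx', hmem⟩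
    have key : ∀ y : E, y = v i0 ∨ y = v (σ i0) → (1 - u) • C2 + u • B2 ≠ y := by
      intro y hy hxy
      rw [hxe] at hxy
      rcases hy with rfl | rfl
      · have h2 : (v i0 + (u * (1 - s)) • (B - v i0) + ((1 - u) * t + u * s) • (v (σ i0) - v i0) :
            E).1 = (v i0 + (0 : ℝ) • (B - v i0) + (0 : ℝ) • (v (σ i0) - v i0) : E).1 := by
          rw [hxy]
          simp
        obtain ⟨h3, h4⟩ := tri_inj hnd h2
        have h5 : u = 0 := by
          rcases mul_eq_zero.1 h3 with h5 | h5
          · exact h5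
          · linarith
        rw [h5] at h4
        linarith
      · have h2 : (v i0 + (u * (1 - s)) • (B - v i0) + ((1 - u) * t + u * s) • (v (σ i0) - v i0) :
            E).1 = (v i0 + (0 : ℝ) • (B - v i0) + (1 : ℝ) • (v (σ i0) - v i0) : E).1 := by
          rw [hxy]
          simp
        obtain ⟨h3, h4⟩ := tri_inj hnd h2
        have h5 : u = 0 := by
          rcases mul_eq_zero.1 h3 with h5 | h5
          · exact h5
          · linarith
        rw [h5] at h4
        linarith
    exact key _ (by simpa using hAC) rfl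

theorem TriC.s2 {v : I → E} {i0 : I} {B C2 B2 B1 C1 D : E} (h : TriC σ v i0 B C2 B2 B1 C1 D) (N : ℕ) :
    Gen (sA2 σ i0) (insV (insV v C2) B2) ∧
      Zh (sA2 σ i0) (insV (insV v C2) B2) N = Zh σ v N := by
  refine ⟨h.cornC.gen', ?_⟩
  rw [h.cornC.Zh_eq, (h.s1 N).2]

end Pool.Agent.Lib.MP_ca0971_gt.OT
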