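import Pool.Agent.Lib.MP_ca0971_gt.OT.Tri.S12

/-!
# Project OT, Tri: w3 and w4
-/

set_option autoImplicit false

namespace Pool.Agent.Lib.MP_ca0971_gt.OT

open Finset Filter Topology

section aux

variable {J : Type} [DecidableEq J] (τ : Equiv.Perm J)

private theorem iS_self (e : J) : insS τ e (some e) = none := by
  simp [insS]

private theorem iS_none (e : J) : insS τ e none = some (τ e) := by
  simp [insS]

private theorem iS_ne {e j : J} (h : j ≠ e) : insS τ e (some j) = some (τ j) := by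
  have h1 : τ j ≠ τ e := fun h0 => h (τ.injective h0)
  change Equiv.swap none (some (τ e)) (some (τ j)) = some (τ j)
  refine Equiv.swap_apply_of_ne_of_ne (by simp) ?_
  intro h0
  exact h1 (Option.some_injective _ h0)

private theorem iS_symm {e : J} (h : τ e ≠ e) : (insS τ e).symm (some e) = some (τ.symm e) := by
  rw [Equiv.symm_apply_eq, iS_ne, τ.apply_symm_apply]
  intro h0
  exact h ((τ.symm_apply_eq.1 h0).symm)

private theorem slit_dt {x z : ℂ} (h : dt x z ≠ 0) : z / x ∈ Complex.slitPlane := by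
  have hx : x ≠ 0 := by
    rintro rfl
    simp [dt] at h
  have hn : Complex.normSq x ≠ 0 := by simpa using hx
  refine Or.inr ?_
  have h1 : (z / x).im = dt x z / Complex.normSq x := by
    rw [Complex.div_im]
    unfold dt
    field_simp
  rw [h1]
  exact div_ne_zero h hn

end aux

variable {I : Type} [Fintype I] [DecidableEq I] {σ : Equiv.Perm I}

section perms

variable (σ : Equiv.Perm I) (i0 : I)

omit [Fintype I]

private theorem a1_e : sA1 σ i0 (some i0) = none := iS_self σ i0

private theorem a1_none : sA1 σ i0 none = some (σ i0) := iS_none σ i0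

private theorem a1_ne {k : I} (h : k ≠ i0) : sA1 σ i0 (some k) = some (σ k) := iS_ne σ h

private theorem a2_e : sA2 σ i0 (some (some i0)) = some none := by
  rw [sA2, iS_ne _ (by simp), a1_e]

private theorem a2_sn : sA2 σ i0 (some none) = none := iS_self _ _

private theorem a2_none : sA2 σ i0 none = some (some (σ i0)) := by
  rw [sA2, iS_none, a1_none]

private theorem a2_ne {k : I} (h : k ≠ i0) : sA2 σ i0 (some (some k)) = some (some (σ k)) := by
  rw [sA2, iS_ne _ (by simp), a1_ne σ i0 h]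

private theorem a3_e : sA3 σ i0 (some (some (some i0))) = none := iS_self _ _

private theorem a3_none : sA3 σ i0 none = some (some none) := by
  rw [sA3, iS_none, a2_e]

private theorem a3_sn : sA3 σ i0 (some none) = some (some (some (σ i0))) := by
  rw [sA3, iS_ne _ (by simp), a2_none]

private theorem a3_ssn : sA3 σ i0 (some (some none)) = some none := by
  rw [sA3, iS_ne _ (by simp), a2_sn]

private theorem a3_ne {k : I} (h : k ≠ i0) :
    sA3 σ i0 (some (some (some k))) = some (some (some (σ k))) := by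
  rw [sA3, iS_ne _ (by simpa using h), a2_ne σ i0 h]

private theorem a3_symm (h : σ i0 ≠ i0) :
    (sA3 σ i0).symm (some (some (some i0))) = some (some (some (σ.symm i0))) := by
  have h1 : σ.symm i0 ≠ i0 := fun h0 => h ((σ.symm_apply_eq.1 h0).symm)
  rw [Equiv.symm_apply_eq, a3_ne σ i0 h1, σ.apply_symm_apply]

end perms

section hulls

variable {v : I → E} {i0 : I} {B C2 B2 B1 C1 D : E}

omit [Fintype I] in
private theorem segC (h : TriC σ v i0 B C2 B2 B1 C1 D) {x y : ℂ}
    (hx : x ∈ ({C2.1, B2.1, (v (σ i0)).1} : Set ℂ))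
    (hy : y ∈ ({C2.1, B2.1, (v (σ i0)).1} : Set ℂ)) :
    Disjoint (segment ℝ x y) (convexHull ℝ {(v i0).1, B1.1, C1.1, D.1}) :=
  (h.fAC.mono_right (segment_subset_convexHull hx hy)).symm

omit [Fintype I] in
private theorem dis2 (h : TriC σ v i0 B C2 B2 B1 C1 D) (j : Option (Option I))
    (h1 : j ≠ some (some i0)) (h2 : sA2 σ i0 j ≠ some (some i0)) :
    Disjoint (sg (sA2 σ i0) (insV (insV v C2) B2) j)
      (convexHull ℝ {(v i0).1, B1.1, C1.1, D.1}) := by
  rcases j with _ | _ | k
  · have e : sg (sA2 σ i0) (insV (insV v C2) B2) none = segment ℝ B2.1 (v (σ i0)).1 := by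
      rw [sg, a2_none]
      rfl
    rw [e]
    exact segC h (by simp) (by simp)
  · have e : sg (sA2 σ i0) (insV (insV v C2) B2) (some none) = segment ℝ C2.1 B2.1 := by
      rw [sg, a2_sn]
      rfl
    rw [e]
    exact segC h (by simp) (by simp)
  · have hk : k ≠ i0 := fun h0 => h1 (by rw [h0])
    rw [a2_ne σ i0 hk] at h2
    have e : sg (sA2 σ i0) (insV (insV v C2) B2) (some (some k)) = sg σ v k := by
      rw [sg, a2_ne σ i0 hk]
      rfl
    rw [e]
    exact h.fA k hk fun h0 => h2 (by rw [h0])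

omit [Fintype I] in
private theorem dis3 (h : TriC σ v i0 B C2 B2 B1 C1 D) (j : Option (Option (Option I)))
    (h1 : j ≠ some (some (some i0))) (h2 : sA3 σ i0 j ≠ some (some (some i0)))
    (h3 : j ≠ none) :
    Disjoint (sg (sA3 σ i0) (insV (insV (insV v C2) B2) C1) j)
      (convexHull ℝ {(v i0).1, B1.1, C1.1, D.1}) := by
  rcases j with _ | _ | _ | k
  · exact absurd rfl h3
  · have e : sg (sA3 σ i0) (insV (insV (insV v C2) B2) C1) (some none) =
        segment ℝ B2.1 (v (σ i0)).1 := by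
      rw [sg, a3_sn]
      rfl
    rw [e]
    exact segC h (by simp) (by simp)
  · have e : sg (sA3 σ i0) (insV (insV (insV v C2) B2) C1) (some (some none)) =
        segment ℝ C2.1 B2.1 := by
      rw [sg, a3_ssn]
      rfl
    rw [e]
    exact segC h (by simp) (by simp)
  · have hk : k ≠ i0 := fun h0 => h1 (by rw [h0])
    rw [a3_ne σ i0 hk] at h2
    have e : sg (sA3 σ i0) (insV (insV (insV v C2) B2) C1) (some (some (some k))) =
        sg σ v k := by
      rw [sg, a3_ne σ i0 hk]
      rfl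
    rw [e]
    exact h.fA k hk fun h0 => h2 (by rw [h0])

end hulls

/-- Zh_ins for the edge some (some i0) (from A to C2) of w2; hcut: C1 is in the hull near A (fA, fAC). -/
theorem TriC.s3 {v : I → E} {i0 : I} {B C2 B2 B1 C1 D : E} (h : TriC σ v i0 B C2 B2 B1 C1 D) (N : ℕ) :
    Gen (sA3 σ i0) (insV (insV (insV v C2) B2) C1) ∧
      Zh (sA3 σ i0) (insV (insV (insV v C2) B2) C1) N = Zh σ v N := by
  obtain ⟨t, ht0, ht1, he⟩ := h.e4
  obtain ⟨hG2, hZ2⟩ := h.s2 N
  have e1 : (AffineMap.lineMap (insV (insV v C2) B2 (some (some i0)))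
      (insV (insV v C2) B2 (sA2 σ i0 (some (some i0)))) t : E) = C1 := by
    rw [a2_e, he]
    rfl
  have hcut : ∀ j, Crs (sA2 σ i0) (insV (insV v C2) B2) (some (some i0)) j →
      par (sA2 σ i0) (insV (insV v C2) B2) (some (some i0)) j ≠ t := by
    intro j hj hp
    have h1 := (mp_mem hj.mt).2
    have h2 : mp (sA2 σ i0) (insV (insV v C2) B2) (some (some i0)) j = C1.1 := by
      rw [mp, hp, dd, a2_e, he, AffineMap.lineMap_apply]
      change (v i0).1 + (t : ℂ) * (C2.1 - (v i0).1) = t • (C2.1 - (v i0).1) + (v i0).1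
      rw [Complex.real_smul]
      ring
    rw [h2] at h1
    have hA := hj.1
    refine Set.disjoint_left.1 (dis2 h j ?_ ?_) h1
      (subset_convexHull ℝ _ (by simp))
    · intro h0
      exact hA (Or.inl h0.symm)
    · intro h0
      exact hA (Or.inr (Or.inr h0.symm))
  have hG3 := gen_ins hG2 (some (some i0)) ht0 ht1 hcut
  have hZ3 := Zh_ins (some (some i0)) ht0 ht1 hG3 N
  rw [e1] at hG3 hZ3
  exact ⟨hG3, by rw [hZ3, hZ2]⟩

/-- CornA for the edge some (some (some i0)) (from A to C1) of w3; the next edge none goes from C1 to C2.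
free: fA for the base edges, fAC for the edges near C (C2 B2 and B2 C); hgt: the edge ZA meets the
triangle only in A (and C) and [B1, C1] does not contain A, C. slit: Z is not on the line AB. -/
theorem TriC.cornA {v : I → E} {i0 : I} {B C2 B2 B1 C1 D : E} (h : TriC σ v i0 B C2 B2 B1 C1 D) :
    CornA (sA3 σ i0) (insV (insV (insV v C2) B2) C1) (some (some (some i0))) B1 := by
  obtain ⟨t1, h10, h11, he1⟩ := h.e1
  obtain ⟨t3, h30, h31, he3⟩ := h.e3
  obtain ⟨t4, h40, h41, he4⟩ := h.e4
  have hb := h.base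
  have hs : σ.symm i0 ≠ i0 := fun h0 => hb.s1 i0 ((σ.symm_apply_eq.1 h0).symm)
  have hss : σ.symm i0 ≠ σ i0 := by
    intro h0
    exact hb.s2 i0 ((σ.symm_apply_eq.1 h0).symm)
  -- coordinates
  have kB1 : B1 = v i0 + t3 • (B - v i0) := by
    rw [he3, AffineMap.lineMap_apply]
    simp [add_comm]
  have kC1 : C1 = v i0 + (t4 * t1) • (v (σ i0) - v i0) := by
    rw [he4, he1, AffineMap.lineMap_apply, AffineMap.lineMap_apply]
    simp [add_comm, mul_smul]
  have kC2 : C2 = v i0 + t1 • (v (σ i0) - v i0) := by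
    rw [he1, AffineMap.lineMap_apply]
    simp [add_comm]
  have hnd : dt (B.1 - (v i0).1) ((v (σ i0)).1 - (v i0).1) ≠ 0 :=
    hb.gp.1 (some i0) none (some (σ i0)) (by simp) (by simpa using (hb.s1 i0).symm) (by simp)
  have hm : 0 < t4 * t1 := mul_pos h40 h10
  have hm1 : t4 * t1 < 1 := by nlinarith
  refine ⟨(h.s3 0).1, ?_, ?_, ?_, ?_, ?_, ?_⟩
  · rw [a3_e]
    change dt (B1.1 - (v i0).1) (C1.1 - (v i0).1) ≠ 0
    have e : dt (B1.1 - (v i0).1) (C1.1 - (v i0).1) =
        (t3 * (t4 * t1)) * dt (B.1 - (v i0).1) ((v (σ i0)).1 - (v i0).1) := by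
      rw [kB1, kC1]
      simp only [dt, Prod.fst_add, Prod.smul_fst, Prod.fst_sub, Complex.sub_re, Complex.sub_im,
        Complex.add_re, Complex.add_im, Complex.real_smul, Complex.mul_re, Complex.mul_im,
        Complex.ofReal_re, Complex.ofReal_im]
      ring
    rw [e]
    exact mul_ne_zero (mul_pos h30 hm).ne' hnd
  · intro j h1 h2 h3
    rw [a3_e] at h3 ⊢
    refine (dis3 h j h1 h2 h3).mono_right ?_
    change convexHull ℝ {(v i0).1, B1.1, C1.1} ⊆ _
    refine convexHull_mono ?_
    intro z hz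
    rcases hz with hz | hz | hz
    · exact Or.inl hz
    · exact Or.inr (Or.inl hz)
    · exact Or.inr (Or.inr (Or.inl hz))
  · refine ⟨(1 - t4) / t4, div_pos (by linarith) h40, ?_⟩
    rw [a3_e, dd, dd, a3_none, a3_e]
    change C2.1 - C1.1 = (((1 - t4) / t4 : ℝ) : ℂ) * (C1.1 - (v i0).1)
    rw [kC1, kC2]
    simp only [Prod.fst_add, Prod.smul_fst, Prod.fst_sub, Complex.real_smul]
    have h4 : (t4 : ℂ) ≠ 0 := by exact_mod_cast h40.ne'
    push_cast
    field_simp
    ring
  · rw [a3_symm σ i0 (hb.s1 i0), a3_e]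
    change (v (σ.symm i0)).1 ∉ convexHull ℝ {(v i0).1, B1.1, C1.1}
    intro h0
    refine h.fZ (convexHull_mono ?_ h0)
    intro z hz
    rcases hz with hz | hz | hz
    · exact Or.inl hz
    · exact Or.inr (Or.inl hz)
    · exact Or.inr (Or.inr (Or.inl hz))
  · rw [a3_symm σ i0 (hb.s1 i0)]
    refine slit_dt ?_
    rw [dd, a3_ne σ i0 hs, σ.apply_symm_apply]
    change dt ((v i0).1 - (v (σ.symm i0)).1) (B1.1 - (v i0).1) ≠ 0
    have h5 : dt (B.1 - (v i0).1) ((v (σ.symm i0)).1 - (v i0).1) ≠ 0 :=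
      hb.gp.1 (some i0) none (some (σ.symm i0)) (by simp) (by simpa using hs.symm) (by simp)
    have e : dt ((v i0).1 - (v (σ.symm i0)).1) (B1.1 - (v i0).1) =
        t3 * dt (B.1 - (v i0).1) ((v (σ.symm i0)).1 - (v i0).1) := by
      rw [kB1]
      simp only [dt, Prod.fst_add, Prod.smul_fst, Prod.fst_sub, Complex.sub_re, Complex.sub_im,
        Complex.add_re, Complex.add_im, Complex.real_smul, Complex.mul_re, Complex.mul_im,
        Complex.ofReal_re, Complex.ofReal_im]
      ring
    rw [e]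
    exact mul_ne_zero h30.ne' h5
  · rw [a3_symm σ i0 (hb.s1 i0), a3_e]
    change Disjoint (segment ℝ (v (σ.symm i0)) (v i0)) (segment ℝ B1 C1)
    rw [Set.disjoint_left]
    intro z hz1 hz2
    have h6 : z ∈ segment ℝ (v (σ.symm i0)) (v (σ (σ.symm i0))) := by
      rwa [σ.apply_symm_apply]
    obtain ⟨a, b, ha, hbb, hab, hz⟩ := hz2
    have hab' : a = 1 - b := by linarith
    have kz : z = v i0 + ((1 - b) * t3) • (B - v i0) + (b * (t4 * t1)) • (v (σ i0) - v i0) := by
      rw [← hz, kB1, kC1, hab']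
      module
    have h7 : z ∈ convexHull ℝ {v i0, B, v (σ i0)} := by
      have hA : v i0 ∈ convexHull ℝ ({v i0, B, v (σ i0)} : Set E) :=
        subset_convexHull ℝ _ (by simp)
      have hB : B ∈ convexHull ℝ ({v i0, B, v (σ i0)} : Set E) :=
        subset_convexHull ℝ _ (by simp)
      have hC : v (σ i0) ∈ convexHull ℝ ({v i0, B, v (σ i0)} : Set E) :=
        subset_convexHull ℝ _ (by simp)
      have hcv : Convex ℝ (convexHull ℝ ({v i0, B, v (σ i0)} : Set E)) := convex_convexHull ℝ _
      have hB1 : B1 ∈ convexHull ℝ ({v i0, B, v (σ i0)} : Set E) := by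
        refine hcv.segment_subset hA hB ?_
        refine ⟨1 - t3, t3, by linarith, h30.le, by ring, ?_⟩
        rw [kB1]
        module
      have hC1 : C1 ∈ convexHull ℝ ({v i0, B, v (σ i0)} : Set E) := by
        refine hcv.segment_subset hA hC ?_
        refine ⟨1 - t4 * t1, t4 * t1, by linarith, hm.le, by ring, ?_⟩
        rw [kC1]
        module
      exact hcv.segment_subset hB1 hC1 ⟨a, b, ha, hbb, hab, hz⟩
    have h8 := hb.tri (σ.symm i0) hs ⟨h6, h7⟩
    have key : ∀ l m : ℝ, (v i0 + ((1 - b) * t3) • (B - v i0) +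
        (b * (t4 * t1)) • (v (σ i0) - v i0) : E) =
        v i0 + l • (B - v i0) + m • (v (σ i0) - v i0) → (1 - b) * t3 = l ∧ b * (t4 * t1) = m := by
      intro l m h0
      exact tri_inj hnd (congrArg Prod.fst h0)
    rcases h8 with h8 | h8
    · have h9 := key 0 0 (by rw [← kz, h8]; module)
      have hb0 : b = 0 := by
        rcases mul_eq_zero.1 h9.2 with h0 | h0
        · exact h0
        · exact absurd h0 hm.ne'
      rw [hb0] at h9
      have := h9.1
      linarith
    · have h9 := key 0 1 (by rw [← kz, h8]; module)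
      have hb1 : b ≤ 1 := by linarith
      have := h9.2
      nlinarith

theorem TriC.s4 {v : I → E} {i0 : I} {B C2 B2 B1 C1 D : E} (h : TriC σ v i0 B C2 B2 B1 C1 D) (N : ℕ) :
    Gen (sA4 σ i0) (insV (insV (insV (insV v C2) B2) C1) B1) ∧
      Zh (sA4 σ i0) (insV (insV (insV (insV v C2) B2) C1) B1) N = Zh σ v N := by
  refine ⟨h.cornA.gen', ?_⟩
  rw [h.cornA.Zh_eq, (h.s3 N).2]

end Pool.Agent.Lib.MP_ca0971_gt.OT
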