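import Pool.Agent.Lib.MP_ca0971_gt.OT.Tri.Base
import Pool.Agent.Lib.MP_ca0971_gt.OT.Path.GenGP

/-!
# Project OT, Tri: plane coordinates of the configuration, next-vertex permutation of w4
-/

set_option autoImplicit false

namespace Pool.Agent.Lib.MP_ca0971_gt.OT

open Finset Filter Topology

/-- Point of the plane of A, B, C with the coordinates l, m. -/
noncomputable def s5pl (A B C : E) (l m : ℝ) : E := A + l • (B - A) + m • (C - A)

theorem s5_dt (A B C : E) (l m l' m' l2 m2 l2' m2' : ℝ) :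
    dt ((s5pl A B C l m).1 - (s5pl A B C l' m').1)
      ((s5pl A B C l2 m2).1 - (s5pl A B C l2' m2').1) =
      ((l - l') * (m2 - m2') - (m - m') * (l2 - l2')) * dt (B.1 - A.1) (C.1 - A.1) := by
  simp only [s5pl, dt, Prod.fst_add, Prod.smul_fst, Prod.fst_sub, Complex.sub_re, Complex.sub_im,
    Complex.add_re, Complex.add_im, Complex.real_smul, Complex.re_ofReal_mul,
    Complex.im_ofReal_mul]
  ring

theorem s5_inj {A B C : E} (hnd : dt (B.1 - A.1) (C.1 - A.1) ≠ 0) {l m l' m' : ℝ}
    (h : (s5pl A B C l m).1 = (s5pl A B C l' m').1) : l = l' ∧ m = m' :=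
  tri_inj hnd h

theorem s5_00 (A B C : E) : s5pl A B C 0 0 = A := by
  simp [s5pl]

theorem s5_01 (A B C : E) : s5pl A B C 0 1 = C := by
  simp [s5pl]

theorem s5_10 (A B C : E) : s5pl A B C 1 0 = B := by
  simp [s5pl]

theorem s5_line (A B C : E) (l m l' m' t : ℝ) :
    AffineMap.lineMap (s5pl A B C l m) (s5pl A B C l' m') t =
      s5pl A B C ((1 - t) * l + t * l') ((1 - t) * m + t * m') := by
  rw [AffineMap.lineMap_apply_module]
  unfold s5pl
  module

theorem s5_seg {A B C x : E} {l m l' m' : ℝ}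
    (hx : x ∈ segment ℝ (s5pl A B C l m) (s5pl A B C l' m')) :
    ∃ s : ℝ, 0 ≤ s ∧ s ≤ 1 ∧ x = s5pl A B C ((1 - s) * l + s * l') ((1 - s) * m + s * m') := by
  rw [segment_eq_image_lineMap] at hx
  obtain ⟨s, hs, rfl⟩ := hx
  exact ⟨s, hs.1, hs.2, s5_line A B C l m l' m' s⟩

theorem s5_hull {A B C : E} {l m : ℝ} (hl : 0 ≤ l) (hm : 0 ≤ m) (h1 : l + m ≤ 1) :
    s5pl A B C l m ∈ convexHull ℝ {A, B, C} := by
  have hA : A ∈ convexHull ℝ {A, B, C} := subset_convexHull ℝ _ (by simp)
  have hB : B ∈ convexHull ℝ {A, B, C} := subset_convexHull ℝ _ (by simp)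
  have hC : C ∈ convexHull ℝ {A, B, C} := subset_convexHull ℝ _ (by simp)
  have h2 := (convex_convexHull ℝ ({A, B, C} : Set E)).sum_mem (t := Finset.univ)
    (w := ![1 - l - m, l, m]) (z := ![A, B, C])
    (by
      intro i _
      fin_cases i
      · simpa using by linarith
      · simpa using hl
      · simpa using hm)
    (by
      simp [Fin.sum_univ_three]
      ring)
    (by
      intro i _
      fin_cases i
      · exact hA
      · exact hB
      · exact hC)
  have h3 : s5pl A B C l m = ∑ i, (![1 - l - m, l, m] : Fin 3 → ℝ) i • (![A, B, C] : Fin 3 → E) i := by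
    simp only [Fin.sum_univ_three, Matrix.cons_val_zero, Matrix.cons_val_one, Matrix.cons_val]
    unfold s5pl
    module
  rw [h3]
  exact h2

theorem s5_slit_pos {a : ℂ} (ha : a ≠ 0) {r : ℝ} (hr : 0 < r) :
    ((r : ℂ) * a) / a ∈ Complex.slitPlane := by
  rw [mul_div_cancel_right₀ _ ha, Complex.mem_slitPlane_iff]
  left
  simpa using hr

variable {I : Type} [DecidableEq I] {σ : Equiv.Perm I}

theorem s5_ins_none (i0 : I) : insS σ i0 none = some (σ i0) := by
  simp [insS]

theorem s5_ins_self (i0 : I) : insS σ i0 (some i0) = none := by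
  simp [insS]

theorem s5_ins_ne {i0 i : I} (h : i ≠ i0) : insS σ i0 (some i) = some (σ i) := by
  have h1 : σ i ≠ σ i0 := fun h2 => h (σ.injective h2)
  simp [insS, Equiv.swap_apply_of_ne_of_ne, h1]

theorem s5_p1 (i0 : I) : sA4 σ i0 none = some none := by
  rw [sA4, s5_ins_none, sA3, s5_ins_self]

theorem s5_p2 (i0 : I) : sA4 σ i0 (some none) = some (some (some none)) := by
  rw [sA4, s5_ins_ne (by simp), sA3, s5_ins_none, sA2, s5_ins_ne (by simp), sA1, s5_ins_self]

theorem s5_p3 (i0 : I) : sA4 σ i0 (some (some (some none))) = some (some none) := by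
  rw [sA4, s5_ins_ne (by simp), sA3, s5_ins_ne (by simp), sA2, s5_ins_self]

theorem s5_p4 (i0 : I) : sA4 σ i0 (some (some none)) = some (some (some (some (σ i0)))) := by
  rw [sA4, s5_ins_ne (by simp), sA3, s5_ins_ne (by simp), sA2, s5_ins_none, sA1, s5_ins_none]

theorem s5_p5 (i0 : I) : sA4 σ i0 (some (some (some (some i0)))) = none := by
  rw [sA4, s5_ins_self]

theorem s5_p6 {i0 j : I} (h : j ≠ i0) :
    sA4 σ i0 (some (some (some (some j)))) = some (some (some (some (σ j)))) := by
  rw [sA4, s5_ins_ne (by simpa using h), sA3, s5_ins_ne (by simpa using h), sA2,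
    s5_ins_ne (by simp), sA1, s5_ins_ne h]

end Pool.Agent.Lib.MP_ca0971_gt.OT
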