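import Pool.Agent.Lib.MP_ca0971_gt.OT.Tri.S5A

/-!
# Project OT, Tri: coordinates of the points of the configuration TriC
-/

set_option autoImplicit false

namespace Pool.Agent.Lib.MP_ca0971_gt.OT

open Finset Filter Topology

variable {I : Type} [Fintype I] [DecidableEq I] {σ : Equiv.Perm I}

/-- Coordinates. -/
structure S5K (A B C C2 B2 B1 C1 D : E) (c2 b2 b1 c1 κ : ℝ) : Prop where
  nd : dt (B.1 - A.1) (C.1 - A.1) ≠ 0
  c2p : 0 < c2
  c2l : c2 < 1
  b2p : 0 < b2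
  b2l : b2 < 1
  b1p : 0 < b1
  b1l : b1 < 1
  c1p : 0 < c1
  c1l : c1 < 1
  kp : 0 < κ
  kl : κ < 1
  eC2 : C2 = s5pl A B C 0 c2
  eB2 : B2 = s5pl A B C (1 - b2) b2
  eB1 : B1 = s5pl A B C b1 0
  eC1 : C1 = s5pl A B C 0 (c1 * c2)
  eD : D = s5pl A B C (b1 * (1 - κ)) (κ * c2)

omit [Fintype I] [DecidableEq I] in
theorem s5_nd {v : I → E} {i0 : I} {B : E} (h : Tri0 σ v i0 B) :
    dt (B.1 - (v i0).1) ((v (σ i0)).1 - (v i0).1) ≠ 0 :=
  h.gp.1 (some i0) none (some (σ i0)) (by simp) (by simpa using (h.s1 i0).symm) (by simp)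

omit [Fintype I] [DecidableEq I] in
theorem s5_coord {v : I → E} {i0 : I} {B C2 B2 B1 C1 D : E}
    (h : TriC σ v i0 B C2 B2 B1 C1 D) : ∃ c2 b2 b1 c1 κ : ℝ,
      S5K (v i0) B (v (σ i0)) C2 B2 B1 C1 D c2 b2 b1 c1 κ := by
  obtain ⟨c2, hc0, hc1, e1⟩ := h.e1
  obtain ⟨b2, hb0, hb1, e2⟩ := h.e2
  obtain ⟨b1, ha0, ha1, e3⟩ := h.e3
  obtain ⟨c1, hd0, hd1, e4⟩ := h.e4
  obtain ⟨κ, hk0, hk1, e5⟩ := h.e5
  have f1 : C2 = s5pl (v i0) B (v (σ i0)) 0 c2 := by
    rw [e1]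
    conv_lhs => rw [← s5_00 (v i0) B (v (σ i0)), ← s5_01 (s5pl (v i0) B (v (σ i0)) 0 0) B
      (v (σ i0))]
    rw [s5_00, s5_01, AffineMap.lineMap_apply_module]
    unfold s5pl
    module
  have f2 : B2 = s5pl (v i0) B (v (σ i0)) (1 - b2) b2 := by
    rw [e2, AffineMap.lineMap_apply_module]
    unfold s5pl
    module
  have f3 : B1 = s5pl (v i0) B (v (σ i0)) b1 0 := by
    rw [e3, AffineMap.lineMap_apply_module]
    unfold s5pl
    module
  have f4 : C1 = s5pl (v i0) B (v (σ i0)) 0 (c1 * c2) := by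
    rw [e4, f1, AffineMap.lineMap_apply_module]
    unfold s5pl
    module
  refine ⟨c2, b2, b1, c1, κ, s5_nd h.base, hc0, hc1, hb0, hb1, ha0, ha1, hd0, hd1, hk0, hk1,
    f1, f2, f3, f4, ?_⟩
  rw [e5, f3, f1, s5_line]
  congr 1 <;> ring

theorem s5_cc {s a b : ℝ} (h0 : 0 ≤ s) (h1 : s ≤ 1) (ha : 0 < a) (hb : 0 < b) :
    0 < (1 - s) * a + s * b := by
  rcases eq_or_lt_of_le h0 with h | h
  · rw [← h]
    linarith
  · have h7 := mul_pos h hb
    have h8 := mul_nonneg (sub_nonneg.2 h1) ha.le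
    linarith

/-- Facts on the moving point. -/
structure S5X (c2 b2 xl xm : ℝ) : Prop where
  l0 : 0 ≤ xl
  m0 : 0 < xm
  s1 : xl + xm < 1
  ph : 0 < xl * (b2 - c2) + (c2 - xm) * (1 - b2)

theorem S5K.phB {A B C C2 B2 B1 C1 D : E} {c2 b2 b1 c1 κ : ℝ}
    (k : S5K A B C C2 B2 B1 C1 D c2 b2 b1 c1 κ) : 0 < b1 * (b2 - c2) + c2 * (1 - b2) := by
  have h1 : b1 * (b2 - c2) + c2 * (1 - b2) =
      (1 - b1) * (c2 * (1 - b2)) + b1 * (b2 * (1 - c2)) := by ring
  rw [h1]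
  have := k.c2p; have := k.b2p; have := k.b1p
  have h2 : 0 < 1 - b1 := by linarith [k.b1l]
  have h3 : 0 < 1 - b2 := by linarith [k.b2l]
  have h4 : 0 < 1 - c2 := by linarith [k.c2l]
  positivity

theorem S5K.X {A B C C2 B2 B1 C1 D : E} {c2 b2 b1 c1 κ : ℝ}
    (k : S5K A B C C2 B2 B1 C1 D c2 b2 b1 c1 κ) {t : ℝ} (ht : t ∈ Set.Icc (0 : ℝ) 1) :
    S5X c2 b2 (t * (b1 * (1 - κ))) ((1 - t) * (c1 * c2) + t * (κ * c2)) := by
  obtain ⟨t0, t1⟩ := ht
  have hc := k.c2p; have hb := k.b2p; have hb1 := k.b1p; have hc1 := k.c1p; have hk := k.kp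
  have h1 : 0 < 1 - κ := by linarith [k.kl]
  have h2 : 0 < 1 - b2 := by linarith [k.b2l]
  have h3 : 0 < 1 - c2 := by linarith [k.c2l]
  have h4 : 0 < 1 - c1 := by linarith [k.c1l]
  have h5 : 0 < 1 - b1 := by linarith [k.b1l]
  have h6 : 0 ≤ 1 - t := by linarith
  have cc : ∀ a b : ℝ, 0 < a → 0 < b → 0 < (1 - t) * a + t * b := fun _ _ => s5_cc t0 t1
  refine ⟨by positivity, cc _ _ (by positivity) (by positivity), ?_, ?_⟩
  · have h7 := cc (1 - c1 * c2) (1 - (b1 * (1 - κ) + κ * c2)) (by nlinarith) (by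
      have h8 : 1 - (b1 * (1 - κ) + κ * c2) = (1 - κ) * (1 - b1) + κ * (1 - c2) := by ring
      rw [h8]
      positivity)
    linarith
  · have h7 := cc (c2 * (1 - c1) * (1 - b2))
      ((1 - κ) * (b1 * (b2 - c2) + c2 * (1 - b2))) (by positivity)
      (mul_pos h1 k.phB)
    have h8 : t * (b1 * (1 - κ)) * (b2 - c2) +
        (c2 - ((1 - t) * (c1 * c2) + t * (κ * c2))) * (1 - b2) =
        (1 - t) * (c2 * (1 - c1) * (1 - b2)) +
          t * ((1 - κ) * (b1 * (b2 - c2) + c2 * (1 - b2))) := by ring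
    rw [h8]
    exact h7

/-- The polygon w4 with the moving vertex at X. -/
abbrev s5U (v : I → E) (C2 B2 X B1 : E) : Option (Option (Option (Option I))) → E :=
  insV (insV (insV (insV v C2) B2) X) B1

/-- Inequalities for the coordinates of the points of the edge i. -/
def S5T (c2 b2 : ℝ) : Option (Option (Option (Option I))) → ℝ → ℝ → Prop
  | none, l, m => 0 < l + m ∧ l + m < 1 ∧ 0 < l * (b2 - c2) + (c2 - m) * (1 - b2)
  | some none, l, m => 0 < m ∧ l + m < 1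
  | some (some none), l, m => l + m = 1 ∧ 0 < m
  | some (some (some none)), l, m =>
    0 < m ∧ m < 1 ∧ l * (b2 - c2) + (c2 - m) * (1 - b2) = 0
  | some (some (some (some _))), l, m => m = 0 ∧ l < 1

omit [Fintype I] in
theorem s5_edge {v : I → E} {i0 : I} {B C2 B2 B1 C1 D X : E} {c2 b2 b1 c1 κ xl xm : ℝ}
    (k : S5K (v i0) B (v (σ i0)) C2 B2 B1 C1 D c2 b2 b1 c1 κ) (hX : S5X c2 b2 xl xm)
    (eX : X = s5pl (v i0) B (v (σ i0)) xl xm) (i : Option (Option (Option (Option I))))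
    (hi : ∀ j, i = some (some (some (some j))) → j = i0) {x : E}
    (hx : x ∈ segment ℝ (s5U v C2 B2 X B1 i) (s5U v C2 B2 X B1 (sA4 σ i0 i))) :
    ∃ l m : ℝ, x = s5pl (v i0) B (v (σ i0)) l m ∧ 0 ≤ l ∧ 0 ≤ m ∧ l + m ≤ 1 ∧
      S5T c2 b2 i l m := by
  obtain ⟨hl0, hm0, hs1, hph⟩ := hX
  have hc := k.c2p; have hb := k.b2p; have hb1 := k.b1p; have hB := k.phB
  have g1 : 0 < 1 - b2 := by linarith [k.b2l]
  have g2 : 0 < 1 - c2 := by linarith [k.c2l]
  have g3 : 0 < 1 - b1 := by linarith [k.b1l]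
  have g4 : 0 < 1 - (xl + xm) := by linarith
  rcases i with _ | _ | _ | _ | i
  · rw [s5_p1] at hx
    change x ∈ segment ℝ B1 X at hx
    rw [k.eB1, eX] at hx
    obtain ⟨s, s0, s1, e⟩ := s5_seg hx
    have u1 := s5_cc s0 s1 hb1 (by linarith : 0 < xl + xm)
    have u2 := s5_cc s0 s1 g3 g4
    have u3 := s5_cc s0 s1 hB hph
    have u4 := mul_nonneg (sub_nonneg.2 s1) hb1.le
    have u5 := mul_nonneg s0 hl0
    have u6 := mul_nonneg s0 hm0.le
    refine ⟨_, _, e, by linarith, by linarith, by linarith, by linarith, by linarith, ?_⟩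
    have u7 : ((1 - s) * b1 + s * xl) * (b2 - c2) + (c2 - ((1 - s) * 0 + s * xm)) * (1 - b2) =
      (1 - s) * (b1 * (b2 - c2) + c2 * (1 - b2)) +
        s * (xl * (b2 - c2) + (c2 - xm) * (1 - b2)) := by ring
    rw [u7]
    exact u3
  · rw [s5_p2] at hx
    change x ∈ segment ℝ X C2 at hx
    rw [k.eC2, eX] at hx
    obtain ⟨s, s0, s1, e⟩ := s5_seg hx
    have u1 := s5_cc s0 s1 hm0 hc
    have u2 := s5_cc s0 s1 g4 g2
    have u4 := mul_nonneg (sub_nonneg.2 s1) hl0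
    refine ⟨_, _, e, by linarith, by linarith, by linarith, by linarith, by linarith⟩
  · rw [s5_p4] at hx
    change x ∈ segment ℝ B2 (v (σ i0)) at hx
    have hx' : x ∈ segment ℝ (s5pl (v i0) B (v (σ i0)) (1 - b2) b2)
        (s5pl (v i0) B (v (σ i0)) 0 1) := by
      rw [s5_01, ← k.eB2]
      exact hx
    obtain ⟨s, s0, s1, e⟩ := s5_seg hx'
    have u1 := s5_cc s0 s1 hb one_pos
    have u4 := mul_nonneg (sub_nonneg.2 s1) g1.le
    refine ⟨_, _, e, by linarith, by linarith, by linarith, by ring, by linarith⟩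
  · rw [s5_p3] at hx
    change x ∈ segment ℝ C2 B2 at hx
    rw [k.eC2, k.eB2] at hx
    obtain ⟨s, s0, s1, e⟩ := s5_seg hx
    have u1 := s5_cc s0 s1 hc hb
    have u2 := s5_cc s0 s1 g2 g1
    have u4 := mul_nonneg s0 g1.le
    refine ⟨_, _, e, by linarith, by linarith, ?_, by linarith, by linarith, by ring⟩
    have u5 := mul_nonneg (sub_nonneg.2 s1) g2.le
    linarith
  · obtain rfl := hi i rfl
    rw [s5_p5] at hx
    change x ∈ segment ℝ (v i) B1 at hx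
    have hx' : x ∈ segment ℝ (s5pl (v i) B (v (σ i)) 0 0)
        (s5pl (v i) B (v (σ i)) b1 0) := by
      rw [s5_00, ← k.eB1]
      exact hx
    obtain ⟨s, s0, s1, e⟩ := s5_seg hx'
    have u1 := s5_cc s0 s1 one_pos g3
    have u4 := mul_nonneg s0 hb1.le
    refine ⟨_, _, e, by linarith, by linarith, by linarith, by ring, by linarith⟩

omit [Fintype I] in
/-- Two nonadjacent new edges. -/
theorem S5T.no {i0 : I} {c2 b2 l m : ℝ} {i j : Option (Option (Option (Option I)))}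
    (hi : ∀ a, i = some (some (some (some a))) → a = i0)
    (hj : ∀ a, j = some (some (some (some a))) → a = i0)
    (hij : ¬ Adj (sA4 σ i0) i j) (h1 : S5T c2 b2 i l m) (h2 : S5T c2 b2 j l m) : False := by
  rcases i with _ | _ | _ | _ | i <;> rcases j with _ | _ | _ | _ | j
  all_goals try obtain rfl := hi _ rfl
  all_goals try obtain rfl := hj _ rfl
  all_goals first
    | exact hij (Or.inl rfl)
    | exact hij (Or.inr (Or.inl (s5_p1 _).symm))
    | exact hij (Or.inr (Or.inl (s5_p2 _).symm))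
    | exact hij (Or.inr (Or.inl (s5_p3 _).symm))
    | exact hij (Or.inr (Or.inl (s5_p5 _).symm))
    | exact hij (Or.inr (Or.inr (s5_p1 _).symm))
    | exact hij (Or.inr (Or.inr (s5_p2 _).symm))
    | exact hij (Or.inr (Or.inr (s5_p3 _).symm))
    | exact hij (Or.inr (Or.inr (s5_p5 _).symm))
    | skip
  all_goals simp only [S5T] at h1 h2
  all_goals linarith [h1.1, h1.2, h2.1, h2.2]

end Pool.Agent.Lib.MP_ca0971_gt.OT
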