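import Pool.Agent.Lib.MP_ca0971_gt.OT.Tri.S5B

/-!
# Project OT, Tri: the polygon w4 with the moving vertex at X is embedded
-/

set_option autoImplicit false

namespace Pool.Agent.Lib.MP_ca0971_gt.OT

open Finset Filter Topology

variable {I : Type} [Fintype I] [DecidableEq I] {σ : Equiv.Perm I}

theorem s5_fst {x y z : E} (h : x ∈ segment ℝ y z) : x.1 ∈ segment ℝ y.1 z.1 := by
  obtain ⟨a, b, ha, hb, hab, rfl⟩ := h
  exact ⟨a, b, ha, hb, hab, by simp⟩

theorem s5_base_new {v : I → E} {i0 : I} {B C2 B2 B1 C1 D X : E} {c2 b2 b1 c1 κ xl xm : ℝ}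
    (h : Tri0 σ v i0 B)
    (k : S5K (v i0) B (v (σ i0)) C2 B2 B1 C1 D c2 b2 b1 c1 κ) (hX : S5X c2 b2 xl xm)
    (eX : X = s5pl (v i0) B (v (σ i0)) xl xm) {a : I} (ha : a ≠ i0)
    {j : Option (Option (Option (Option I)))}
    (hj : ∀ c, j = some (some (some (some c))) → c = i0)
    (hij : ¬ Adj (sA4 σ i0) (some (some (some (some a)))) j) :
    Disjoint (segment ℝ (v a) (v (σ a)))
      (segment ℝ (s5U v C2 B2 X B1 j) (s5U v C2 B2 X B1 (sA4 σ i0 j))) := by
  rw [Set.disjoint_left]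
  intro x hxa hxj
  obtain ⟨l, m, e, hl, hm, hlm, hT⟩ := s5_edge k hX eX j hj hxj
  have h1 := h.tri a ha ⟨hxa, by rw [e]; exact s5_hull hl hm hlm⟩
  rcases h1 with h1 | h1
  · have h2 : (s5pl (v i0) B (v (σ i0)) l m).1 = (s5pl (v i0) B (v (σ i0)) 0 0).1 := by
      rw [← e, h1, s5_00]
    obtain ⟨rfl, rfl⟩ := s5_inj k.nd h2
    rcases j with _ | _ | _ | _ | j
    · linarith [hT.1]
    · linarith [hT.1]
    · linarith [hT.1]
    · linarith [hT.1]
    · obtain rfl := hj j rfl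
      refine h.gen.ver j a ha ?_ (h1 ▸ s5_fst hxa)
      intro h3
      apply hij
      right; left
      rw [s5_p6 ha, h3]
  · have h2 : (s5pl (v i0) B (v (σ i0)) l m).1 = (s5pl (v i0) B (v (σ i0)) 0 1).1 := by
      rw [← e, h1, s5_01]
    obtain ⟨rfl, rfl⟩ := s5_inj k.nd h2
    rcases j with _ | _ | _ | _ | j
    · linarith [hT.2.1]
    · linarith [hT.2]
    · refine h.gen.ver (σ i0) a ?_ (fun h3 => ha (σ.injective h3)) (h1 ▸ s5_fst hxa)
      intro h3
      apply hij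
      right; right
      rw [s5_p4, h3]
    · linarith [hT.2.1]
    · linarith [hT.1]

theorem s5_dis {v : I → E} {i0 : I} {B C2 B2 B1 C1 D X : E} {c2 b2 b1 c1 κ xl xm : ℝ}
    (h : Tri0 σ v i0 B)
    (k : S5K (v i0) B (v (σ i0)) C2 B2 B1 C1 D c2 b2 b1 c1 κ) (hX : S5X c2 b2 xl xm)
    (eX : X = s5pl (v i0) B (v (σ i0)) xl xm) (i j : Option (Option (Option (Option I))))
    (hij : ¬ Adj (sA4 σ i0) i j) :
    Disjoint (segment ℝ (s5U v C2 B2 X B1 i) (s5U v C2 B2 X B1 (sA4 σ i0 i)))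
      (segment ℝ (s5U v C2 B2 X B1 j) (s5U v C2 B2 X B1 (sA4 σ i0 j))) := by
  have hbase : ∀ a, a ≠ i0 → segment ℝ (s5U v C2 B2 X B1 (some (some (some (some a)))))
      (s5U v C2 B2 X B1 (sA4 σ i0 (some (some (some (some a)))))) =
      segment ℝ (v a) (v (σ a)) := fun a ha => by
    rw [s5_p6 ha]
    rfl
  by_cases hi : ∀ c, i = some (some (some (some c))) → c = i0
  · by_cases hj : ∀ c, j = some (some (some (some c))) → c = i0
    · rw [Set.disjoint_left]
      intro x hxi hxj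
      obtain ⟨l, m, e, hl, hm, hlm, hT⟩ := s5_edge k hX eX i hi hxi
      obtain ⟨l', m', e', -, -, -, hT'⟩ := s5_edge k hX eX j hj hxj
      obtain ⟨rfl, rfl⟩ := s5_inj k.nd (congrArg Prod.fst (e.symm.trans e'))
      exact hT.no hi hj hij hT'
    · push Not at hj
      obtain ⟨c, rfl, hc⟩ := hj
      rw [hbase c hc]
      exact (s5_base_new h k hX eX hc hi fun h1 => hij h1.symm').symm
  · push Not at hi
    obtain ⟨a, rfl, ha⟩ := hi
    rw [hbase a ha]
    by_cases hj : ∀ c, j = some (some (some (some c))) → c = i0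
    · exact s5_base_new h k hX eX ha hj hij
    · push Not at hj
      obtain ⟨c, rfl, hc⟩ := hj
      rw [hbase c hc]
      refine h.dis a c fun h1 => hij ?_
      rcases h1 with h1 | h1 | h1
      · exact Or.inl (by rw [h1])
      · exact Or.inr (Or.inl (by rw [s5_p6 ha, h1]))
      · exact Or.inr (Or.inr (by rw [s5_p6 hc, h1]))

end Pool.Agent.Lib.MP_ca0971_gt.OT
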