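import Pool.Agent.Lib.MP_ca0971_gt.OT.Tri.S5C

/-!
# Project OT, Tri: general position of the fixed vertices of w4
-/

set_option autoImplicit false

namespace Pool.Agent.Lib.MP_ca0971_gt.OT

open Finset Filter Topology

theorem s5_ne_of_dt {x y z : ℂ} (h : dt (x - y) z ≠ 0) : x ≠ y := by
  rintro rfl
  apply h
  simp [dt]

theorem s5_eq {A B C P Q : E} (nd : dt (B.1 - A.1) (C.1 - A.1) ≠ 0) {l m l' m' : ℝ}
    (hP : P = s5pl A B C l m) (hQ : Q = s5pl A B C l' m') (h : P.1 = Q.1) : l = l' ∧ m = m' :=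
  s5_inj nd (by rw [← hP, ← hQ, h])

theorem s5_dtne {A B C P Q R S : E} (nd : dt (B.1 - A.1) (C.1 - A.1) ≠ 0)
    {l m l' m' l2 m2 l2' m2' : ℝ} (hP : P = s5pl A B C l m) (hQ : Q = s5pl A B C l' m')
    (hR : R = s5pl A B C l2 m2) (hS : S = s5pl A B C l2' m2')
    (hf : (l - l') * (m2 - m2') - (m - m') * (l2 - l2') ≠ 0) :
    dt (P.1 - Q.1) (R.1 - S.1) ≠ 0 := by
  rw [hP, hQ, hR, hS, s5_dt]
  exact mul_ne_zero hf nd

theorem s5_dt_line {x y z w : E} {t : ℝ} (ht : t ≠ 0) (hw : w = AffineMap.lineMap y z t)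
    (h : dt (x.1 - y.1) (z.1 - y.1) ≠ 0) : dt (x.1 - y.1) (w.1 - y.1) ≠ 0 := by
  have h1 : dt (x.1 - y.1) (w.1 - y.1) = t * dt (x.1 - y.1) (z.1 - y.1) := by
    rw [hw, AffineMap.lineMap_apply_module]
    simp only [dt, Prod.fst_add, Prod.smul_fst, Complex.sub_re, Complex.sub_im, Complex.add_re,
      Complex.add_im, Complex.real_smul, Complex.re_ofReal_mul, Complex.im_ofReal_mul]
    ring
  rw [h1]
  exact mul_ne_zero ht h

theorem s5_dt_line' {x y z w : E} {t : ℝ} (ht : t ≠ 1) (hw : w = AffineMap.lineMap y z t)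
    (h : dt (x.1 - y.1) (z.1 - y.1) ≠ 0) : dt (x.1 - w.1) (z.1 - w.1) ≠ 0 := by
  have h1 : dt (x.1 - w.1) (z.1 - w.1) = (1 - t) * dt (x.1 - y.1) (z.1 - y.1) := by
    rw [hw, AffineMap.lineMap_apply_module]
    simp only [dt, Prod.fst_add, Prod.smul_fst, Complex.sub_re, Complex.sub_im, Complex.add_re,
      Complex.add_im, Complex.real_smul, Complex.re_ofReal_mul, Complex.im_ofReal_mul]
    ring
  rw [h1]
  exact mul_ne_zero (sub_ne_zero.2 ht.symm) h

variable {I : Type} [Fintype I] [DecidableEq I] {σ : Equiv.Perm I}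

/-- A new vertex is not a base vertex. -/
theorem s5_new_ne {v : I → E} {i0 : I} {B C2 B2 B1 C1 D : E} {c2 b2 b1 c1 κ : ℝ}
    (h : TriC σ v i0 B C2 B2 B1 C1 D)
    (k : S5K (v i0) B (v (σ i0)) C2 B2 B1 C1 D c2 b2 b1 c1 κ) (a : I) :
    B1.1 ≠ (v a).1 ∧ B2.1 ≠ (v a).1 ∧ C2.1 ≠ (v a).1 := by
  by_cases ha : a = i0
  · subst ha
    have eA := (s5_00 (v a) B (v (σ a))).symm
    refine ⟨fun e => ?_, fun e => ?_, fun e => ?_⟩
    · linarith [(s5_eq k.nd k.eB1 eA e).1, k.b1p]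
    · linarith [(s5_eq k.nd k.eB2 eA e).2, k.b2p]
    · linarith [(s5_eq k.nd k.eC2 eA e).2, k.c2p]
  · obtain ⟨h1, h2, h3, -⟩ := h.l1 a ha
    exact ⟨s5_ne_of_dt h3, s5_ne_of_dt h2, s5_ne_of_dt h1⟩

theorem s5_base_ne {v : I → E} {i0 : I} {B : E} (h : Tri0 σ v i0 B) {a b : I} (hab : a ≠ b) :
    (v a).1 ≠ (v b).1 :=
  s5_ne_of_dt (h.gp.1 (some b) (some a) none (by simpa using hab.symm) (by simp) (by simp))

theorem s5_fix0 {v : I → E} {i0 : I} {B C2 B2 B1 C1 D : E} {c2 b2 b1 c1 κ : ℝ}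
    (h : TriC σ v i0 B C2 B2 B1 C1 D)
    (k : S5K (v i0) B (v (σ i0)) C2 B2 B1 C1 D c2 b2 b1 c1 κ)
    (i j : Option (Option (Option (Option I)))) (hi : i ≠ some none) (hj : j ≠ some none)
    (hij : i ≠ j) : (s5U v C2 B2 C1 B1 i).1 ≠ (s5U v C2 B2 C1 B1 j).1 := by
  have hn := s5_new_ne h k
  have d1 : B1.1 ≠ B2.1 := fun e => by
    linarith [(s5_eq k.nd k.eB1 k.eB2 e).2, k.b2p]
  have d2 : B1.1 ≠ C2.1 := fun e => by
    linarith [(s5_eq k.nd k.eB1 k.eC2 e).2, k.c2p]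
  have d3 : B2.1 ≠ C2.1 := fun e => by
    linarith [(s5_eq k.nd k.eB2 k.eC2 e).1, k.b2l]
  rcases i with _ | _ | _ | _ | i <;> rcases j with _ | _ | _ | _ | j
  · exact absurd rfl hij
  · exact absurd rfl hj
  · exact d1
  · exact d2
  · exact (hn j).1
  · exact absurd rfl hi
  · exact absurd rfl hi
  · exact absurd rfl hi
  · exact absurd rfl hi
  · exact absurd rfl hi
  · exact d1.symm
  · exact absurd rfl hj
  · exact absurd rfl hij
  · exact d3
  · exact (hn j).2.1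
  · exact d2.symm
  · exact absurd rfl hj
  · exact d3.symm
  · exact absurd rfl hij
  · exact (hn j).2.2
  · exact (hn i).1.symm
  · exact absurd rfl hj
  · exact (hn i).2.1.symm
  · exact (hn i).2.2.symm
  · exact s5_base_ne h.base fun e => hij (by rw [e])

theorem s5_fix1 {v : I → E} {i0 : I} {B C2 B2 B1 C1 D : E} {c2 b2 b1 c1 κ : ℝ}
    (h : TriC σ v i0 B C2 B2 B1 C1 D)
    (k : S5K (v i0) B (v (σ i0)) C2 B2 B1 C1 D c2 b2 b1 c1 κ)
    (i j : Option (Option (Option (Option I)))) (hi : i ≠ some none) (hj : j ≠ some none)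
    (hj' : sA4 σ i0 j ≠ some none) (hij : i ≠ j) (hij' : i ≠ sA4 σ i0 j) :
    dt ((s5U v C2 B2 C1 B1 i).1 - (s5U v C2 B2 C1 B1 j).1)
      (dd (sA4 σ i0) (s5U v C2 B2 C1 B1) j) ≠ 0 := by
  have hc := k.c2p; have hb := k.b2p; have hb1 := k.b1p
  have g1 : 0 < 1 - b2 := by linarith [k.b2l]
  have g2 : 0 < 1 - c2 := by linarith [k.c2l]
  have g3 : 0 < 1 - b1 := by linarith [k.b1l]
  have eA := (s5_00 (v i0) B (v (σ i0))).symm
  have eC := (s5_01 (v i0) B (v (σ i0))).symm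
  obtain ⟨tA, tA0, tA1, eB2'⟩ := h.e2
  obtain ⟨tB, tB0, tB1, eB1'⟩ := h.e3
  rcases j with _ | _ | _ | _ | b
  · exact absurd (s5_p1 i0) hj'
  · exact absurd rfl hj
  · -- the edge B2 C
    rw [dd, s5_p4]
    rw [s5_p4] at hij'
    rcases i with _ | _ | _ | _ | a
    · change dt (B1.1 - B2.1) ((v (σ i0)).1 - B2.1) ≠ 0
      refine s5_dtne k.nd k.eB1 k.eB2 eC k.eB2 (ne_of_lt ?_)
      nlinarith [mul_pos g3 g1]
    · exact absurd rfl hi
    · exact absurd rfl hij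
    · change dt (C2.1 - B2.1) ((v (σ i0)).1 - B2.1) ≠ 0
      refine s5_dtne k.nd k.eC2 k.eB2 eC k.eB2 (ne_of_lt ?_)
      nlinarith [mul_pos g2 g1]
    · change dt ((v a).1 - B2.1) ((v (σ i0)).1 - B2.1) ≠ 0
      refine s5_dt_line' tA1.ne eB2' ?_
      exact h.base.gp.1 none (some a) (some (σ i0)) (by simp) (by simp)
        (fun e => hij' (by rw [Option.some.inj e]))
  · -- the edge C2 B2
    rw [dd, s5_p3]
    rw [s5_p3] at hij'
    rcases i with _ | _ | _ | _ | a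
    · exact h.l4
    · exact absurd rfl hi
    · exact absurd rfl hij'
    · exact absurd rfl hij
    · change dt ((v a).1 - C2.1) (B2.1 - C2.1) ≠ 0
      by_cases h1 : a = i0
      · rw [h1]
        refine s5_dtne k.nd eA k.eC2 k.eB2 k.eC2 (ne_of_gt ?_)
        nlinarith [mul_pos hc g1]
      · by_cases h2 : a = σ i0
        · rw [h2]
          refine s5_dtne k.nd eC k.eC2 k.eB2 k.eC2 (ne_of_lt ?_)
          nlinarith [mul_pos g2 g1]
        · exact (h.l2 a h1 h2).1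
  · by_cases h1 : b = i0
    · subst h1
      rw [dd, s5_p5]
      rw [s5_p5] at hij'
      rcases i with _ | _ | _ | _ | a
      · exact absurd rfl hij'
      · exact absurd rfl hi
      · change dt (B2.1 - (v b).1) (B1.1 - (v b).1) ≠ 0
        refine s5_dtne k.nd k.eB2 eA k.eB1 eA (ne_of_lt ?_)
        nlinarith [mul_pos hb hb1]
      · change dt (C2.1 - (v b).1) (B1.1 - (v b).1) ≠ 0
        refine s5_dtne k.nd k.eC2 eA k.eB1 eA (ne_of_lt ?_)
        nlinarith [mul_pos hc hb1]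
      · change dt ((v a).1 - (v b).1) (B1.1 - (v b).1) ≠ 0
        refine s5_dt_line tB0.ne' eB1' ?_
        exact h.base.gp.1 (some b) (some a) none (fun e => hij (by rw [Option.some.inj e]))
          (by simp) (by simp)
    · rw [dd, s5_p6 h1]
      rw [s5_p6 h1] at hij'
      obtain ⟨l1, l2, l3, -⟩ := h.l1 b h1
      rcases i with _ | _ | _ | _ | a
      · exact l3
      · exact absurd rfl hi
      · exact l2
      · exact l1
      · exact h.base.gp.1 (some b) (some a) (some (σ b))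
          (fun e => hij (by rw [Option.some.inj e]))
          (fun e => (h.base.s1 b) (Option.some.inj e).symm)
          (fun e => hij' (by rw [Option.some.inj e]))

end Pool.Agent.Lib.MP_ca0971_gt.OT
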